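import Mathlib

set_option autoImplicit false

namespace Pool.Agent.Lib.P5c592f

open MvPolynomial

section LocalOrder

variable {k : Type*} [Field k] {σ : Type*}

/-- order at the origin of a polynomial -/
noncomputable def lord (u : MvPolynomial σ k) : ℕ∞ := (u : MvPowerSeries σ k).order

theorem lord_mul (u w : MvPolynomial σ k) : lord (u * w) = lord u + lord w := by
  unfold lord
  rw [MvPolynomial.coe_mul]
  exact MvPowerSeries.order_mul _ _

theorem lord_pow (u : MvPolynomial σ k) (n : ℕ) : lord (u ^ n) = n * lord u := by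
  induction n with
  | zero =>
    simp only [pow_zero, Nat.cast_zero, zero_mul]
    unfold lord
    rw [MvPolynomial.coe_one]
    have : (MvPowerSeries.order (1 : MvPowerSeries σ k)) ≤ 0 := by
      have := MvPowerSeries.order_le (f := (1 : MvPowerSeries σ k)) (d := 0) (by simp)
      simpa using this
    exact le_antisymm this bot_le
  | succ n ih =>
    rw [pow_succ, lord_mul, ih]
    push_cast
    ring

theorem le_lord_iff (u : MvPolynomial σ k) (n : ℕ) :
    (n : ℕ∞) ≤ lord u ↔ ∀ d : σ →₀ ℕ, d.degree < n → u.coeff d = 0 := by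
  unfold lord
  constructor
  · intro h d hd
    have := MvPowerSeries.coeff_of_lt_order (f := (u : MvPowerSeries σ k)) (d := d)
      (lt_of_lt_of_le (by exact_mod_cast hd) h)
    simpa using this
  · intro h
    apply MvPowerSeries.nat_le_order
    intro d hd
    simpa using h d hd

theorem le_lord_iff_mem (u : MvPolynomial σ k) (n : ℕ) :
    (n : ℕ∞) ≤ lord u ↔ u ∈ idealOfVars σ k ^ n := by
  rw [le_lord_iff, mem_pow_idealOfVars_iff']

theorem lord_eq_top_iff (u : MvPolynomial σ k) : lord u = ⊤ ↔ u = 0 := by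
  unfold lord
  rw [MvPowerSeries.order_eq_top_iff]
  constructor
  · intro h
    exact MvPolynomial.coe_injective σ k (by simpa using h)
  · rintro rfl; simp

theorem lord_zero : lord (0 : MvPolynomial σ k) = ⊤ := (lord_eq_top_iff 0).2 rfl

theorem lord_le_of_coeff_ne (u : MvPolynomial σ k) (d : σ →₀ ℕ) (h : u.coeff d ≠ 0) :
    lord u ≤ d.degree := by
  unfold lord
  apply MvPowerSeries.order_le
  simpa using h

end LocalOrder

section TT

variable {k : Type*} [Field k] {n : ℕ}

/-- `F(x) ↦ F(x + s w)`. -/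
noncomputable def T (w : Fin (n + 1) → k) :
    MvPolynomial (Fin (n + 1)) k →ₐ[k] Polynomial (MvPolynomial (Fin (n + 1)) k) :=
  aeval (fun j => Polynomial.C (X j) + Polynomial.C (C (w j)) * Polynomial.X)

@[simp] theorem T_X (w : Fin (n + 1) → k) (j : Fin (n + 1)) :
    T w (X j) = Polynomial.C (X j) + Polynomial.C (C (w j)) * Polynomial.X := by
  simp [T]

@[simp] theorem T_C (w : Fin (n + 1) → k) (a : k) :
    T w (C a) = Polynomial.C (C a) := by
  simp [T]

/-- predicate: the coefficient of `s^j` is homogeneous of degree `d - j`, zero for `j > d`. -/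
def PH (d : ℕ) (G : Polynomial (MvPolynomial (Fin (n + 1)) k)) : Prop :=
  ∀ j, (j ≤ d → (G.coeff j).IsHomogeneous (d - j)) ∧ (d < j → G.coeff j = 0)

theorem PH.add {d : ℕ} {G H : Polynomial (MvPolynomial (Fin (n + 1)) k)} (hG : PH d G)
    (hH : PH d H) : PH d (G + H) := by
  intro j
  refine ⟨fun hj => ?_, fun hj => ?_⟩
  · rw [Polynomial.coeff_add]; exact ((hG j).1 hj).add ((hH j).1 hj)
  · rw [Polynomial.coeff_add, (hG j).2 hj, (hH j).2 hj, add_zero]

theorem PH.zero {d : ℕ} : PH d (0 : Polynomial (MvPolynomial (Fin (n + 1)) k)) := by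
  intro j
  refine ⟨fun hj => ?_, fun hj => ?_⟩
  · simp [isHomogeneous_zero]
  · simp

theorem PH.sum {d : ℕ} {ι : Type*} (s : Finset ι)
    (G : ι → Polynomial (MvPolynomial (Fin (n + 1)) k)) (hG : ∀ i ∈ s, PH d (G i)) :
    PH d (∑ i ∈ s, G i) := by
  classical
  induction s using Finset.induction_on with
  | empty => simpa using PH.zero
  | insert a s ha ih =>
    rw [Finset.sum_insert ha]
    exact (hG a (by simp)).add (ih (fun i hi => hG i (by simp [hi])))

theorem PH.mul {d e : ℕ} {G H : Polynomial (MvPolynomial (Fin (n + 1)) k)} (hG : PH d G)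
    (hH : PH e H) : PH (d + e) (G * H) := by
  intro j
  refine ⟨fun hj => ?_, fun hj => ?_⟩
  · rw [Polynomial.coeff_mul]
    apply MvPolynomial.IsHomogeneous.sum
    rintro ⟨a, b⟩ hab
    rw [Finset.HasAntidiagonal.mem_antidiagonal] at hab
    simp only at hab ⊢
    by_cases ha : a ≤ d
    · by_cases hb : b ≤ e
      · have := ((hG a).1 ha).mul ((hH b).1 hb)
        have h2 : d - a + (e - b) = d + e - j := by omega
        rwa [h2] at this
      · rw [(hH b).2 (by omega), mul_zero]; exact isHomogeneous_zero _ _ _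
    · rw [(hG a).2 (by omega), zero_mul]; exact isHomogeneous_zero _ _ _
  · rw [Polynomial.coeff_mul]
    apply Finset.sum_eq_zero
    rintro ⟨a, b⟩ hab
    rw [Finset.HasAntidiagonal.mem_antidiagonal] at hab
    simp only at hab ⊢
    by_cases ha : a ≤ d
    · rw [(hH b).2 (by omega), mul_zero]
    · rw [(hG a).2 (by omega), zero_mul]

theorem PH.C {a : k} : PH 0 (Polynomial.C (MvPolynomial.C a) : Polynomial (MvPolynomial (Fin (n + 1)) k)) := by
  intro j
  refine ⟨fun hj => ?_, fun hj => ?_⟩
  · obtain rfl : j = 0 := by omega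
    simpa using isHomogeneous_C _ _
  · rw [Polynomial.coeff_C, if_neg (by omega)]

theorem PH.one : PH 0 (1 : Polynomial (MvPolynomial (Fin (n + 1)) k)) := by
  have := PH.C (k := k) (n := n) (a := 1)
  simpa using this

theorem PH.pow {d : ℕ} {G : Polynomial (MvPolynomial (Fin (n + 1)) k)} (hG : PH d G) (m : ℕ) :
    PH (m * d) (G ^ m) := by
  induction m with
  | zero => simpa using PH.one
  | succ m ih =>
    rw [pow_succ, Nat.succ_mul]
    exact ih.mul hG

theorem PH.prod {ι : Type*} (s : Finset ι) (d : ι → ℕ)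
    (G : ι → Polynomial (MvPolynomial (Fin (n + 1)) k)) (hG : ∀ i ∈ s, PH (d i) (G i)) :
    PH (∑ i ∈ s, d i) (∏ i ∈ s, G i) := by
  classical
  induction s using Finset.induction_on with
  | empty => simpa using PH.one
  | insert a s ha ih =>
    rw [Finset.prod_insert ha, Finset.sum_insert ha]
    exact (hG a (by simp)).mul (ih (fun i hi => hG i (by simp [hi])))

theorem PH_T_X (w : Fin (n + 1) → k) (j : Fin (n + 1)) : PH 1 (T w (X j)) := by
  intro i
  rw [T_X]
  refine ⟨fun hi => ?_, fun hi => ?_⟩
  · have : i = 0 ∨ i = 1 := by omega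
    rcases this with rfl | rfl
    · simpa using isHomogeneous_X _ _
    · simpa [Polynomial.coeff_C] using isHomogeneous_C _ _
  · rw [Polynomial.coeff_add, Polynomial.coeff_C, if_neg (by omega), Polynomial.coeff_C_mul,
      Polynomial.coeff_X, if_neg (by omega)]
    simp

theorem PH_T {d : ℕ} {F : MvPolynomial (Fin (n + 1)) k} (hF : F.IsHomogeneous d)
    (w : Fin (n + 1) → k) : PH d (T w F) := by
  classical
  rw [F.as_sum, map_sum]
  apply PH.sum
  intro γ hγ
  have hdeg : γ.degree = d := by
    by_contra hne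
    exact (MvPolynomial.mem_support_iff.1 hγ) (hF.coeff_eq_zero hne)
  rw [MvPolynomial.monomial_eq, map_mul, T_C, Finsupp.prod, map_prod]
  have h1 : PH (∑ i ∈ γ.support, γ i * 1) (∏ i ∈ γ.support, T w (X i ^ γ i)) := by
    apply PH.prod
    intro i _
    rw [map_pow]
    exact (PH_T_X w i).pow (γ i)
  have h2 : ∑ i ∈ γ.support, γ i * 1 = d := by
    simp only [mul_one]
    rw [← hdeg]
    rfl
  rw [h2] at h1
  simpa using (PH.C (n := n) (a := F.coeff γ)).mul h1

end TT

end Pool.Agent.Lib.P5c592f
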