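import Mathlib
import Pool.Agent.Lib.P5c592f.Basic

set_option autoImplicit false

namespace Pool.Agent.Lib.P5c592f

open MvPolynomial

variable {k : Type*} [Field k] {σ : Type*}

theorem support_dvd_of_pderiv {F : MvPolynomial σ k} (h : ∀ l, pderiv l F = 0) (γ : σ →₀ ℕ)
    (hγ : F.coeff γ ≠ 0) (l : σ) : ((γ l : ℕ) : k) = 0 := by
  classical
  by_cases h0 : γ l = 0
  · simp [h0]
  have h1 := congrArg (coeff (γ - Finsupp.single l 1)) (h l)
  rw [coeff_pderiv, coeff_zero] at h1
  have h2 : γ - Finsupp.single l 1 + Finsupp.single l 1 = γ := by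
    ext j
    simp only [Finsupp.coe_add, Finsupp.coe_tsub, Pi.add_apply, Pi.sub_apply]
    by_cases hj : j = l
    · subst hj; simp; omega
    · simp [Ne.symm hj]
  rw [h2] at h1
  have h3 := (mul_eq_zero.1 h1).resolve_left hγ
  have h4 : (((γ - Finsupp.single l 1 : σ →₀ ℕ) l : ℕ) : k) + 1 = ((γ l : ℕ) : k) := by
    have : (γ - Finsupp.single l 1 : σ →₀ ℕ) l + 1 = γ l := by
      simp; omega
    rw [← this]; push_cast; ring
  rw [← h4]; exact h3

theorem exists_pow_of_pderiv [IsAlgClosed k] {F : MvPolynomial σ k} {d : ℕ}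
    (hF : F.IsHomogeneous d) (hd : d ≠ 0) (h0 : F ≠ 0) (h : ∀ l, pderiv l F = 0) :
    ∃ p : ℕ, ∃ g : MvPolynomial σ k, 2 ≤ p ∧ F = g ^ p := by
  classical
  obtain ⟨p, hp⟩ := CharP.exists k
  rcases CharP.char_is_prime_or_zero k p with hprime | rfl
  · have := Fact.mk hprime
    have hdvd : ∀ γ ∈ F.support, ∀ l, p ∣ γ l := by
      intro γ hγ l
      rw [← CharP.cast_eq_zero_iff k p]
      exact support_dvd_of_pderiv h γ (MvPolynomial.mem_support_iff.1 hγ) l
    have hroot : ∀ c : k, ∃ b, b ^ p = c := fun c => IsAlgClosed.exists_pow_nat_eq c hprime.pos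
    choose r hr using hroot
    refine ⟨p, ∑ γ ∈ F.support, monomial (γ.mapRange (fun a => a / p) (by simp)) (r (F.coeff γ)),
      hprime.two_le, ?_⟩
    rw [sum_pow_char p]
    conv_lhs => rw [F.as_sum]
    apply Finset.sum_congr rfl
    intro γ hγ
    rw [monomial_pow, hr]
    have h5 : γ = p • (γ.mapRange (fun a => a / p) (by simp)) := by
      ext l
      simp only [Finsupp.coe_smul, Pi.smul_apply, Finsupp.mapRange_apply, smul_eq_mul]
      exact (Nat.mul_div_cancel' (hdvd γ hγ l)).symm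
    rw [← h5]
  · exfalso
    have : CharZero k := CharP.charP_to_charZero k
    obtain ⟨γ, hγ⟩ := MvPolynomial.ne_zero_iff.1 h0
    have h1 : γ = 0 := by
      ext l
      have := support_dvd_of_pderiv h γ hγ l
      simpa using this
    subst h1
    have h2 : (0 : σ →₀ ℕ).degree = d := by
      by_contra hne
      exact hγ (hF.coeff_eq_zero hne)
    simp at h2
    exact hd h2.symm

end Pool.Agent.Lib.P5c592f
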