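import Mathlib
import Pool.Agent.Lib.P5c592f.Basic

set_option autoImplicit false

namespace Pool.Agent.Lib.P5c592f

open MvPolynomial

variable {k : Type*} [Field k] {n : ℕ}

/-- some index with nonzero coordinate -/
noncomputable def chart (v : Fin (n + 1) → k) : Fin (n + 1) := by
  classical exact if h : ∃ i, v i ≠ 0 then h.choose else 0

theorem chart_spec {v : Fin (n + 1) → k} (hv : v ≠ 0) : v (chart v) ≠ 0 := by
  classical
  have h : ∃ i, v i ≠ 0 := Function.ne_iff.1 hv
  unfold chart
  rw [dif_pos h]
  exact h.choose_spec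

/-- set the `i`-th variable to zero -/
noncomputable def rho (k : Type*) [Field k] {n : ℕ} (i : Fin (n + 1)) :
    MvPolynomial (Fin (n + 1)) k →ₐ[k] MvPolynomial (Fin n) k :=
  aeval (Fin.insertNth (α := fun _ => MvPolynomial (Fin n) k) i 0 (fun j => X j))

@[simp] theorem rho_X_same (i : Fin (n + 1)) : rho k i (X i) = 0 := by
  simp [rho]

@[simp] theorem rho_X_succAbove (i : Fin (n + 1)) (j : Fin n) :
    rho k i (X (i.succAbove j)) = X j := by
  simp [rho]

/-- local expansion at `v`: `F ↦ F(v + y)`. -/
noncomputable def phi (v : Fin (n + 1) → k) :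
    MvPolynomial (Fin (n + 1)) k →ₐ[k] MvPolynomial (Fin n) k :=
  aeval (fun l => C (v l) + rho k (chart v) (X l))

@[simp] theorem phi_X (v : Fin (n + 1) → k) (l : Fin (n + 1)) :
    phi v (X l) = C (v l) + rho k (chart v) (X l) := by simp [phi]

/-- dual coordinates at `v`. -/
noncomputable def iota (v : Fin (n + 1) → k) :
    MvPolynomial (Fin n) k →ₐ[k] MvPolynomial (Fin (n + 1)) k :=
  aeval (fun j => X ((chart v).succAbove j)
    - C (v ((chart v).succAbove j) / v (chart v)) * X (chart v))

@[simp] theorem iota_X (v : Fin (n + 1) → k) (j : Fin n) :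
    iota v (X j) = X ((chart v).succAbove j)
    - C (v ((chart v).succAbove j) / v (chart v)) * X (chart v) := by simp [iota]

theorem phi_eq (v : Fin (n + 1) → k) (F : MvPolynomial (Fin (n + 1)) k) :
    phi v F = Polynomial.eval₂ (rho k (chart v) : MvPolynomial (Fin (n + 1)) k →+* _) 1 (T v F) := by
  have h : (phi v : MvPolynomial (Fin (n + 1)) k →+* MvPolynomial (Fin n) k) =
      (Polynomial.eval₂RingHom (rho k (chart v) : MvPolynomial (Fin (n + 1)) k →+* _) 1).comp
        (T v : MvPolynomial (Fin (n + 1)) k →+* _) := by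
    apply MvPolynomial.ringHom_ext
    · intro a
      simp
    · intro l
      simp [add_comm]
  exact congrArg (fun f => f F) h

theorem eq_eval₂_T {v : Fin (n + 1) → k} (hv : v ≠ 0) (F : MvPolynomial (Fin (n + 1)) k) :
    F = Polynomial.eval₂ ((iota v : MvPolynomial (Fin n) k →+* _).comp
      (rho k (chart v) : MvPolynomial (Fin (n + 1)) k →+* _)) (C (1 / v (chart v)) * X (chart v))
      (T v F) := by
  have hc := chart_spec hv
  have h : RingHom.id (MvPolynomial (Fin (n + 1)) k) =
      (Polynomial.eval₂RingHom ((iota v : MvPolynomial (Fin n) k →+* _).comp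
      (rho k (chart v) : MvPolynomial (Fin (n + 1)) k →+* _))
        (C (1 / v (chart v)) * X (chart v))).comp
        (T v : MvPolynomial (Fin (n + 1)) k →+* _) := by
    apply MvPolynomial.ringHom_ext
    · intro a
      simp
    · intro l
      refine Fin.succAboveCases (chart v) ?_ (fun j => ?_) l
      · simp only [RingHom.id_apply, RingHom.comp_apply, RingHom.coe_coe, T_X,
          Polynomial.coe_eval₂RingHom, Polynomial.eval₂_add, Polynomial.eval₂_C,
          Polynomial.eval₂_mul, Polynomial.eval₂_X, rho_X_same, map_zero, zero_add]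
        simp only [MvPolynomial.algHom_C, algebraMap_eq]
        rw [← mul_assoc, ← map_mul, mul_one_div_cancel hc, map_one, one_mul]
      · simp only [RingHom.id_apply, RingHom.comp_apply, RingHom.coe_coe, T_X,
          Polynomial.coe_eval₂RingHom, Polynomial.eval₂_add, Polynomial.eval₂_C,
          Polynomial.eval₂_mul, Polynomial.eval₂_X, rho_X_succAbove, iota_X]
        simp only [MvPolynomial.algHom_C, algebraMap_eq]
        rw [← mul_assoc, ← map_mul, mul_one_div]
        ring
  exact congrArg (fun f => f F) h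

theorem rho_isHomogeneous {i : Fin (n + 1)} {F : MvPolynomial (Fin (n + 1)) k} {d : ℕ}
    (hF : F.IsHomogeneous d) : (rho k i F).IsHomogeneous d := by
  have := hF.aeval (Fin.insertNth (α := fun _ => MvPolynomial (Fin n) k) i 0 (fun j => X j))
    (n := 1) (fun l => by
      refine Fin.succAboveCases i ?_ (fun j => ?_) l
      · simpa using isHomogeneous_zero _ _ _
      · simpa using isHomogeneous_X _ _)
  simpa [rho] using this

theorem T_natDegree_le {d : ℕ} {F : MvPolynomial (Fin (n + 1)) k} (hF : F.IsHomogeneous d)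
    (w : Fin (n + 1) → k) : (T w F).natDegree ≤ d := by
  rw [Polynomial.natDegree_le_iff_coeff_eq_zero]
  intro j hj
  exact (PH_T hF w j).2 hj

theorem phi_eq_sum {d : ℕ} {F : MvPolynomial (Fin (n + 1)) k} (hF : F.IsHomogeneous d)
    (v : Fin (n + 1) → k) :
    phi v F = ∑ j ∈ Finset.range (d + 1), rho k (chart v) ((T v F).coeff j) := by
  rw [phi_eq, Polynomial.eval₂_eq_sum_range' _ (Nat.lt_succ_of_le (T_natDegree_le hF v))]
  simp

theorem coeff_phi {d : ℕ} {F : MvPolynomial (Fin (n + 1)) k} (hF : F.IsHomogeneous d)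
    (v : Fin (n + 1) → k) (γ : Fin n →₀ ℕ) (hγ : γ.degree ≤ d) :
    (phi v F).coeff γ = (rho k (chart v) ((T v F).coeff (d - γ.degree))).coeff γ := by
  rw [phi_eq_sum hF, MvPolynomial.coeff_sum]
  apply Finset.sum_eq_single_of_mem
  · simp
  · intro j hj hne
    rw [Finset.mem_range] at hj
    have h1 := rho_isHomogeneous (i := chart v) ((PH_T hF v j).1 (by omega))
    apply h1.coeff_eq_zero
    omega

theorem coeff_phi_of_gt {d : ℕ} {F : MvPolynomial (Fin (n + 1)) k} (hF : F.IsHomogeneous d)
    (v : Fin (n + 1) → k) (γ : Fin n →₀ ℕ) (hγ : d < γ.degree) :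
    (phi v F).coeff γ = 0 := by
  rw [phi_eq_sum hF, MvPolynomial.coeff_sum]
  apply Finset.sum_eq_zero
  intro j hj
  rw [Finset.mem_range] at hj
  have h1 := rho_isHomogeneous (i := chart v) ((PH_T hF v j).1 (by omega))
  apply h1.coeff_eq_zero
  omega

/-- the ideal of the point `v` -/
noncomputable def Iv (v : Fin (n + 1) → k) : Ideal (MvPolynomial (Fin (n + 1)) k) :=
  Ideal.span {G | G.IsHomogeneous 1 ∧ MvPolynomial.eval v G = 0}

theorem iota_X_mem {v : Fin (n + 1) → k} (hv : v ≠ 0) (j : Fin n) : iota v (X j) ∈ Iv v := by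
  apply Ideal.subset_span
  have hc := chart_spec hv
  constructor
  · rw [iota_X]
    exact (isHomogeneous_X _ _).sub (isHomogeneous_C_mul_X _ _)
  · rw [iota_X]
    simp only [map_sub, map_mul, eval_X, eval_C]
    field_simp
    ring

theorem iota_mem_pow {v : Fin (n + 1) → k} (hv : v ≠ 0) (e : ℕ) (u : MvPolynomial (Fin n) k)
    (hu : u ∈ idealOfVars (Fin n) k ^ e) : iota v u ∈ Iv v ^ e := by
  have h1 : (idealOfVars (Fin n) k).map (iota v : MvPolynomial (Fin n) k →+* MvPolynomial (Fin (n + 1)) k) ≤ Iv v := by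
    rw [idealOfVars, Ideal.map_span, Ideal.span_le]
    rintro _ ⟨_, ⟨j, rfl⟩, rfl⟩
    exact iota_X_mem hv j
  have h2 := Ideal.mem_map_of_mem (iota v : MvPolynomial (Fin n) k →+* MvPolynomial (Fin (n + 1)) k) hu
  rw [Ideal.map_pow] at h2
  exact Ideal.pow_right_mono h1 e h2

theorem IsHomogeneous.mem_idealOfVars_pow {σ : Type*} {d : ℕ} {u : MvPolynomial σ k}
    (hu : u.IsHomogeneous d) : u ∈ idealOfVars σ k ^ d := by
  rw [mem_pow_idealOfVars_iff']
  intro x hx
  exact hu.coeff_eq_zero (by omega)

/-- key equivalence -/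
theorem mem_Iv_pow_iff {v : Fin (n + 1) → k} (hv : v ≠ 0) {d m : ℕ}
    {F : MvPolynomial (Fin (n + 1)) k} (hF : F.IsHomogeneous d) :
    F ∈ Iv v ^ m ↔ (m : ℕ∞) ≤ lord (phi v F) := by
  constructor
  · intro h
    rw [le_lord_iff_mem]
    have h1 : (Iv v).map (phi v : MvPolynomial (Fin (n + 1)) k →+* MvPolynomial (Fin n) k) ≤ idealOfVars (Fin n) k := by
      rw [Iv, Ideal.map_span, Ideal.span_le]
      rintro _ ⟨G, ⟨hG1, hG0⟩, rfl⟩
      have : (phi v) G ∈ idealOfVars (Fin n) k ^ 1 := by
        rw [mem_pow_idealOfVars_iff']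
        intro x hx
        have hx0 : x = 0 := by
          have : x.degree = 0 := by omega
          exact (Finsupp.degree_eq_zero_iff x).1 this
        subst hx0
        have h3 : ((MvPolynomial.constantCoeff (R := k) (σ := Fin n)).comp
            (phi v : MvPolynomial (Fin (n + 1)) k →+* _)) = MvPolynomial.eval v := by
          apply MvPolynomial.ringHom_ext
          · intro a; simp
          · intro l
            refine Fin.succAboveCases (chart v) ?_ (fun j => ?_) l
            · simp
            · simp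
        have h4 := congrArg (fun f => f G) h3
        simp only [RingHom.comp_apply, RingHom.coe_coe] at h4
        rw [hG0] at h4
        rw [← h4]
        rfl
      simpa using this
    have h2 := Ideal.mem_map_of_mem (phi v : MvPolynomial (Fin (n + 1)) k →+* MvPolynomial (Fin n) k) h
    rw [Ideal.map_pow] at h2
    exact Ideal.pow_right_mono h1 m h2
  · intro h
    rw [le_lord_iff] at h
    rw [eq_eval₂_T hv F, Polynomial.eval₂_eq_sum_range' _ (Nat.lt_succ_of_le (T_natDegree_le hF v))]
    apply Ideal.sum_mem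
    intro j hj
    rw [Finset.mem_range] at hj
    apply Ideal.mul_mem_right
    simp only [RingHom.comp_apply, RingHom.coe_coe]
    have h1 := rho_isHomogeneous (i := chart v) ((PH_T hF v j).1 (by omega))
    by_cases hm : m ≤ d - j
    · exact Ideal.pow_le_pow_right hm (iota_mem_pow hv _ _ (IsHomogeneous.mem_idealOfVars_pow h1))
    · have h0 : rho k (chart v) ((T v F).coeff j) = 0 := by
        ext γ
        by_cases hγ : γ.degree = d - j
        · have := coeff_phi hF v γ (by omega)
          rw [h γ (by omega)] at this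
          have h5 : d - γ.degree = j := by omega
          rw [h5] at this
          rw [← this]; simp
        · rw [h1.coeff_eq_zero hγ]; simp
      rw [h0, map_zero]
      exact Ideal.zero_mem _

theorem constantCoeff_phi (v : Fin (n + 1) → k) (F : MvPolynomial (Fin (n + 1)) k) :
    MvPolynomial.constantCoeff (phi v F) = MvPolynomial.eval v F := by
  have h3 : ((MvPolynomial.constantCoeff (R := k) (σ := Fin n)).comp
      (phi v : MvPolynomial (Fin (n + 1)) k →+* _)) = MvPolynomial.eval v := by
    apply MvPolynomial.ringHom_ext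
    · intro a; simp
    · intro l
      refine Fin.succAboveCases (chart v) ?_ (fun j => ?_) l
      · simp
      · simp
  exact congrArg (fun f => f F) h3

theorem one_le_lord_phi_iff (v : Fin (n + 1) → k) (F : MvPolynomial (Fin (n + 1)) k) :
    (1 : ℕ∞) ≤ lord (phi v F) ↔ MvPolynomial.eval v F = 0 := by
  have : (1 : ℕ∞) = ((1 : ℕ) : ℕ∞) := rfl
  rw [this, le_lord_iff, ← constantCoeff_phi]
  constructor
  · intro h
    exact h 0 (by simp)
  · intro h x hx
    have hx0 : x = 0 := by
      have : x.degree = 0 := by omega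
      exact (Finsupp.degree_eq_zero_iff x).1 this
    subst hx0
    exact h

theorem phi_injOn {v : Fin (n + 1) → k} (hv : v ≠ 0) {d : ℕ}
    {F : MvPolynomial (Fin (n + 1)) k} (hF : F.IsHomogeneous d) (h : phi v F = 0) : F = 0 := by
  have h2 := (mem_Iv_pow_iff hv hF (m := d + 1)).2 (by rw [h, lord_zero]; exact le_top)
  rw [eq_eval₂_T hv F, Polynomial.eval₂_eq_sum_range' _ (Nat.lt_succ_of_le (T_natDegree_le hF v))]
  apply Finset.sum_eq_zero
  intro j hj
  rw [Finset.mem_range] at hj
  have h1 := rho_isHomogeneous (i := chart v) ((PH_T hF v j).1 (by omega))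
  have h0 : rho k (chart v) ((T v F).coeff j) = 0 := by
    ext γ
    by_cases hγ : γ.degree = d - j
    · have := coeff_phi hF v γ (by omega)
      rw [h] at this
      have h5 : d - γ.degree = j := by omega
      rw [h5] at this
      rw [← this]
    · rw [h1.coeff_eq_zero hγ]; simp
  simp [h0]

theorem lord_phi_le {v : Fin (n + 1) → k} (hv : v ≠ 0) {d : ℕ}
    {F : MvPolynomial (Fin (n + 1)) k} (hF : F.IsHomogeneous d) (h0 : F ≠ 0) :
    lord (phi v F) ≤ d := by
  have h1 : phi v F ≠ 0 := fun h => h0 (phi_injOn hv hF h)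
  obtain ⟨γ, hγ⟩ := MvPolynomial.ne_zero_iff.1 h1
  have h2 : γ.degree ≤ d := by
    by_contra hlt
    exact hγ (coeff_phi_of_gt hF v γ (by omega))
  exact (lord_le_of_coeff_ne _ γ hγ).trans (by exact_mod_cast h2)

end Pool.Agent.Lib.P5c592f
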