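import Mathlib
import Pool.Agent.Lib.P5c592f.Basic

set_option autoImplicit false

namespace Pool.Agent.Lib.P5c592f

open MvPolynomial

section Factor

variable {k : Type*} [Field k] {σ : Type*}

theorem lord_one : lord (1 : MvPolynomial σ k) = 0 := by
  have := lord_pow (1 : MvPolynomial σ k) 0
  simpa using this

theorem le_lord_of_hom {F : MvPolynomial σ k} {d : ℕ} (hF : F.IsHomogeneous d) :
    (d : ℕ∞) ≤ lord F := by
  rw [le_lord_iff]
  intro x hx
  exact hF.coeff_eq_zero (by omega)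

theorem lord_le_totalDegree {F : MvPolynomial σ k} (hF : F ≠ 0) : lord F ≤ F.totalDegree := by
  obtain ⟨γ, hγ⟩ := MvPolynomial.ne_zero_iff.1 hF
  refine (lord_le_of_coeff_ne F γ hγ).trans ?_
  have := MvPolynomial.le_totalDegree (MvPolynomial.mem_support_iff.2 hγ)
  exact_mod_cast this

theorem hom_of_lord {F : MvPolynomial σ k} {d : ℕ} (h1 : (d : ℕ∞) ≤ lord F)
    (h2 : F.totalDegree ≤ d) : F.IsHomogeneous d := by
  rw [le_lord_iff] at h1
  intro γ hγ
  have h3 : ¬ γ.degree < d := fun h => hγ (h1 γ h)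
  have h4 := MvPolynomial.le_totalDegree (MvPolynomial.mem_support_iff.2 hγ)
  have h5 : γ.degree ≤ d := h4.trans h2
  have h6 : γ.degree = d := by omega
  rw [← h6, Finsupp.degree_eq_weight_one]
  rfl

theorem hom_of_mul_left {F G : MvPolynomial σ k} {d : ℕ} (h : (F * G).IsHomogeneous d)
    (h0 : F * G ≠ 0) : F.IsHomogeneous F.totalDegree := by
  have hF : F ≠ 0 := left_ne_zero_of_mul h0
  have hG : G ≠ 0 := right_ne_zero_of_mul h0
  apply hom_of_lord _ le_rfl
  have h1 := le_lord_of_hom h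
  rw [lord_mul] at h1
  have h2 := h.totalDegree h0
  rw [totalDegree_mul_of_isDomain hF hG] at h2
  have h3 := lord_le_totalDegree hG
  rw [← h2] at h1
  by_contra hlt
  rw [not_le] at hlt
  obtain ⟨a, ha⟩ := ENat.ne_top_iff_exists.1 (ne_top_of_lt hlt)
  have h4 : lord G ≠ ⊤ := ne_top_of_le_ne_top (ENat.natCast_ne_top _) h3
  obtain ⟨b, hb⟩ := ENat.ne_top_iff_exists.1 h4
  rw [← ha] at hlt h1
  rw [← hb] at h1 h3
  norm_cast at *
  omega

theorem hom_of_mul_right {F G : MvPolynomial σ k} {d : ℕ} (h : (F * G).IsHomogeneous d)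
    (h0 : F * G ≠ 0) : G.IsHomogeneous G.totalDegree := by
  rw [mul_comm] at h h0
  exact hom_of_mul_left h h0

theorem hom_of_dvd {F G : MvPolynomial σ k} {d : ℕ} (h : G.IsHomogeneous d)
    (h0 : G ≠ 0) (hd : F ∣ G) : F.IsHomogeneous F.totalDegree := by
  obtain ⟨H, rfl⟩ := hd
  exact hom_of_mul_left h h0

/-- cofactor of a homogeneous form -/
theorem hom_cofactor {A G : MvPolynomial σ k} {a K : ℕ} (hA : A.IsHomogeneous a) (hA0 : A ≠ 0)
    (h : (A * G).IsHomogeneous K) : G.IsHomogeneous (K - a) := by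
  by_cases hG : G = 0
  · subst hG; exact isHomogeneous_zero _ _ _
  have h0 : A * G ≠ 0 := mul_ne_zero hA0 hG
  have h1 := hom_of_mul_right h h0
  have h2 := h.totalDegree h0
  rw [totalDegree_mul_of_isDomain hA0 hG, hA.totalDegree hA0] at h2
  have h3 : G.totalDegree = K - a := by omega
  rwa [h3] at h1

end Factor

end Pool.Agent.Lib.P5c592f
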