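import Mathlib
import Pool.Agent.Lib.P5c592f.Loc
import Pool.Agent.Lib.P5c592f.Factor

set_option autoImplicit false

namespace Pool.Agent.Lib.P5c592f

open MvPolynomial

variable {k : Type*} [Field k] {n : ℕ}

theorem T_coeff_zero (w : Fin (n + 1) → k) (F : MvPolynomial (Fin (n + 1)) k) :
    (T w F).coeff 0 = F := by
  have h : ((Polynomial.evalRingHom (0 : MvPolynomial (Fin (n + 1)) k)).comp
      (T w : MvPolynomial (Fin (n + 1)) k →+* _)) = RingHom.id _ := by
    apply MvPolynomial.ringHom_ext
    · intro a; simp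
    · intro j; simp
  rw [Polynomial.coeff_zero_eq_eval_zero]
  exact congrArg (fun f => f F) h

theorem T_coeff_mem (w : Fin (n + 1) → k) (J : Ideal (MvPolynomial (Fin (n + 1)) k)) (m : ℕ) :
    ∀ F ∈ J ^ m, ∀ e, (T w F).coeff e ∈ J ^ (m - e) := by
  induction m with
  | zero =>
    intro F _ e
    simp
  | succ m ih =>
    intro F hF
    rw [pow_succ] at hF
    induction hF using Submodule.mul_induction_on' with
    | mem_mul_mem G hG H hH =>
      intro e
      rw [map_mul, Polynomial.coeff_mul]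
      apply Ideal.sum_mem
      rintro ⟨a, b⟩ hab
      rw [Finset.HasAntidiagonal.mem_antidiagonal] at hab
      simp only at hab ⊢
      have h1 := ih G hG a
      rcases Nat.eq_zero_or_pos b with rfl | hb
      · have h2 : (T w H).coeff 0 ∈ J := by rw [T_coeff_zero]; exact hH
        have h3 := Ideal.mul_mem_mul h1 h2
        rw [← pow_succ] at h3
        exact Ideal.pow_le_pow_right (by omega) h3
      · apply Ideal.mul_mem_right
        exact Ideal.pow_le_pow_right (by omega) h1
    | add x _ y _ hx hy =>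
      intro e
      rw [map_add, Polynomial.coeff_add]
      exact add_mem (hx e) (hy e)

theorem T_coeff_hom {d : ℕ} {F : MvPolynomial (Fin (n + 1)) k} (hF : F.IsHomogeneous d)
    (w : Fin (n + 1) → k) (e : ℕ) : ((T w F).coeff e).IsHomogeneous (d - e) := by
  by_cases h : e ≤ d
  · exact (PH_T hF w e).1 h
  · rw [(PH_T hF w e).2 (by omega)]
    exact isHomogeneous_zero _ _ _

theorem lord_T_coeff {v : Fin (n + 1) → k} (hv : v ≠ 0) {d m : ℕ}
    {F : MvPolynomial (Fin (n + 1)) k} (hF : F.IsHomogeneous d) (h : (m : ℕ∞) ≤ lord (phi v F))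
    (w : Fin (n + 1) → k) (e : ℕ) : ((m - e : ℕ) : ℕ∞) ≤ lord (phi v ((T w F).coeff e)) := by
  rw [← mem_Iv_pow_iff hv (T_coeff_hom hF w e)]
  apply T_coeff_mem w (Iv v) m
  rwa [mem_Iv_pow_iff hv hF]

theorem T_coeff_one_mul (w : Fin (n + 1) → k) (F G : MvPolynomial (Fin (n + 1)) k) :
    (T w (F * G)).coeff 1 = (T w F).coeff 1 * G + F * (T w G).coeff 1 := by
  rw [map_mul, Polynomial.coeff_mul, Finset.Nat.antidiagonal_succ]
  simp [T_coeff_zero]
  ring

theorem T_coeff_one (w : Fin (n + 1) → k) (F : MvPolynomial (Fin (n + 1)) k) :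
    (T w F).coeff 1 = ∑ l, C (w l) * pderiv l F := by
  induction F using MvPolynomial.induction_on with
  | C a =>
    rw [T_C, Polynomial.coeff_C, if_neg one_ne_zero]
    simp
  | add p q hp hq =>
    rw [map_add, Polynomial.coeff_add, hp, hq, ← Finset.sum_add_distrib]
    apply Finset.sum_congr rfl
    intro l _
    rw [map_add]; ring
  | mul_X p j hp =>
    rw [T_coeff_one_mul, hp, T_X]
    simp only [Polynomial.coeff_add, Polynomial.coeff_C_succ, zero_add, Polynomial.coeff_C_mul,
      Polynomial.coeff_X_one, mul_one]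
    have h1 : ∀ l, C (w l) * pderiv l (p * X j) = C (w l) * pderiv l p * X j + p * (C (w l) * pderiv l (X j)) := by
      intro l
      rw [Derivation.leibniz]
      simp only [smul_eq_mul]
      ring
    rw [Finset.sum_congr rfl (fun l _ => h1 l), Finset.sum_add_distrib, ← Finset.sum_mul,
      ← Finset.mul_sum]
    congr 2
    rw [Finset.sum_eq_single j]
    · simp
    · intro b _ hb
      rw [pderiv_X_of_ne hb.symm, mul_zero]
    · simp

/-- the `e`-th coefficient of `T w (C^e R)` modulo `C` -/
theorem T_coeff_mod (w : Fin (n + 1) → k) (C R : MvPolynomial (Fin (n + 1)) k) (e : ℕ) :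
    C ∣ (T w (C ^ e * R)).coeff e - ((T w C).coeff 1) ^ e * R := by
  -- write T w C = C + s U
  obtain ⟨U, hU⟩ : ∃ U : Polynomial (MvPolynomial (Fin (n + 1)) k),
      T w C = Polynomial.C C + Polynomial.X * U := by
    have h1 : Polynomial.X ∣ T w C - Polynomial.C C := by
      rw [Polynomial.X_dvd_iff]
      simp [T_coeff_zero]
    obtain ⟨U, hU⟩ := h1
    exact ⟨U, by rw [← hU]; ring⟩
  have hU0 : U.coeff 0 = (T w C).coeff 1 := by
    rw [hU]
    simp [Polynomial.coeff_X_mul]
  have h2 : Polynomial.C C ∣ (T w (C ^ e * R)) - (Polynomial.X * U) ^ e * T w R := by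
    rw [map_mul, map_pow, ← sub_mul]
    apply Dvd.dvd.mul_right
    have h3 : Polynomial.C C = T w C - Polynomial.X * U := by rw [hU]; ring
    rw [h3]
    exact sub_dvd_pow_sub_pow _ _ _
  rw [Polynomial.C_dvd_iff_dvd_coeff] at h2
  have h4 := h2 e
  rw [Polynomial.coeff_sub] at h4
  have h5 : ((Polynomial.X * U) ^ e * T w R).coeff e = ((T w C).coeff 1) ^ e * R := by
    rw [mul_pow, mul_assoc]
    have := Polynomial.coeff_X_pow_mul (U ^ e * T w R) e 0
    rw [zero_add] at this
    rw [this, Polynomial.mul_coeff_zero, T_coeff_zero, ← hU0]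
    congr 1
    rw [Polynomial.coeff_zero_eq_eval_zero, Polynomial.coeff_zero_eq_eval_zero, Polynomial.eval_pow]
  rwa [h5] at h4

end Pool.Agent.Lib.P5c592f
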