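import Mathlib
import Pool.Agent.Lib.P5c592f.Basic

set_option autoImplicit false

namespace Pool.Agent.Lib.P5c592f

open MvPolynomial

variable (k : Type*) [Field k]

/-- exponent vectors of degree `K` -/
noncomputable def degEq (n K : ℕ) : Finset (Fin n →₀ ℕ) :=
  (Finset.univ : Finset (Fin n)).finsuppAntidiag K

theorem mem_degEq {n K : ℕ} {γ : Fin n →₀ ℕ} : γ ∈ degEq n K ↔ γ.degree = K := by
  unfold degEq
  rw [Finset.mem_finsuppAntidiag]
  simp [Finsupp.degree_eq_sum]

theorem card_degEq (n K : ℕ) : (degEq (n + 1) K).card = (K + n).choose n := by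
  unfold degEq
  rw [Finset.card_finsuppAntidiag_nat_eq_choose]
  simp only [Finset.card_univ, Fintype.card_fin]
  have : n + 1 + K - 1 = K + n := by omega
  rw [this, Nat.choose_symm_add]

/-- exponent vectors of degree `< M` -/
noncomputable def degLt (n M : ℕ) : Finset (Fin n →₀ ℕ) :=
  (Finset.range M).biUnion (fun K => degEq n K)

theorem mem_degLt {n M : ℕ} {γ : Fin n →₀ ℕ} : γ ∈ degLt n M ↔ γ.degree < M := by
  simp [degLt, mem_degEq]

theorem card_degLt (n M : ℕ) : (degLt (n + 1) M).card = (M + n).choose (n + 1) := by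
  induction M with
  | zero => simp [degLt]
  | succ M ih =>
    have h : degLt (n + 1) (M + 1) = degLt (n + 1) M ∪ degEq (n + 1) M := by
      ext γ
      simp [mem_degLt, mem_degEq]
      omega
    have hd : Disjoint (degLt (n + 1) M) (degEq (n + 1) M) := by
      rw [Finset.disjoint_left]
      intro γ h1 h2
      rw [mem_degLt] at h1
      rw [mem_degEq] at h2
      omega
    rw [h, Finset.card_union_of_disjoint hd, ih, card_degEq]
    have : M + 1 + n = (M + n) + 1 := by omega
    rw [this, Nat.choose_succ_succ' (M + n) n]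
    ring

theorem homogeneousSubmodule_eq_restrict (n K : ℕ) :
    homogeneousSubmodule (Fin n) k K = restrictSupport k (degEq n K : Set (Fin n →₀ ℕ)) := by
  ext F
  rw [mem_homogeneousSubmodule, mem_restrictSupport_iff]
  constructor
  · intro h γ hγ
    rw [Finset.mem_coe, mem_degEq]
    by_contra hne
    exact (MvPolynomial.mem_support_iff.1 hγ) (h.coeff_eq_zero hne)
  · intro h γ hγ
    have h1 := h (MvPolynomial.mem_support_iff.2 hγ)
    rw [Finset.mem_coe, mem_degEq] at h1
    rw [← h1, Finsupp.degree_eq_weight_one]
    rfl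

theorem finrank_homogeneousSubmodule (n K : ℕ) :
    Module.finrank k (homogeneousSubmodule (Fin (n + 1)) k K) = (K + n).choose n := by
  rw [homogeneousSubmodule_eq_restrict, Module.finrank_eq_nat_card_basis
    (basisRestrictSupport k (degEq (n + 1) K : Set (Fin (n + 1) →₀ ℕ)))]
  rw [← card_degEq]
  simp

instance finite_homogeneousSubmodule (n K : ℕ) :
    Module.Finite k (homogeneousSubmodule (Fin n) k K) := by
  rw [homogeneousSubmodule_eq_restrict]
  exact Module.Finite.of_basis (basisRestrictSupport k (degEq n K : Set (Fin n →₀ ℕ)))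

/-- truncated local algebra -/
abbrev Q (n M : ℕ) : Type _ := MvPolynomial (Fin n) k ⧸ ((idealOfVars (Fin n) k ^ M).restrictScalars k)

theorem isCompl_trunc (n M : ℕ) :
    IsCompl ((idealOfVars (Fin n) k ^ M).restrictScalars k)
      (restrictSupport k (degLt n M : Set (Fin n →₀ ℕ))) := by
  classical
  constructor
  · rw [Submodule.disjoint_def]
    intro u hu hu2
    rw [Submodule.restrictScalars_mem, mem_pow_idealOfVars_iff'] at hu
    rw [mem_restrictSupport_iff] at hu2
    ext γ
    by_cases h : γ.degree < M
    · rw [hu γ h]; simp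
    · by_contra hne
      have := hu2 (MvPolynomial.mem_support_iff.2 (by simpa using hne))
      rw [Finset.mem_coe, mem_degLt] at this
      exact h this
  · rw [codisjoint_iff, eq_top_iff]
    intro u _
    have hsplit : u = (∑ γ ∈ u.support.filter (fun γ => ¬ γ.degree < M), monomial γ (u.coeff γ)) +
        (∑ γ ∈ u.support.filter (fun γ => γ.degree < M), monomial γ (u.coeff γ)) := by
      conv_lhs => rw [u.as_sum]
      rw [add_comm]
      exact (Finset.sum_filter_add_sum_filter_not _ _ _).symm
    rw [hsplit]
    apply Submodule.add_mem_sup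
    · apply Submodule.sum_mem
      intro γ hγ
      rw [Submodule.restrictScalars_mem, mem_pow_idealOfVars_iff']
      intro x hx
      rw [coeff_monomial, if_neg]
      rintro rfl
      exact (Finset.mem_filter.1 hγ).2 hx
    · apply Submodule.sum_mem
      intro γ hγ
      rw [monomial_mem_restrictSupport]
      left
      rw [Finset.mem_coe, mem_degLt]
      exact (Finset.mem_filter.1 hγ).2

theorem finrank_Q (n M : ℕ) : Module.finrank k (Q k (n + 1) M) = (M + n).choose (n + 1) := by
  rw [(Submodule.quotientEquivOfIsCompl _ _ (isCompl_trunc k (n + 1) M)).finrank_eq,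
    Module.finrank_eq_nat_card_basis
    (basisRestrictSupport k (degLt (n + 1) M : Set (Fin (n + 1) →₀ ℕ)))]
  rw [← card_degLt]
  simp

instance finite_Q (n M : ℕ) : Module.Finite k (Q k n M) := by
  have : Module.Finite k (restrictSupport k (degLt n M : Set (Fin n →₀ ℕ))) :=
    Module.Finite.of_basis (basisRestrictSupport k (degLt n M : Set (Fin n →₀ ℕ)))
  exact Module.Finite.equiv (Submodule.quotientEquivOfIsCompl _ _ (isCompl_trunc k n M)).symm

end Pool.Agent.Lib.P5c592f
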