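import Mathlib
import Pool.Agent.Lib.P5c592f.Dim
import Pool.Agent.Lib.P5c592f.Factor

set_option autoImplicit false

namespace Pool.Agent.Lib.P5c592f

open MvPolynomial

variable {k : Type*} [Field k] {n : ℕ}

/-- no nonzero form of degree `t` vanishes on `S` -/
def HH (S : Set (Fin (n + 1) → k)) (t : ℕ) : Prop :=
  ∀ G : MvPolynomial (Fin (n + 1)) k, G.IsHomogeneous t → (∀ v ∈ S, eval v G = 0) → G = 0

theorem HH.mono {S : Set (Fin (n + 1) → k)} {s t : ℕ} (h : HH S t) (hst : s ≤ t) : HH S s := by
  intro G hG hv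
  have h1 : (X 0 : MvPolynomial (Fin (n + 1)) k) ^ (t - s) * G = 0 := by
    apply h
    · have := (isHomogeneous_X_pow (R := k) (0 : Fin (n + 1)) (t - s)).mul hG
      have e : t - s + s = t := by omega
      rwa [e] at this
    · intro v hvS
      rw [map_mul, hv v hvS, mul_zero]
  exact (mul_eq_zero.1 h1).resolve_left (pow_ne_zero _ (X_ne_zero _))

theorem HH.nonempty {S : Set (Fin (n + 1) → k)} {t : ℕ} (h : HH S t) : S.Nonempty := by
  by_contra hS
  rw [Set.not_nonempty_iff_eq_empty] at hS
  subst hS
  have := h (X 0 ^ t) (isHomogeneous_X_pow _ _) (by simp)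
  exact pow_ne_zero _ (X_ne_zero _) this

theorem HH.zero_of_nonempty {S : Set (Fin (n + 1) → k)} (h : S.Nonempty) : HH S 0 := by
  intro G hG hv
  obtain ⟨v, hvS⟩ := h
  have h1 := hv v hvS
  have h2 : G.totalDegree = 0 := by
    have := hG.totalDegree_le
    omega
  rw [totalDegree_eq_zero_iff_eq_C] at h2
  rw [h2] at h1 ⊢
  simpa using h1

/-- residual set -/
theorem HH.residual {S : Set (Fin (n + 1) → k)} {t : ℕ} (h : HH S t)
    {C : MvPolynomial (Fin (n + 1)) k} {δ : ℕ} (hC : C.IsHomogeneous δ) (hC0 : C ≠ 0) (hδ : δ ≤ t) :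
    HH {v ∈ S | eval v C ≠ 0} (t - δ) := by
  intro G hG hv
  have h1 : C * G = 0 := by
    apply h
    · have := hC.mul hG
      have e : δ + (t - δ) = t := by omega
      rwa [e] at this
    · intro v hvS
      rw [map_mul]
      by_cases hc : eval v C = 0
      · rw [hc, zero_mul]
      · rw [hv v ⟨hvS, hc⟩, mul_zero]
  exact (mul_eq_zero.1 h1).resolve_left hC0

theorem HH.exists_unisolvent {S : Set (Fin (n + 1) → k)} {t : ℕ} (h : HH S t) :
    ∃ (p : Fin ((t + n).choose n) → (Fin (n + 1) → k))
      (f : Fin ((t + n).choose n) → MvPolynomial (Fin (n + 1)) k),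
      (∀ i, p i ∈ S) ∧ (∀ i, (f i).IsHomogeneous t) ∧ (∀ i, eval (p i) (f i) = 1) ∧
      (∀ i j, i ≠ j → eval (p j) (f i) = 0) := by
  classical
  let V := homogeneousSubmodule (Fin (n + 1)) k t
  let ev : S → Module.Dual k V := fun v =>
    ((MvPolynomial.aeval (R := k) (S₁ := k) v.1).toLinearMap).domRestrict V
  have hev : ∀ (v : S) (G : V), ev v G = eval v.1 G.1 := by
    intro v G
    show MvPolynomial.aeval v.1 G.1 = _
    rw [MvPolynomial.aeval_eq_eval]
  obtain ⟨κ, a, ha, hspan, hli⟩ := exists_linearIndependent' k ev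
  have : Finite κ := hli.finite
  have := Fintype.ofFinite κ
  let E : V →ₗ[k] (κ → k) := LinearMap.pi (fun j => ev (a j))
  have hEinj : Function.Injective E := by
    rw [injective_iff_map_eq_zero]
    intro G hG
    have h1 : ∀ φ ∈ Submodule.span k (Set.range ev), φ G = 0 := by
      rw [← hspan]
      intro φ hφ
      induction hφ using Submodule.span_induction with
      | mem x hx =>
        obtain ⟨j, rfl⟩ := hx
        exact congrFun hG j
      | zero => rfl
      | add x y _ _ hx hy => rw [LinearMap.add_apply, hx, hy, add_zero]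
      | smul c x _ hx => rw [LinearMap.smul_apply, hx, smul_zero]
    have h2 : G.1 = 0 := by
      apply h G.1 G.2
      intro v hv
      rw [← hev ⟨v, hv⟩ G]
      exact h1 _ (Submodule.subset_span ⟨⟨v, hv⟩, rfl⟩)
    exact Subtype.ext h2
  have hc1 : Module.finrank k V ≤ Fintype.card κ := by
    have := LinearMap.finrank_le_finrank_of_injective hEinj
    simpa using this
  have hc2 : Fintype.card κ ≤ Module.finrank k V := by
    have := hli.fintype_card_le_finrank
    rwa [Subspace.dual_finrank_eq] at this
  have hcard : Fintype.card κ = (t + n).choose n := by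
    rw [← finrank_homogeneousSubmodule k n t]
    exact le_antisymm hc2 hc1
  have hEsurj : Function.Surjective E := by
    have h3 : Module.finrank k V = Module.finrank k (κ → k) := by
      rw [Module.finrank_fintype_fun_eq_card]
      exact le_antisymm hc1 hc2
    exact (LinearMap.injective_iff_surjective_of_finrank_eq_finrank h3).1 hEinj
  let e : Fin ((t + n).choose n) ≃ κ := (Fintype.equivFinOfCardEq hcard).symm
  choose g hg using hEsurj
  refine ⟨fun i => (a (e i)).1, fun i => (g (Pi.single (e i) 1)).1, fun i => (a (e i)).2,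
    fun i => (g (Pi.single (e i) 1)).2, fun i => ?_, fun i j hij => ?_⟩
  · rw [← hev (a (e i)) (g (Pi.single (e i) 1))]
    have := congrFun (hg (Pi.single (e i) 1)) (e i)
    rw [Pi.single_eq_same] at this
    exact this
  · rw [← hev (a (e j)) (g (Pi.single (e i) 1))]
    have := congrFun (hg (Pi.single (e i) 1)) (e j)
    have hne : e j ≠ e i := fun h => hij (e.injective h.symm)
    rw [Pi.single_eq_of_ne hne] at this
    exact this

end Pool.Agent.Lib.P5c592f
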