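import Mathlib
import Pool.Agent.Lib.P5c592f.Deriv
import Pool.Agent.Lib.P5c592f.PPow
import Pool.Agent.Lib.P5c592f.Unis

set_option autoImplicit false

namespace Pool.Agent.Lib.P5c592f

open MvPolynomial

variable {k : Type*} [Field k] {n : ℕ}

theorem T_single_coeff_one (l : Fin (n + 1)) (F : MvPolynomial (Fin (n + 1)) k) :
    (T (Pi.single l 1) F).coeff 1 = pderiv l F := by
  classical
  rw [T_coeff_one, Finset.sum_eq_single l]
  · simp
  · intro b _ hb
    rw [Pi.single_eq_of_ne hb]; simp
  · simp

/-- a natural-number valued version of the order at `v` of a nonzero form -/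
theorem exists_ord {v : Fin (n + 1) → k} (hv : v ≠ 0) {d : ℕ}
    {F : MvPolynomial (Fin (n + 1)) k} (hF : F.IsHomogeneous d) (h0 : F ≠ 0) :
    ∃ a : ℕ, lord (phi v F) = a ∧ a ≤ d := by
  have h1 := lord_phi_le hv hF h0
  obtain ⟨a, ha⟩ := ENat.ne_top_iff_exists.1 (ne_top_of_le_ne_top (ENat.natCast_ne_top d) h1)
  refine ⟨a, ha.symm, ?_⟩
  rw [← ha] at h1
  exact_mod_cast h1

theorem alpha_lemma [IsAlgClosed k] {S : Set (Fin (n + 1) → k)} (hS0 : ∀ v ∈ S, v ≠ 0) {t : ℕ}
    (hH : HH S t) : ∀ d μ : ℕ, ∀ F : MvPolynomial (Fin (n + 1)) k, F.IsHomogeneous d → F ≠ 0 →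
      1 ≤ μ → (∀ v ∈ S, (μ : ℕ∞) ≤ lord (phi v F)) → t + μ ≤ d := by
  intro d
  induction d using Nat.strong_induction_on with
  | _ d ih =>
    intro μ F hF h0 hμ hord
    obtain ⟨v0, hv0⟩ := hH.nonempty
    have hd : μ ≤ d := by
      obtain ⟨a, ha, had⟩ := exists_ord (hS0 v0 hv0) hF h0
      have h1 := hord v0 hv0
      rw [ha] at h1
      have h2 : μ ≤ a := by exact_mod_cast h1
      omega
    have hlt : t < d := by
      by_contra hlt
      apply h0
      apply hH.mono (by omega : d ≤ t) F hF
      intro v hv
      rw [← one_le_lord_phi_iff]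
      exact le_trans (by exact_mod_cast hμ) (hord v hv)
    rcases Nat.lt_or_ge μ 2 with h1 | h1
    · omega
    · by_cases hp : ∀ l, pderiv l F = 0
      · obtain ⟨p, g, hp2, rfl⟩ := exists_pow_of_pderiv hF (by omega) h0 hp
        have hg0 : g ≠ 0 := by
          rintro rfl
          apply h0
          rw [zero_pow (by omega)]
        have hg := hom_of_dvd hF h0 (dvd_pow_self g (by omega : p ≠ 0))
        have hdeg : g.totalDegree * p = d := by
          exact (hg.pow p).inj_right hF h0
        set d' := g.totalDegree with hd'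
        have hd'lt : d' < d := by nlinarith
        have hord' : ∀ v ∈ S, (((μ + p - 1) / p : ℕ) : ℕ∞) ≤ lord (phi v g) := by
          intro v hv
          obtain ⟨a, ha, _⟩ := exists_ord (hS0 v hv) hg hg0
          have h2 := hord v hv
          rw [map_pow, lord_pow, ha] at h2
          have h3 : μ ≤ p * a := by exact_mod_cast h2
          rw [ha]
          have h4 : (μ + p - 1) / p ≤ a := by
            rw [Nat.div_le_iff_le_mul_add_pred (by omega)]
            omega
          exact_mod_cast h4
        have h5 := ih d' hd'lt ((μ + p - 1) / p) g hg hg0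
          ((Nat.one_le_div_iff (by omega)).2 (by omega)) hord'
        have h6 : μ ≤ p * ((μ + p - 1) / p) := by
          have h7 := Nat.div_add_mod (μ + p - 1) p
          have h8 := Nat.mod_lt (μ + p - 1) (by omega : p > 0)
          omega
        nlinarith
      · push Not at hp
        obtain ⟨l, hl⟩ := hp
        have h2 := ih (d - 1) (by omega) (μ - 1) (pderiv l F)
          (by rw [← T_single_coeff_one]; exact T_coeff_hom hF _ 1) hl (by omega) (by
            intro v hv
            rw [← T_single_coeff_one]
            exact lord_T_coeff (hS0 v hv) hF (hord v hv) _ 1)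
        omega

end Pool.Agent.Lib.P5c592f
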