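import Mathlib
import Pool.Agent.Lib.P5c592f.Alpha

set_option autoImplicit false

namespace Pool.Agent.Lib.P5c592f

open MvPolynomial

variable {k : Type*} [Field k] {n : ℕ}

/-- natural-number valued order at a point -/
noncomputable def nord (v : Fin (n + 1) → k) (F : MvPolynomial (Fin (n + 1)) k) : ℕ :=
  (lord (phi v F)).toNat

theorem nord_spec {v : Fin (n + 1) → k} (hv : v ≠ 0) {d : ℕ}
    {F : MvPolynomial (Fin (n + 1)) k} (hF : F.IsHomogeneous d) (h0 : F ≠ 0) :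
    lord (phi v F) = nord v F := by
  obtain ⟨a, ha, _⟩ := exists_ord hv hF h0
  unfold nord
  rw [ha]; rfl

theorem nord_le {v : Fin (n + 1) → k} (hv : v ≠ 0) {d : ℕ}
    {F : MvPolynomial (Fin (n + 1)) k} (hF : F.IsHomogeneous d) (h0 : F ≠ 0) : nord v F ≤ d := by
  obtain ⟨a, ha, had⟩ := exists_ord hv hF h0
  unfold nord
  rw [ha]; exact had

theorem le_nord {v : Fin (n + 1) → k} (hv : v ≠ 0) {d m : ℕ}
    {F : MvPolynomial (Fin (n + 1)) k} (hF : F.IsHomogeneous d) (h0 : F ≠ 0)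
    (h : (m : ℕ∞) ≤ lord (phi v F)) : m ≤ nord v F := by
  rw [nord_spec hv hF h0] at h
  exact_mod_cast h

theorem nord_mul {v : Fin (n + 1) → k} (hv : v ≠ 0) {d : ℕ}
    {F G : MvPolynomial (Fin (n + 1)) k} (hFG : (F * G).IsHomogeneous d) (h0 : F * G ≠ 0) :
    nord v (F * G) = nord v F + nord v G := by
  have h1 := nord_spec hv hFG h0
  rw [map_mul, lord_mul, nord_spec hv (hom_of_mul_left hFG h0) (left_ne_zero_of_mul h0),
    nord_spec hv (hom_of_mul_right hFG h0) (right_ne_zero_of_mul h0)] at h1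
  exact_mod_cast h1.symm

theorem nord_unit {v : Fin (n + 1) → k} (hv : v ≠ 0) {F : MvPolynomial (Fin (n + 1)) k}
    (hF : IsUnit F) : nord v F = 0 := by
  have h1 : F.IsHomogeneous F.totalDegree :=
    hom_of_dvd (isHomogeneous_one _ _) one_ne_zero hF.dvd
  have h2 : F.totalDegree = 0 := by
    obtain ⟨c, -, hc⟩ := MvPolynomial.isUnit_iff_eq_C_of_isReduced.1 hF
    rw [hc, totalDegree_C]
  have h3 := nord_le hv h1 hF.ne_zero
  omega

theorem totalDegree_unit {F : MvPolynomial (Fin (n + 1)) k} (hF : IsUnit F) : F.totalDegree = 0 := by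
  obtain ⟨c, -, hc⟩ := MvPolynomial.isUnit_iff_eq_C_of_isReduced.1 hF
  rw [hc, totalDegree_C]

theorem totalDegree_irr {C : MvPolynomial (Fin (n + 1)) k} (hC : Irreducible C) :
    1 ≤ C.totalDegree := by
  by_contra h
  have h1 : C.totalDegree = 0 := by omega
  rw [totalDegree_eq_zero_iff_eq_C] at h1
  apply hC.not_isUnit
  rw [h1]
  apply IsUnit.map
  rw [isUnit_iff_ne_zero]
  intro h2
  rw [h2, map_zero] at h1
  exact hC.ne_zero h1

/-- exact power of an irreducible component -/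
theorem split_factor {d : ℕ} {F C : MvPolynomial (Fin (n + 1)) k} (hF : F.IsHomogeneous d)
    (h0 : F ≠ 0) (hC : Irreducible C) (hdvd : C ∣ F) :
    ∃ (e : ℕ) (R : MvPolynomial (Fin (n + 1)) k), 1 ≤ e ∧ F = C ^ e * R ∧ ¬ C ∣ R ∧
      C.IsHomogeneous C.totalDegree ∧ R.IsHomogeneous R.totalDegree ∧ R ≠ 0 ∧
      d = e * C.totalDegree + R.totalDegree := by
  have hfin : FiniteMultiplicity C F := FiniteMultiplicity.of_not_isUnit hC.not_isUnit h0
  obtain ⟨R, hR, hnd⟩ := hfin.exists_eq_pow_mul_and_not_dvd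
  set e := multiplicity C F with he
  have he1 : 1 ≤ e := by
    rcases Nat.eq_zero_or_pos e with h | h
    · rw [h, pow_zero, one_mul] at hR
      exact absurd (hR ▸ hdvd) hnd
    · exact h
  have hR0 : R ≠ 0 := by
    rintro rfl
    exact hnd (dvd_zero C)
  have h1 := hom_of_dvd hF h0 hdvd
  have h2 : R.IsHomogeneous R.totalDegree := hom_of_dvd hF h0 (hR ▸ Dvd.intro_left _ rfl)
  refine ⟨e, R, he1, hR, hnd, h1, h2, hR0, ?_⟩
  have h3 := (h1.pow e).mul h2
  rw [← hR] at h3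
  rw [hF.inj_right h3 h0]
  ring

theorem nord_pow_mul {v : Fin (n + 1) → k} (hv : v ≠ 0) {d e : ℕ}
    {F C R : MvPolynomial (Fin (n + 1)) k} (hF : F.IsHomogeneous d) (h0 : F ≠ 0)
    (hFR : F = C ^ e * R) (hC : C.IsHomogeneous C.totalDegree) (hC0 : C ≠ 0) :
    nord v F = e * nord v C + nord v R := by
  subst hFR
  rw [nord_mul hv hF h0]
  congr 1
  have h1 := nord_spec hv (hC.pow e) (pow_ne_zero e hC0)
  rw [map_pow, lord_pow, nord_spec hv hC hC0] at h1
  exact_mod_cast h1.symm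

/-- consequences of removing a component. `n` is the dimension of the projective space. -/
theorem component_cases [IsAlgClosed k] {S : Set (Fin (n + 1) → k)} (hS0 : ∀ v ∈ S, v ≠ 0) {t : ℕ}
    (hH : HH S t) {d m : ℕ} {F : MvPolynomial (Fin (n + 1)) k} (hF : F.IsHomogeneous d)
    (h0 : F ≠ 0) (hord : ∀ v ∈ S, (m : ℕ∞) ≤ lord (phi v F))
    (hB : ∀ (S' : Set (Fin (n + 1) → k)) (t' ρ : ℕ) (R : MvPolynomial (Fin (n + 1)) k), ρ < d →
      (∀ v ∈ S', v ≠ 0) → HH S' t' → R.IsHomogeneous ρ → R ≠ 0 →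
      (∀ v ∈ S', (m : ℕ∞) ≤ lord (phi v R)) → m * (t' + n) ≤ n * ρ)
    {C R : MvPolynomial (Fin (n + 1)) k} {e : ℕ} (hC : Irreducible C) (he : 1 ≤ e)
    (hFR : F = C ^ e * R) (hCh : C.IsHomogeneous C.totalDegree)
    (hRh : R.IsHomogeneous R.totalDegree) (hR0 : R ≠ 0)
    (hd : d = e * C.totalDegree + R.totalDegree) :
    (C.totalDegree ≤ t ∧ m * (t - C.totalDegree + n) + n * (e * C.totalDegree) ≤ n * d) ∨
    (t < C.totalDegree ∧ m * n + n * (e * C.totalDegree) ≤ n * d) ∨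
    (e * t + m ≤ d) := by
  set δ := C.totalDegree with hδ
  set ρ := R.totalDegree with hρ
  have hδ1 : 1 ≤ δ := totalDegree_irr hC
  have hρd : ρ < d := by nlinarith
  by_cases hSC : ∀ v ∈ S, eval v C = 0
  · right; right
    -- S is contained in C
    classical
    obtain ⟨v1, hv1⟩ := hH.nonempty
    have hex : ∃ a, ∃ v ∈ S, nord v C = a := ⟨_, v1, hv1, rfl⟩
    obtain ⟨v0, hv0, hv0a⟩ := Nat.find_spec hex
    set μ := Nat.find hex with hμ
    have hmin : ∀ v ∈ S, μ ≤ nord v C := fun v hv => Nat.find_min' hex ⟨v, hv, rfl⟩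
    have hμ1 : 1 ≤ μ := by
      rw [← hv0a]
      apply le_nord (hS0 v0 hv0) hCh hC.ne_zero
      have := (one_le_lord_phi_iff v0 C).2 (hSC v0 hv0)
      exact_mod_cast this
    have h1 := alpha_lemma hS0 hH δ μ C hCh hC.ne_zero hμ1 (by
      intro v hv
      rw [nord_spec (hS0 v hv) hCh hC.ne_zero]
      exact_mod_cast hmin v hv)
    have h2 := le_nord (hS0 v0 hv0) hF h0 (hord v0 hv0)
    rw [nord_pow_mul (hS0 v0 hv0) hF h0 hFR hCh hC.ne_zero, hv0a] at h2
    have h3 := nord_le (hS0 v0 hv0) hRh hR0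
    have h4 : e * (t + μ) ≤ e * δ := Nat.mul_le_mul_left e h1
    rw [hd]
    nlinarith
  · push Not at hSC
    have hS'0 : ∀ v ∈ {v ∈ S | eval v C ≠ 0}, v ≠ 0 := fun v hv => hS0 v hv.1
    have hR' : ∀ v ∈ {v ∈ S | eval v C ≠ 0}, (m : ℕ∞) ≤ lord (phi v R) := by
      rintro v ⟨hv, hvC⟩
      have h1 := le_nord (hS0 v hv) hF h0 (hord v hv)
      rw [nord_pow_mul (hS0 v hv) hF h0 hFR hCh hC.ne_zero] at h1
      have h2 : nord v C = 0 := by
        by_contra hne
        apply hvC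
        rw [← one_le_lord_phi_iff, nord_spec (hS0 v hv) hCh hC.ne_zero]
        exact_mod_cast Nat.one_le_iff_ne_zero.2 hne
      rw [h2, mul_zero, zero_add] at h1
      rw [nord_spec (hS0 v hv) hRh hR0]
      exact_mod_cast h1
    by_cases htδ : δ ≤ t
    · left
      refine ⟨htδ, ?_⟩
      have h1 := hB _ (t - δ) ρ R hρd hS'0 (hH.residual hCh hC.ne_zero htδ) hRh hR0 hR'
      rw [hd]
      nlinarith
    · right; left
      refine ⟨by omega, ?_⟩
      obtain ⟨v, hv, hvC⟩ := hSC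
      have h1 := hB _ 0 ρ R hρd hS'0 (HH.zero_of_nonempty ⟨v, hv, hvC⟩) hRh hR0 hR'
      rw [hd]
      nlinarith

end Pool.Agent.Lib.P5c592f
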