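import Mathlib
import Pool.Agent.Lib.P5c592f.Dim
import Pool.Agent.Lib.P5c592f.Factor

set_option autoImplicit false

namespace Pool.Agent.Lib.P5c592f

open MvPolynomial

variable {k : Type*} [Field k] {n : ℕ}

/-- multiples of `A` with cofactor of degree `j` -/
noncomputable def mulSub (A : MvPolynomial (Fin n) k) (j : ℕ) :
    Submodule k (MvPolynomial (Fin n) k) :=
  (homogeneousSubmodule (Fin n) k j).map (LinearMap.mulLeft k A)

theorem mem_mulSub {A : MvPolynomial (Fin n) k} {j : ℕ} {F : MvPolynomial (Fin n) k} :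
    F ∈ mulSub A j ↔ ∃ G, G.IsHomogeneous j ∧ F = A * G := by
  unfold mulSub
  rw [Submodule.mem_map]
  constructor
  · rintro ⟨G, hG, rfl⟩
    exact ⟨G, hG, rfl⟩
  · rintro ⟨G, hG, rfl⟩
    exact ⟨G, hG, rfl⟩

instance finite_mulSub (A : MvPolynomial (Fin n) k) (j : ℕ) : Module.Finite k (mulSub A j) := by
  unfold mulSub
  infer_instance

theorem finrank_mulSub {A : MvPolynomial (Fin (n + 1)) k} (hA : A ≠ 0) (j : ℕ) :
    Module.finrank k (mulSub A j) = (j + n).choose n := by
  have hinj : Function.Injective (LinearMap.mulLeft k A) := fun x y hxy => mul_left_cancel₀ hA hxy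
  rw [← finrank_homogeneousSubmodule k n j]
  exact (Submodule.equivMapOfInjective _ hinj _).symm.finrank_eq

theorem mulSub_le {A : MvPolynomial (Fin n) k} {a j : ℕ} (hA : A.IsHomogeneous a) :
    mulSub A j ≤ homogeneousSubmodule (Fin n) k (a + j) := by
  intro F hF
  obtain ⟨G, hG, rfl⟩ := mem_mulSub.1 hF
  exact hA.mul hG

/-- dimension of `(A,B)_K`, `A` prime not dividing `B`. -/
theorem finrank_two {A B : MvPolynomial (Fin (n + 1)) k} {a b K : ℕ} (hA : A.IsHomogeneous a)
    (hAp : Prime A) (hB : B.IsHomogeneous b) (hAB : ¬ A ∣ B) (hK : a + b ≤ K) :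
    (K - a + n).choose n + (K - b + n).choose n ≤
      Module.finrank k ((mulSub A (K - a) ⊔ mulSub B (K - b) :
        Submodule k (MvPolynomial (Fin (n + 1)) k))) + (K - a - b + n).choose n := by
  have hA0 : A ≠ 0 := hAp.ne_zero
  have hB0 : B ≠ 0 := fun h => hAB (h ▸ dvd_zero A)
  have h1 := Submodule.finrank_sup_add_finrank_inf_eq (mulSub A (K - a)) (mulSub B (K - b))
  rw [finrank_mulSub hA0, finrank_mulSub hB0] at h1
  have h2 : (mulSub A (K - a) ⊓ mulSub B (K - b) : Submodule k (MvPolynomial (Fin (n + 1)) k)) ≤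
      mulSub (A * B) (K - a - b) := by
    rintro F ⟨hF1, hF2⟩
    obtain ⟨G, hG, rfl⟩ := mem_mulSub.1 hF1
    obtain ⟨H, hH, hGH⟩ := mem_mulSub.1 hF2
    have h3 : A ∣ B * H := ⟨G, hGH.symm⟩
    have h4 : A ∣ H := (hAp.dvd_or_dvd h3).resolve_left hAB
    obtain ⟨H', rfl⟩ := h4
    rw [mem_mulSub]
    refine ⟨H', ?_, by rw [hGH]; ring⟩
    have h5 := hom_cofactor hA hA0 hH
    have h6 : K - b - a = K - a - b := by omega
    rwa [h6] at h5
  have h3 := Submodule.finrank_mono h2
  rw [finrank_mulSub (mul_ne_zero hA0 hB0)] at h3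
  omega

end Pool.Agent.Lib.P5c592f
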