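import Mathlib
import Pool.Agent.Lib.P5c592f.Dim

set_option autoImplicit false

namespace Pool.Agent.Lib.P5c592f

open MvPolynomial

variable {k : Type*} [Field k] {n : ℕ}

/-- multiplication by `A` between truncated algebras -/
noncomputable def mulQ (A : MvPolynomial (Fin n) k) (a b : ℕ)
    (h : ∀ u ∈ idealOfVars (Fin n) k ^ a, A * u ∈ idealOfVars (Fin n) k ^ b) :
    Q k n a →ₗ[k] Q k n b :=
  Submodule.mapQ _ _ (LinearMap.mulLeft k A) (by
    intro u hu
    rw [Submodule.mem_comap, Submodule.restrictScalars_mem]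
    exact h u hu)

theorem mulQ_mk (A : MvPolynomial (Fin n) k) (a b : ℕ)
    (h : ∀ u ∈ idealOfVars (Fin n) k ^ a, A * u ∈ idealOfVars (Fin n) k ^ b)
    (u : MvPolynomial (Fin n) k) :
    mulQ A a b h (Submodule.Quotient.mk u) = Submodule.Quotient.mk (A * u) := rfl

theorem mulQ_hyp {A : MvPolynomial (Fin n) k} {μ M : ℕ} (hA : (μ : ℕ∞) ≤ lord A) :
    ∀ u ∈ idealOfVars (Fin n) k ^ (M - μ), A * u ∈ idealOfVars (Fin n) k ^ M := by
  intro u hu
  rw [← le_lord_iff_mem] at hu ⊢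
  rw [lord_mul]
  have h1 : ((M : ℕ) : ℕ∞) ≤ ((μ + (M - μ) : ℕ) : ℕ∞) := by
    exact_mod_cast (by omega : M ≤ μ + (M - μ))
  refine h1.trans ?_
  push_cast
  exact add_le_add hA hu

theorem mulQ_injective {A : MvPolynomial (Fin n) k} {μ a b : ℕ} (hA : lord A = μ)
    (h : ∀ u ∈ idealOfVars (Fin n) k ^ a, A * u ∈ idealOfVars (Fin n) k ^ b) (hab : a + μ ≤ b) :
    Function.Injective (mulQ A a b h) := by
  rw [injective_iff_map_eq_zero]
  intro x
  refine Submodule.Quotient.induction_on _ x (fun u => ?_)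
  intro hu
  rw [mulQ_mk, Submodule.Quotient.mk_eq_zero, Submodule.restrictScalars_mem, ← le_lord_iff_mem,
    lord_mul, hA] at hu
  rw [Submodule.Quotient.mk_eq_zero, Submodule.restrictScalars_mem, ← le_lord_iff_mem]
  by_contra hlt
  rw [not_le] at hlt
  obtain ⟨m, hm⟩ := ENat.ne_top_iff_exists.1 (ne_top_of_lt hlt)
  rw [← hm] at hu hlt
  have h1 : b ≤ μ + m := by exact_mod_cast hu
  have h2 : m < a := by exact_mod_cast hlt
  omega

/-- `(u, w) ↦ A u + B w`. -/
noncomputable def psiQ (A B : MvPolynomial (Fin n) k) (μ ν M : ℕ) (hA : (μ : ℕ∞) ≤ lord A)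
    (hB : (ν : ℕ∞) ≤ lord B) : (Q k n (M - μ) × Q k n (M - ν)) →ₗ[k] Q k n M :=
  (mulQ A (M - μ) M (mulQ_hyp hA)).coprod (mulQ B (M - ν) M (mulQ_hyp hB))

theorem psiQ_mk (A B : MvPolynomial (Fin n) k) (μ ν M : ℕ) (hA : (μ : ℕ∞) ≤ lord A)
    (hB : (ν : ℕ∞) ≤ lord B) (u w : MvPolynomial (Fin n) k) :
    psiQ A B μ ν M hA hB (Submodule.Quotient.mk u, Submodule.Quotient.mk w) =
      Submodule.Quotient.mk (A * u + B * w) := by
  simp [psiQ, mulQ_mk]

theorem finrank_range_psiQ (A B : MvPolynomial (Fin (n + 1)) k) (μ ν M : ℕ) (hA : lord A = μ)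
    (hB : (ν : ℕ∞) ≤ lord B) (hM : μ + ν ≤ M) :
    Module.finrank k (LinearMap.range (psiQ A B μ ν M hA.ge hB)) + (M - μ - ν + n).choose (n + 1) ≤
      (M - μ + n).choose (n + 1) + (M - ν + n).choose (n + 1) := by
  have hB' : ∀ u ∈ idealOfVars (Fin (n + 1)) k ^ (M - μ - ν), B * u ∈ idealOfVars (Fin (n + 1)) k ^ (M - μ) :=
    mulQ_hyp hB
  have hA' : ∀ u ∈ idealOfVars (Fin (n + 1)) k ^ (M - μ - ν), A * u ∈ idealOfVars (Fin (n + 1)) k ^ (M - ν) := by
    have : M - μ - ν = M - ν - μ := by omega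
    rw [this]
    exact mulQ_hyp hA.ge
  let κ : Q k (n + 1) (M - μ - ν) →ₗ[k] (Q k (n + 1) (M - μ) × Q k (n + 1) (M - ν)) :=
    (mulQ B _ _ hB').prod (-(mulQ A _ _ hA'))
  have hκinj : Function.Injective κ := by
    rw [injective_iff_map_eq_zero]
    intro x hx
    have h2 : (mulQ A _ _ hA') x = 0 := by
      have := congrArg Prod.snd hx
      simpa [κ] using this
    exact (injective_iff_map_eq_zero _).1 (mulQ_injective hA hA' (by omega)) x h2
  have hle : LinearMap.range κ ≤ LinearMap.ker (psiQ A B μ ν M hA.ge hB) := by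
    rintro _ ⟨x, rfl⟩
    refine Submodule.Quotient.induction_on _ x (fun u => ?_)
    rw [LinearMap.mem_ker]
    have : κ (Submodule.Quotient.mk u) = (Submodule.Quotient.mk (B * u), Submodule.Quotient.mk (-(A * u))) := by
      simp only [κ, LinearMap.prod_apply, Pi.prod, mulQ_mk, LinearMap.neg_apply]
      rfl
    rw [this, psiQ_mk]
    have h0 : A * (B * u) + B * -(A * u) = 0 := by ring
    rw [h0]
    rfl
  have h1 := LinearMap.finrank_range_add_finrank_ker (psiQ A B μ ν M hA.ge hB)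
  have h2 : Module.finrank k (LinearMap.range κ) = (M - μ - ν + n).choose (n + 1) := by
    rw [LinearMap.finrank_range_of_inj hκinj, finrank_Q]
  have h3 := Submodule.finrank_mono hle
  rw [Module.finrank_prod, finrank_Q, finrank_Q] at h1
  omega

theorem finrank_quot_psiQ (A B : MvPolynomial (Fin (n + 1)) k) (μ ν M : ℕ) (hA : lord A = μ)
    (hB : (ν : ℕ∞) ≤ lord B) (hM : μ + ν ≤ M) :
    (M + n).choose (n + 1) + (M - μ - ν + n).choose (n + 1) ≤
      Module.finrank k (Q k (n + 1) M ⧸ LinearMap.range (psiQ A B μ ν M hA.ge hB)) +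
        ((M - μ + n).choose (n + 1) + (M - ν + n).choose (n + 1)) := by
  have h1 := finrank_range_psiQ A B μ ν M hA hB hM
  have h2 := Submodule.finrank_quotient_add_finrank (LinearMap.range (psiQ A B μ ν M hA.ge hB))
  rw [finrank_Q] at h2
  omega

end Pool.Agent.Lib.P5c592f
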