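import Mathlib
import Pool.Agent.Lib.P5c592f.Loc
import Pool.Agent.Lib.P5c592f.Glob
import Pool.Agent.Lib.P5c592f.LocBez

set_option autoImplicit false

namespace Pool.Agent.Lib.P5c592f

open MvPolynomial

theorem joint_surj_ineq {k : Type*} [Field k] {ι : Type*} [Fintype ι] {V : Type*} [AddCommGroup V]
    [Module k V] [Module.Finite k V] (X : ι → Type*) [∀ i, AddCommGroup (X i)]
    [∀ i, Module k (X i)] [∀ i, Module.Finite k (X i)] (g : ∀ i, V →ₗ[k] X i) (W : Submodule k V)
    (hW : ∀ i, ∀ x ∈ W, g i x = 0) (hs : ∀ y : ∀ i, X i, ∃ x, ∀ i, g i x = y i) :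
    (∑ i, Module.finrank k (X i)) + Module.finrank k W ≤ Module.finrank k V := by
  have h1 := LinearMap.finrank_range_add_finrank_ker (LinearMap.pi g)
  have h2 : Function.Surjective (LinearMap.pi g) := by
    intro y
    obtain ⟨x, hx⟩ := hs y
    exact ⟨x, funext hx⟩
  rw [LinearMap.range_eq_top.2 h2, finrank_top, Module.finrank_pi_fintype] at h1
  have h3 : W ≤ LinearMap.ker (LinearMap.pi g) := by
    intro x hx
    rw [LinearMap.mem_ker]
    funext i
    exact hW i x hx
  have h4 := Submodule.finrank_mono h3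
  omega

variable {k : Type*} [Field k] {n : ℕ} {ι : Type*}

/-- every tuple of jets of orders `w i * N` is realised in degree `κ * N`. -/
def Jets (v : ι → Fin (n + 1) → k) (w : ι → ℕ) (κ : ℕ) : Prop :=
  ∀ N : ℕ, ∀ u : ι → MvPolynomial (Fin n) k,
    ∃ F : MvPolynomial (Fin (n + 1)) k, F.IsHomogeneous (κ * N) ∧
      ∀ i, phi (v i) F - u i ∈ idealOfVars (Fin n) k ^ (w i * N)

theorem two_form_ineq [Fintype ι] (v : ι → Fin (n + 2) → k) (M : ι → ℕ) (K : ℕ)
    (hsurj : ∀ u : ι → MvPolynomial (Fin (n + 1)) k,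
      ∃ F : MvPolynomial (Fin (n + 2)) k, F.IsHomogeneous K ∧
        ∀ i, phi (v i) F - u i ∈ idealOfVars (Fin (n + 1)) k ^ (M i))
    {A B : MvPolynomial (Fin (n + 2)) k} {a b : ℕ} (hA : A.IsHomogeneous a)
    (hAp : Prime A) (hB : B.IsHomogeneous b) (hAB : ¬ A ∣ B) (hK : a + b ≤ K)
    (μ ν : ι → ℕ) (hμ : ∀ i, lord (phi (v i) A) = μ i) (hν : ∀ i, (ν i : ℕ∞) ≤ lord (phi (v i) B))
    (hM : ∀ i, μ i + ν i ≤ M i) :
    (∑ i, ((M i + n).choose (n + 1) + (M i - μ i - ν i + n).choose (n + 1))) +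
      ((K - a + (n + 1)).choose (n + 1) + (K - b + (n + 1)).choose (n + 1)) ≤
    (∑ i, ((M i - μ i + n).choose (n + 1) + (M i - ν i + n).choose (n + 1))) +
      ((K + (n + 1)).choose (n + 1) + (K - a - b + (n + 1)).choose (n + 1)) := by
  classical
  let V := homogeneousSubmodule (Fin (n + 2)) k K
  let W : Submodule k (MvPolynomial (Fin (n + 2)) k) := mulSub A (K - a) ⊔ mulSub B (K - b)
  have hWV : W ≤ V := by
    apply sup_le
    · have := mulSub_le (j := K - a) hA
      have h : a + (K - a) = K := by omega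
      rwa [h] at this
    · have := mulSub_le (j := K - b) hB
      have h : b + (K - b) = K := by omega
      rwa [h] at this
  let N : ∀ i, Submodule k (Q k (n + 1) (M i)) := fun i =>
    LinearMap.range (psiQ (phi (v i) A) (phi (v i) B) (μ i) (ν i) (M i) (hμ i).ge (hν i))
  let g : ∀ i, MvPolynomial (Fin (n + 2)) k →ₗ[k] (Q k (n + 1) (M i) ⧸ N i) :=
    fun i => (N i).mkQ ∘ₗ
      (Submodule.mkQ ((idealOfVars (Fin (n + 1)) k ^ (M i)).restrictScalars k)) ∘ₗ
        (phi (v i)).toLinearMap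
  have hg : ∀ F i, g i F = (N i).mkQ (Submodule.Quotient.mk (phi (v i) F)) := fun F i => rfl
  have hgA : ∀ i H, g i (A * H) = 0 := by
    intro i H
    rw [hg, Submodule.mkQ_apply, Submodule.Quotient.mk_eq_zero]
    refine ⟨(Submodule.Quotient.mk (phi (v i) H), Submodule.Quotient.mk 0), ?_⟩
    rw [psiQ_mk]
    simp
  have hgB : ∀ i H, g i (B * H) = 0 := by
    intro i H
    rw [hg, Submodule.mkQ_apply, Submodule.Quotient.mk_eq_zero]
    refine ⟨(Submodule.Quotient.mk 0, Submodule.Quotient.mk (phi (v i) H)), ?_⟩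
    rw [psiQ_mk]
    simp
  have h1 := joint_surj_ineq (k := k) (V := V) (fun i => Q k (n + 1) (M i) ⧸ N i)
    (fun i => (g i).domRestrict V) (W.comap V.subtype) (by
      rintro i ⟨F, hFV⟩ hF
      rw [Submodule.mem_comap] at hF
      show g i F = 0
      have hle : W ≤ LinearMap.ker (g i) := by
        apply sup_le
        · intro G hG
          obtain ⟨H, _, rfl⟩ := mem_mulSub.1 hG
          exact hgA i H
        · intro G hG
          obtain ⟨H, _, rfl⟩ := mem_mulSub.1 hG
          exact hgB i H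
      exact hle hF) (by
      intro y
      have h1 : ∀ i, ∃ u : MvPolynomial (Fin (n + 1)) k,
          (N i).mkQ (Submodule.Quotient.mk u) = y i := by
        intro i
        obtain ⟨x, hx⟩ := Submodule.mkQ_surjective (N i) (y i)
        obtain ⟨u, hu⟩ := Submodule.Quotient.mk_surjective _ x
        exact ⟨u, by rw [hu, hx]⟩
      choose u hu using h1
      obtain ⟨F, hF, hFu⟩ := hsurj u
      refine ⟨⟨F, hF⟩, ?_⟩
      intro i
      show g i F = y i
      rw [hg, ← hu i]
      congr 1
      rw [Submodule.Quotient.eq]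
      exact hFu i)
  rw [finrank_homogeneousSubmodule] at h1
  have h3 : Module.finrank k (W.comap V.subtype) = Module.finrank k W :=
    (Submodule.comapSubtypeEquivOfLe hWV).finrank_eq
  have h4 := finrank_two hA hAp hB hAB hK
  have h5 : ∑ i, ((M i + n).choose (n + 1) + (M i - μ i - ν i + n).choose (n + 1)) ≤
      ∑ i, (Module.finrank k (Q k (n + 1) (M i) ⧸ N i) +
        ((M i - μ i + n).choose (n + 1) + (M i - ν i + n).choose (n + 1))) := by
    apply Finset.sum_le_sum
    intro i _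
    exact finrank_quot_psiQ _ _ _ _ _ (hμ i) (hν i) (hM i)
  rw [Finset.sum_add_distrib (f := fun i => Module.finrank k (Q k (n + 1) (M i) ⧸ N i))] at h5
  change _ ≤ Module.finrank k W + _ at h4
  omega

end Pool.Agent.Lib.P5c592f
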