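import Mathlib
import Pool.Agent.Lib.P5c592f.Bezout

set_option autoImplicit false

namespace Pool.Agent.Lib.P5c592f

open MvPolynomial

theorem two_choose (x : ℕ) : (2 : ℤ) * ((x + 1).choose 2 : ℕ) = (x + 1) * x := by
  induction x with
  | zero => simp
  | succ x ih =>
    have h1 : (x + 1 + 1).choose 2 = (x + 1).choose 1 + (x + 1).choose 2 := Nat.choose_succ_succ' _ _
    rw [h1, Nat.choose_one_right]
    push_cast
    linarith

theorem six_choose (x : ℕ) : (6 : ℤ) * ((x + 2).choose 3 : ℕ) = (x + 2) * (x + 1) * x := by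
  induction x with
  | zero => simp
  | succ x ih =>
    have h1 : (x + 1 + 2).choose 3 = (x + 2).choose 2 + (x + 2).choose 3 := Nat.choose_succ_succ' _ _
    rw [h1]
    have h2 := two_choose (x + 1)
    push_cast at h2 ih ⊢
    linarith

/-- second difference for local lengths in dimension 3 -/
theorem sd_local (M μ ν : ℕ) (h : μ + ν ≤ M) :
    (2 : ℤ) * ((((M + 2).choose 3 : ℕ) + ((M - μ - ν + 2).choose 3 : ℕ)) -
      (((M - μ + 2).choose 3 : ℕ) + ((M - ν + 2).choose 3 : ℕ))) =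
        μ * ν * (2 * M - μ - ν + 2) := by
  have h1 := six_choose M
  have h2 := six_choose (M - μ - ν)
  have h3 := six_choose (M - μ)
  have h4 := six_choose (M - ν)
  have e2 : ((M - μ - ν : ℕ) : ℤ) = M - μ - ν := by omega
  have e3 : ((M - μ : ℕ) : ℤ) = M - μ := by omega
  have e4 : ((M - ν : ℕ) : ℤ) = M - ν := by omega
  rw [e2] at h2
  rw [e3] at h3
  rw [e4] at h4
  have h5 : (3 : ℤ) * ((2 : ℤ) * ((((M + 2).choose 3 : ℕ) + ((M - μ - ν + 2).choose 3 : ℕ)) -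
      (((M - μ + 2).choose 3 : ℕ) + ((M - ν + 2).choose 3 : ℕ)))) =
        3 * (μ * ν * (2 * M - μ - ν + 2)) := by
    linear_combination h1 + h2 - h3 - h4
  linarith

variable {k : Type*} [Field k] {ι : Type*}

/-- asymptotic Bezout inequality in P^3 -/
theorem bezout3 [Fintype ι] (v : ι → Fin 4 → k) (w : ι → ℕ) (κ : ℕ) (hκ : 1 ≤ κ)
    (hw : ∀ i, 1 ≤ w i) (hJ : Jets v w κ)
    {A B : MvPolynomial (Fin 4) k} {a b : ℕ} (hA : A.IsHomogeneous a)
    (hAp : Prime A) (hB : B.IsHomogeneous b) (hAB : ¬ A ∣ B)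
    (μ ν : ι → ℕ) (hμ : ∀ i, lord (phi (v i) A) = μ i)
    (hν : ∀ i, (ν i : ℕ∞) ≤ lord (phi (v i) B)) :
    ∑ i, w i * (μ i * ν i) ≤ κ * (a * b) := by
  by_contra hcon
  rw [not_le] at hcon
  -- the large parameter
  set N : ℕ := (a + b) + (∑ i, (μ i + ν i)) + 4 * (a * b) + (∑ i, μ i * ν i * (μ i + ν i)) + 1 with hN
  have hsum : ∀ i, μ i + ν i ≤ ∑ i, (μ i + ν i) := fun i =>
    Finset.single_le_sum (f := fun i => μ i + ν i) (fun _ _ => Nat.zero_le _) (Finset.mem_univ i)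
  have hM : ∀ i, μ i + ν i ≤ w i * N := by
    intro i
    have h1 := hsum i
    have h2 : 1 * N ≤ w i * N := Nat.mul_le_mul_right _ (hw i)
    omega
  have hK : a + b ≤ κ * N := by
    have h2 : 1 * N ≤ κ * N := Nat.mul_le_mul_right _ hκ
    omega
  have hmain := two_form_ineq (n := 2) v (fun i => w i * N) (κ * N) (hJ N) hA hAp hB hAB hK μ ν hμ hν hM
  have hglob := sd_local (κ * N + 1) a b (by omega)
  have hloc : ∀ i, (2 : ℤ) * ((((w i * N + 2).choose 3 : ℕ) + ((w i * N - μ i - ν i + 2).choose 3 : ℕ)) -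
      (((w i * N - μ i + 2).choose 3 : ℕ) + ((w i * N - ν i + 2).choose 3 : ℕ))) =
        μ i * ν i * (2 * (w i * N : ℕ) - μ i - ν i + 2) := fun i => sd_local (w i * N) (μ i) (ν i) (hM i)
  have hmainZ : (2 : ℤ) * ∑ i, ((((w i * N + 2).choose 3 : ℕ) + ((w i * N - μ i - ν i + 2).choose 3 : ℕ)) -
      (((w i * N - μ i + 2).choose 3 : ℕ) + ((w i * N - ν i + 2).choose 3 : ℕ)) : ℤ) ≤
      2 * ((((κ * N + 3).choose 3 : ℕ) + ((κ * N - a - b + 3).choose 3 : ℕ)) -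
      (((κ * N - a + 3).choose 3 : ℕ) + ((κ * N - b + 3).choose 3 : ℕ))) := by
    rw [Finset.sum_sub_distrib]
    have hm : ((∑ i, ((w i * N + 2).choose 3 + (w i * N - μ i - ν i + 2).choose 3) +
      ((κ * N - a + 3).choose 3 + (κ * N - b + 3).choose 3) : ℕ) : ℤ) ≤
      ((∑ i, ((w i * N - μ i + 2).choose 3 + (w i * N - ν i + 2).choose 3) +
      ((κ * N + 3).choose 3 + (κ * N - a - b + 3).choose 3) : ℕ) : ℤ) := by
      exact_mod_cast hmain
    push_cast at hm ⊢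
    linarith
  rw [Finset.mul_sum, Finset.sum_congr rfl (fun i _ => hloc i)] at hmainZ
  have e1 : κ * N + 1 + 2 = κ * N + 3 := by omega
  have e2 : κ * N + 1 - a - b + 2 = κ * N - a - b + 3 := by omega
  have e3 : κ * N + 1 - a + 2 = κ * N - a + 3 := by omega
  have e4 : κ * N + 1 - b + 2 = κ * N - b + 3 := by omega
  rw [e1, e2, e3, e4] at hglob
  rw [hglob] at hmainZ
  -- now a linear inequality in N
  have h5 : (∑ i, ((μ i : ℤ) * ν i * (2 * (w i * N : ℕ) - μ i - ν i + 2))) =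
      2 * N * (∑ i, w i * (μ i * ν i) : ℕ) - (∑ i, μ i * ν i * (μ i + ν i) : ℕ) +
        2 * (∑ i, μ i * ν i : ℕ) := by
    push_cast
    rw [Finset.mul_sum, Finset.mul_sum, ← Finset.sum_sub_distrib, ← Finset.sum_add_distrib]
    apply Finset.sum_congr rfl
    intro i _
    ring
  rw [h5] at hmainZ
  have h6 : ((κ * (a * b) : ℕ) : ℤ) + 1 ≤ (∑ i, w i * (μ i * ν i) : ℕ) := by exact_mod_cast hcon
  have h7 : (0 : ℤ) ≤ (∑ i, μ i * ν i : ℕ) := by positivity
  have h8 : (N : ℤ) = (a + b : ℕ) + (∑ i, (μ i + ν i) : ℕ) + 4 * (a * b) +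
      (∑ i, μ i * ν i * (μ i + ν i) : ℕ) + 1 := by
    rw [hN]; push_cast; ring
  have h9 : (0 : ℤ) ≤ N := by positivity
  have h10 : (0 : ℤ) ≤ (∑ i, (μ i + ν i) : ℕ) := by positivity
  have h11 : (0 : ℤ) ≤ a * b * (a + b : ℕ) := by positivity
  have h12 : (0 : ℤ) ≤ (a * b : ℤ) := by positivity
  have h13 : (0 : ℤ) ≤ (∑ i, μ i * ν i * (μ i + ν i) : ℕ) := by positivity
  have h14 : (0 : ℤ) ≤ ((a + b : ℕ) : ℤ) := by positivity
  push_cast at hmainZ h6 h7 h8 h10 h11 h13 h14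
  nlinarith [mul_le_mul_of_nonneg_left h6 h9]

end Pool.Agent.Lib.P5c592f
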