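import Mathlib
import Pool.Agent.Lib.P5c592f.Bezout3

set_option autoImplicit false

namespace Pool.Agent.Lib.P5c592f

open MvPolynomial

variable {k : Type*} [Field k] {n : ℕ} {ι : Type*}

theorem finrank_quot_mulQ (A : MvPolynomial (Fin (n + 1)) k) (μ M : ℕ) (hA : lord A = μ)
    (hM : μ ≤ M) :
    (M + n).choose (n + 1) ≤
      Module.finrank k (Q k (n + 1) M ⧸ LinearMap.range (mulQ A (M - μ) M (mulQ_hyp hA.ge))) +
        (M - μ + n).choose (n + 1) := by
  have h2 := Submodule.finrank_quotient_add_finrank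
    (LinearMap.range (mulQ A (M - μ) M (mulQ_hyp hA.ge)))
  rw [finrank_Q, LinearMap.finrank_range_of_inj (mulQ_injective hA _ (by omega)), finrank_Q] at h2
  omega

theorem one_form_ineq [Fintype ι] (v : ι → Fin (n + 2) → k) (M : ι → ℕ) (K : ℕ)
    (hsurj : ∀ u : ι → MvPolynomial (Fin (n + 1)) k,
      ∃ F : MvPolynomial (Fin (n + 2)) k, F.IsHomogeneous K ∧
        ∀ i, phi (v i) F - u i ∈ idealOfVars (Fin (n + 1)) k ^ (M i))
    {A : MvPolynomial (Fin (n + 2)) k} {a : ℕ} (hA : A.IsHomogeneous a)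
    (hA0 : A ≠ 0) (hK : a ≤ K)
    (μ : ι → ℕ) (hμ : ∀ i, lord (phi (v i) A) = μ i) (hM : ∀ i, μ i ≤ M i) :
    (∑ i, (M i + n).choose (n + 1)) + (K - a + (n + 1)).choose (n + 1) ≤
    (∑ i, (M i - μ i + n).choose (n + 1)) + (K + (n + 1)).choose (n + 1) := by
  classical
  let V := homogeneousSubmodule (Fin (n + 2)) k K
  let W : Submodule k (MvPolynomial (Fin (n + 2)) k) := mulSub A (K - a)
  have hWV : W ≤ V := by
    have := mulSub_le (j := K - a) hA
    have h : a + (K - a) = K := by omega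
    rwa [h] at this
  let N : ∀ i, Submodule k (Q k (n + 1) (M i)) := fun i =>
    LinearMap.range (mulQ (phi (v i) A) (M i - μ i) (M i) (mulQ_hyp (hμ i).ge))
  let g : ∀ i, MvPolynomial (Fin (n + 2)) k →ₗ[k] (Q k (n + 1) (M i) ⧸ N i) :=
    fun i => (N i).mkQ ∘ₗ
      (Submodule.mkQ ((idealOfVars (Fin (n + 1)) k ^ (M i)).restrictScalars k)) ∘ₗ
        (phi (v i)).toLinearMap
  have hg : ∀ F i, g i F = (N i).mkQ (Submodule.Quotient.mk (phi (v i) F)) := fun F i => rfl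
  have h1 := joint_surj_ineq (k := k) (V := V) (fun i => Q k (n + 1) (M i) ⧸ N i)
    (fun i => (g i).domRestrict V) (W.comap V.subtype) (by
      rintro i ⟨F, hFV⟩ hF
      rw [Submodule.mem_comap] at hF
      show g i F = 0
      obtain ⟨H, _, rfl⟩ := mem_mulSub.1 hF
      rw [hg, Submodule.mkQ_apply, Submodule.Quotient.mk_eq_zero]
      refine ⟨Submodule.Quotient.mk (phi (v i) H), ?_⟩
      rw [mulQ_mk, map_mul]) (by
      intro y
      have h1 : ∀ i, ∃ u : MvPolynomial (Fin (n + 1)) k,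
          (N i).mkQ (Submodule.Quotient.mk u) = y i := by
        intro i
        obtain ⟨x, hx⟩ := Submodule.mkQ_surjective (N i) (y i)
        obtain ⟨u, hu⟩ := Submodule.Quotient.mk_surjective _ x
        exact ⟨u, by rw [hu, hx]⟩
      choose u hu using h1
      obtain ⟨F, hF, hFu⟩ := hsurj u
      refine ⟨⟨F, hF⟩, ?_⟩
      intro i
      show g i F = y i
      rw [hg, ← hu i]
      congr 1
      rw [Submodule.Quotient.eq]
      exact hFu i)
  rw [finrank_homogeneousSubmodule] at h1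
  have h3 : Module.finrank k (W.comap V.subtype) = Module.finrank k W :=
    (Submodule.comapSubtypeEquivOfLe hWV).finrank_eq
  have h4 : Module.finrank k W = (K - a + (n + 1)).choose (n + 1) := finrank_mulSub hA0 (K - a)
  have h5 : ∑ i, (M i + n).choose (n + 1) ≤
      ∑ i, (Module.finrank k (Q k (n + 1) (M i) ⧸ N i) + (M i - μ i + n).choose (n + 1)) := by
    apply Finset.sum_le_sum
    intro i _
    exact finrank_quot_mulQ _ _ _ (hμ i) (hM i)
  rw [Finset.sum_add_distrib] at h5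
  omega

theorem fd_local (M μ : ℕ) (h : μ ≤ M) :
    (2 : ℤ) * (((M + 1).choose 2 : ℕ) - ((M - μ + 1).choose 2 : ℕ)) = μ * (2 * M - μ + 1) := by
  have h1 := two_choose M
  have h3 := two_choose (M - μ)
  have e3 : ((M - μ : ℕ) : ℤ) = M - μ := by omega
  rw [e3] at h3
  linear_combination h1 - h3

/-- asymptotic inequality `Σ w μ ≤ κ a` in the plane -/
theorem bezout2_one [Fintype ι] (v : ι → Fin 3 → k) (w : ι → ℕ) (κ : ℕ) (hκ : 1 ≤ κ)
    (hw : ∀ i, 1 ≤ w i) (hJ : Jets v w κ)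
    {A : MvPolynomial (Fin 3) k} {a : ℕ} (hA : A.IsHomogeneous a) (hA0 : A ≠ 0)
    (μ : ι → ℕ) (hμ : ∀ i, lord (phi (v i) A) = μ i) :
    ∑ i, w i * μ i ≤ κ * a := by
  by_contra hcon
  rw [not_le] at hcon
  set N : ℕ := a + (∑ i, μ i) + 3 * a + (∑ i, μ i * μ i) + 1 with hN
  have hsum : ∀ i, μ i ≤ ∑ i, μ i := fun i =>
    Finset.single_le_sum (f := fun i => μ i) (fun _ _ => Nat.zero_le _) (Finset.mem_univ i)
  have hM : ∀ i, μ i ≤ w i * N := by
    intro i
    have h1 := hsum i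
    have h2 : 1 * N ≤ w i * N := Nat.mul_le_mul_right _ (hw i)
    omega
  have hK : a ≤ κ * N := by
    have h2 : 1 * N ≤ κ * N := Nat.mul_le_mul_right _ hκ
    omega
  have hmain := one_form_ineq (n := 1) v (fun i => w i * N) (κ * N) (hJ N) hA hA0 hK μ hμ hM
  have hglob := fd_local (κ * N + 1) a (by omega)
  have hloc : ∀ i, (2 : ℤ) * (((w i * N + 1).choose 2 : ℕ) - ((w i * N - μ i + 1).choose 2 : ℕ)) =
        μ i * (2 * (w i * N : ℕ) - μ i + 1) := fun i => fd_local (w i * N) (μ i) (hM i)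
  have hmainZ : (2 : ℤ) * ∑ i, (((w i * N + 1).choose 2 : ℕ) - ((w i * N - μ i + 1).choose 2 : ℕ) : ℤ) ≤
      2 * (((κ * N + 2).choose 2 : ℕ) - ((κ * N - a + 2).choose 2 : ℕ)) := by
    rw [Finset.sum_sub_distrib]
    have hm : ((∑ i, (w i * N + 1).choose 2 + (κ * N - a + 2).choose 2 : ℕ) : ℤ) ≤
      ((∑ i, (w i * N - μ i + 1).choose 2 + (κ * N + 2).choose 2 : ℕ) : ℤ) := by
      exact_mod_cast hmain
    push_cast at hm ⊢
    linarith
  rw [Finset.mul_sum, Finset.sum_congr rfl (fun i _ => hloc i)] at hmainZ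
  have e1 : κ * N + 1 + 1 = κ * N + 2 := by omega
  have e3 : κ * N + 1 - a + 1 = κ * N - a + 2 := by omega
  rw [e1, e3] at hglob
  rw [hglob] at hmainZ
  have h5 : (∑ i, ((μ i : ℤ) * (2 * (w i * N : ℕ) - μ i + 1))) =
      2 * N * (∑ i, w i * μ i : ℕ) - (∑ i, μ i * μ i : ℕ) + (∑ i, μ i : ℕ) := by
    push_cast
    rw [Finset.mul_sum, ← Finset.sum_sub_distrib, ← Finset.sum_add_distrib]
    apply Finset.sum_congr rfl
    intro i _
    ring
  rw [h5] at hmainZ
  have h6 : ((κ * a : ℕ) : ℤ) + 1 ≤ (∑ i, w i * μ i : ℕ) := by exact_mod_cast hcon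
  have h7 : (0 : ℤ) ≤ (∑ i, μ i : ℕ) := by positivity
  have h8 : (N : ℤ) = a + (∑ i, μ i : ℕ) + 3 * a + (∑ i, μ i * μ i : ℕ) + 1 := by
    rw [hN]; push_cast; ring
  have h9 : (0 : ℤ) ≤ N := by positivity
  have h13 : (0 : ℤ) ≤ (∑ i, μ i * μ i : ℕ) := by positivity
  have h14 : (0 : ℤ) ≤ (a : ℤ) := by positivity
  push_cast at hmainZ h6 h7 h8 h13
  nlinarith [mul_le_mul_of_nonneg_left h6 h9]

theorem sd_plane (M μ ν : ℕ) (h : μ + ν ≤ M) :
    ((((M + 1).choose 2 : ℕ) : ℤ) + ((M - μ - ν + 1).choose 2 : ℕ)) -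
      (((M - μ + 1).choose 2 : ℕ) + ((M - ν + 1).choose 2 : ℕ)) = μ * ν := by
  have h1 := two_choose M
  have h2 := two_choose (M - μ - ν)
  have h3 := two_choose (M - μ)
  have h4 := two_choose (M - ν)
  have e2 : ((M - μ - ν : ℕ) : ℤ) = M - μ - ν := by omega
  have e3 : ((M - μ : ℕ) : ℤ) = M - μ := by omega
  have e4 : ((M - ν : ℕ) : ℤ) = M - ν := by omega
  rw [e2] at h2
  rw [e3] at h3
  rw [e4] at h4
  have h5 : (2 : ℤ) * (((((M + 1).choose 2 : ℕ) : ℤ) + ((M - μ - ν + 1).choose 2 : ℕ)) -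
      (((M - μ + 1).choose 2 : ℕ) + ((M - ν + 1).choose 2 : ℕ))) = 2 * (μ * ν) := by
    linear_combination h1 + h2 - h3 - h4
  linarith

/-- Bezout inequality for two plane curves without common component -/
theorem bezout2 [Fintype ι] (v : ι → Fin 3 → k) (w : ι → ℕ) (κ : ℕ) (hκ : 1 ≤ κ)
    (hw : ∀ i, 1 ≤ w i) (hJ : Jets v w κ)
    {A B : MvPolynomial (Fin 3) k} {a b : ℕ} (hA : A.IsHomogeneous a)
    (hAp : Prime A) (hB : B.IsHomogeneous b) (hAB : ¬ A ∣ B)
    (μ ν : ι → ℕ) (hμ : ∀ i, lord (phi (v i) A) = μ i)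
    (hν : ∀ i, (ν i : ℕ∞) ≤ lord (phi (v i) B)) :
    ∑ i, μ i * ν i ≤ a * b := by
  set N : ℕ := (a + b) + (∑ i, (μ i + ν i)) with hN
  have hsum : ∀ i, μ i + ν i ≤ ∑ i, (μ i + ν i) := fun i =>
    Finset.single_le_sum (f := fun i => μ i + ν i) (fun _ _ => Nat.zero_le _) (Finset.mem_univ i)
  have hM : ∀ i, μ i + ν i ≤ w i * N := by
    intro i
    have h1 := hsum i
    have h2 : 1 * N ≤ w i * N := Nat.mul_le_mul_right _ (hw i)
    omega
  have hK : a + b ≤ κ * N := by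
    have h2 : 1 * N ≤ κ * N := Nat.mul_le_mul_right _ hκ
    omega
  have hmain := two_form_ineq (n := 1) v (fun i => w i * N) (κ * N) (hJ N) hA hAp hB hAB hK μ ν hμ hν hM
  have hglob := sd_plane (κ * N + 1) a b (by omega)
  have hloc : ∀ i, ((((w i * N + 1).choose 2 : ℕ) : ℤ) + ((w i * N - μ i - ν i + 1).choose 2 : ℕ)) -
      (((w i * N - μ i + 1).choose 2 : ℕ) + ((w i * N - ν i + 1).choose 2 : ℕ)) =
        μ i * ν i := fun i => sd_plane (w i * N) (μ i) (ν i) (hM i)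
  have hmainZ : ∑ i, (((((w i * N + 1).choose 2 : ℕ) : ℤ) + ((w i * N - μ i - ν i + 1).choose 2 : ℕ)) -
      (((w i * N - μ i + 1).choose 2 : ℕ) + ((w i * N - ν i + 1).choose 2 : ℕ))) ≤
      ((((κ * N + 2).choose 2 : ℕ) : ℤ) + ((κ * N - a - b + 2).choose 2 : ℕ)) -
      (((κ * N - a + 2).choose 2 : ℕ) + ((κ * N - b + 2).choose 2 : ℕ)) := by
    rw [Finset.sum_sub_distrib]
    have hm : ((∑ i, ((w i * N + 1).choose 2 + (w i * N - μ i - ν i + 1).choose 2) +
      ((κ * N - a + 2).choose 2 + (κ * N - b + 2).choose 2) : ℕ) : ℤ) ≤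
      ((∑ i, ((w i * N - μ i + 1).choose 2 + (w i * N - ν i + 1).choose 2) +
      ((κ * N + 2).choose 2 + (κ * N - a - b + 2).choose 2) : ℕ) : ℤ) := by
      exact_mod_cast hmain
    push_cast at hm ⊢
    linarith
  rw [Finset.sum_congr rfl (fun i _ => hloc i)] at hmainZ
  have e1 : κ * N + 1 + 1 = κ * N + 2 := by omega
  have e2 : κ * N + 1 - a - b + 1 = κ * N - a - b + 2 := by omega
  have e3 : κ * N + 1 - a + 1 = κ * N - a + 2 := by omega
  have e4 : κ * N + 1 - b + 1 = κ * N - b + 2 := by omega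
  rw [e1, e2, e3, e4] at hglob
  rw [hglob] at hmainZ
  exact_mod_cast hmainZ

end Pool.Agent.Lib.P5c592f
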