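import Mathlib
import Pool.Agent.Lib.P5c592f.Bezout

set_option autoImplicit false

namespace Pool.Agent.Lib.P5c592f

open MvPolynomial

variable {k : Type*} [Field k] {n : ℕ} {ι : Type*}

theorem phi_iota {v : Fin (n + 1) → k} (hv : v ≠ 0) (u : MvPolynomial (Fin n) k) :
    phi v (iota v u) = u := by
  have hc := chart_spec hv
  have h : (phi v).comp (iota v) = AlgHom.id k (MvPolynomial (Fin n) k) := by
    apply MvPolynomial.algHom_ext
    intro j
    simp only [AlgHom.comp_apply, iota_X, map_sub, map_mul, phi_X, rho_X_succAbove, rho_X_same,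
      add_zero, AlgHom.id_apply]
    rw [MvPolynomial.algHom_C, algebraMap_eq, ← map_mul]
    have h1 : v ((chart v).succAbove j) / v (chart v) * v (chart v) = v ((chart v).succAbove j) := by
      field_simp
    rw [h1]
    ring
  exact congrArg (fun f => f u) h

theorem iota_hom (v : Fin (n + 1) → k) {u : MvPolynomial (Fin n) k} {d : ℕ}
    (hu : u.IsHomogeneous d) : (iota v u).IsHomogeneous d := by
  have := hu.aeval (fun j => X ((chart v).succAbove j)
    - C (v ((chart v).succAbove j) / v (chart v)) * X (chart v)) (n := 1) (fun j =>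
      (isHomogeneous_X _ _).sub (isHomogeneous_C_mul_X _ _))
  simpa [iota] using this

/-- every jet is the expansion of a form of given degree -/
theorem exists_hom_lift {v : Fin (n + 1) → k} (hv : v ≠ 0) (u : MvPolynomial (Fin n) k) (M : ℕ) :
    ∃ G : MvPolynomial (Fin (n + 1)) k, G.IsHomogeneous M ∧
      phi v G - u ∈ idealOfVars (Fin n) k ^ (M + 1) := by
  classical
  have hc := chart_spec hv
  refine ⟨∑ γ ∈ u.support.filter (fun γ => γ.degree ≤ M),
    iota v (monomial γ (u.coeff γ)) * (C (1 / v (chart v)) * X (chart v)) ^ (M - γ.degree), ?_, ?_⟩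
  · apply IsHomogeneous.sum
    intro γ hγ
    rw [Finset.mem_filter] at hγ
    have h1 := iota_hom v (isHomogeneous_monomial (u.coeff γ) (rfl : γ.degree = γ.degree))
    have h2 := (isHomogeneous_C_mul_X (1 / v (chart v)) (chart v)).pow (M - γ.degree)
    have h3 := h1.mul h2
    have h4 : γ.degree + 1 * (M - γ.degree) = M := by omega
    rwa [h4] at h3
  · have h1 : ∀ γ, phi v (iota v (monomial γ (u.coeff γ)) *
        (C (1 / v (chart v)) * X (chart v)) ^ (M - γ.degree)) = monomial γ (u.coeff γ) := by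
      intro γ
      rw [map_mul, map_pow, map_mul, phi_iota hv, phi_X, rho_X_same, add_zero,
        MvPolynomial.algHom_C, algebraMap_eq, ← map_mul, one_div_mul_cancel hc, map_one, one_pow,
        mul_one]
    rw [map_sum, Finset.sum_congr rfl (fun γ _ => h1 γ)]
    have hsplit : u = (∑ γ ∈ u.support.filter (fun γ => γ.degree ≤ M), monomial γ (u.coeff γ)) +
        (∑ γ ∈ u.support.filter (fun γ => ¬ γ.degree ≤ M), monomial γ (u.coeff γ)) := by
      conv_lhs => rw [u.as_sum]
      exact (Finset.sum_filter_add_sum_filter_not _ _ _).symm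
    have h2 : (∑ γ ∈ u.support.filter (fun γ => γ.degree ≤ M), monomial γ (u.coeff γ)) - u =
        - (∑ γ ∈ u.support.filter (fun γ => ¬ γ.degree ≤ M), monomial γ (u.coeff γ)) := by
      linear_combination (-1 : MvPolynomial (Fin n) k) * hsplit
    rw [h2]
    apply neg_mem
    apply Ideal.sum_mem
    intro γ hγ
    rw [Finset.mem_filter] at hγ
    rw [mem_pow_idealOfVars_iff']
    intro x hx
    rw [coeff_monomial, if_neg]
    rintro rfl
    omega

theorem exists_inv_mod {u : MvPolynomial (Fin n) k} (hu : constantCoeff u ≠ 0) (M : ℕ) :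
    ∃ w, w * u - 1 ∈ idealOfVars (Fin n) k ^ M := by
  have h1 : Ideal.span {u} ⊔ idealOfVars (Fin n) k = ⊤ := by
    rw [Ideal.eq_top_iff_one]
    have h2 : u - C (constantCoeff u) ∈ idealOfVars (Fin n) k := by
      have : u - C (constantCoeff u) ∈ idealOfVars (Fin n) k ^ 1 := by
        rw [mem_pow_idealOfVars_iff']
        intro x hx
        have hx0 : x = 0 := by
          have : x.degree = 0 := by omega
          exact (Finsupp.degree_eq_zero_iff x).1 this
        subst hx0
        simp [constantCoeff_eq]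
      simpa using this
    have h3 : C (constantCoeff u) ∈ Ideal.span {u} ⊔ idealOfVars (Fin n) k := by
      have h4 : C (constantCoeff u) = u - (u - C (constantCoeff u)) := by ring
      rw [h4]
      exact sub_mem (Ideal.mem_sup_left (Ideal.mem_span_singleton_self u)) (Ideal.mem_sup_right h2)
    have h5 := Ideal.mul_mem_left (Ideal.span {u} ⊔ idealOfVars (Fin n) k) (C (constantCoeff u)⁻¹) h3
    rwa [← map_mul, inv_mul_cancel₀ hu, map_one] at h5
  have h2 : Ideal.span {u} ⊔ idealOfVars (Fin n) k ^ M = ⊤ := Ideal.sup_pow_eq_top h1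
  rw [Ideal.eq_top_iff_one, Submodule.mem_sup] at h2
  obtain ⟨y, hy, z, hz, hyz⟩ := h2
  obtain ⟨w, rfl⟩ := Ideal.mem_span_singleton'.1 hy
  refine ⟨w, ?_⟩
  have : w * u - 1 = -z := by rw [← hyz]; ring
  rw [this]
  exact neg_mem hz

theorem exists_mul_lift {v : Fin (n + 1) → k} (hv : v ≠ 0) (P : MvPolynomial (Fin (n + 1)) k)
    (hP : eval v P ≠ 0) (u : MvPolynomial (Fin n) k) (M : ℕ) :
    ∃ G : MvPolynomial (Fin (n + 1)) k, G.IsHomogeneous M ∧
      phi v (P * G) - u ∈ idealOfVars (Fin n) k ^ M := by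
  rw [← constantCoeff_phi] at hP
  obtain ⟨w, hw⟩ := exists_inv_mod hP M
  obtain ⟨G, hG, hGu⟩ := exists_hom_lift hv (w * u) M
  refine ⟨G, hG, ?_⟩
  have h1 : phi v G - w * u ∈ idealOfVars (Fin n) k ^ M :=
    Ideal.pow_le_pow_right (Nat.le_succ M) hGu
  have h2 : phi v (P * G) - u = phi v P * (phi v G - w * u) + u * (w * phi v P - 1) := by
    rw [map_mul]; ring
  rw [h2]
  exact add_mem (Ideal.mul_mem_left _ _ h1) (Ideal.mul_mem_left _ _ hw)

theorem mem_pow_of_le_lord {u : MvPolynomial (Fin n) k} {a b : ℕ} (h : (a : ℕ∞) ≤ lord u)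
    (hb : b ≤ a) : u ∈ idealOfVars (Fin n) k ^ b := by
  rw [← le_lord_iff_mem]
  exact le_trans (by exact_mod_cast hb) h

theorem lord_phi_pow_mul_mem {v : Fin (n + 1) → k} {H G : MvPolynomial (Fin (n + 1)) k} {a N : ℕ}
    (h : (a : ℕ∞) ≤ lord (phi v H)) : phi v (H ^ N * G) ∈ idealOfVars (Fin n) k ^ (a * N) := by
  rw [map_mul, map_pow]
  apply Ideal.mul_mem_right
  rw [pow_mul]
  apply Ideal.pow_mem_pow
  rw [← le_lord_iff_mem]
  exact h

/-- jets from separating forms -/
theorem Jets.of_sep [Fintype ι] [DecidableEq ι] {v : ι → Fin (n + 1) → k} (hv : ∀ i, v i ≠ 0)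
    {w h : ι → ℕ} {κ : ℕ} (H : ι → MvPolynomial (Fin (n + 1)) k) (hH : ∀ i, (H i).IsHomogeneous (h i))
    (hne : ∀ i, eval (v i) (H i) ≠ 0) (hord : ∀ i j, i ≠ j → (w j : ℕ∞) ≤ lord (phi (v j) (H i)))
    (hκ : ∀ i, h i + w i = κ) : Jets v w κ := by
  intro N u
  have h1 : ∀ i, ∃ G : MvPolynomial (Fin (n + 1)) k, G.IsHomogeneous (w i * N) ∧
      phi (v i) (H i ^ N * G) - u i ∈ idealOfVars (Fin n) k ^ (w i * N) := by
    intro i
    apply exists_mul_lift (hv i)
    rw [map_pow]
    exact pow_ne_zero _ (hne i)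
  choose G hG hGu using h1
  refine ⟨∑ i, H i ^ N * G i, ?_, ?_⟩
  · apply IsHomogeneous.sum
    intro i _
    have := ((hH i).pow N).mul (hG i)
    rwa [← Nat.add_mul, hκ i] at this
  · intro j
    rw [map_sum, ← Finset.add_sum_erase _ _ (Finset.mem_univ j), add_sub_right_comm]
    apply add_mem (hGu j)
    apply Ideal.sum_mem
    intro i hi
    rw [Finset.mem_erase] at hi
    exact lord_phi_pow_mul_mem (hord i j hi.1)

/-- adding a point to a jet system -/
theorem Jets.option {v : ι → Fin (n + 1) → k} {w : ι → ℕ} {κ : ℕ} (hJ : Jets v w κ)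
    {q : Fin (n + 1) → k} (hq : q ≠ 0) {H : MvPolynomial (Fin (n + 1)) k} {h wq : ℕ}
    (hH : H.IsHomogeneous h) (hne : eval q H ≠ 0) (hord : ∀ i, (w i : ℕ∞) ≤ lord (phi (v i) H))
    (hκ : h + wq = κ) : Jets (fun o : Option ι => o.elim q v) (fun o : Option ι => o.elim wq w) κ := by
  intro N u
  obtain ⟨F, hF, hFu⟩ := hJ N (fun i => u (some i))
  obtain ⟨G, hG, hGu⟩ := exists_mul_lift hq (H ^ N) (by rw [map_pow]; exact pow_ne_zero _ hne)
    (u none - phi q F) (wq * N)
  refine ⟨F + H ^ N * G, ?_, ?_⟩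
  · have := (hH.pow N).mul hG
    rw [← Nat.add_mul, hκ] at this
    exact hF.add this
  · intro o
    cases o with
    | none =>
      show phi q (F + H ^ N * G) - u none ∈ _
      have : phi q (F + H ^ N * G) - u none = phi q (H ^ N * G) - (u none - phi q F) := by
        rw [map_add]; ring
      rw [this]
      exact hGu
    | some i =>
      show phi (v i) (F + H ^ N * G) - u (some i) ∈ _
      have : phi (v i) (F + H ^ N * G) - u (some i) =
          (phi (v i) F - u (some i)) + phi (v i) (H ^ N * G) := by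
        rw [map_add]; ring
      rw [this]
      exact add_mem (hFu i) (lord_phi_pow_mul_mem (hord i))

end Pool.Agent.Lib.P5c592f
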