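import Mathlib
import Pool.Agent.Lib.P5c592f.Comp
import Pool.Agent.Lib.P5c592f.Bezout3
import Pool.Agent.Lib.P5c592f.JetsL

set_option autoImplicit false

namespace Pool.Agent.Lib.P5c592f

open MvPolynomial

variable {k : Type*} [Field k]

theorem exists_pderiv_ne [IsAlgClosed k] {n : ℕ} {C : MvPolynomial (Fin (n + 1)) k}
    (hC : Irreducible C) (hCh : C.IsHomogeneous C.totalDegree) : ∃ l, pderiv l C ≠ 0 := by
  by_contra h
  push Not at h
  have h1 := totalDegree_irr hC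
  obtain ⟨p, g, hp, hg⟩ := exists_pow_of_pderiv hCh (by omega) hC.ne_zero h
  rw [hg] at hC
  exact not_irreducible_pow (by omega) hC

theorem not_dvd_of_lt {n : ℕ} {C G : MvPolynomial (Fin (n + 1)) k} (hG : G ≠ 0)
    (h : G.totalDegree < C.totalDegree) : ¬ C ∣ G := by
  rintro ⟨H, rfl⟩
  rw [totalDegree_mul_of_isDomain (left_ne_zero_of_mul hG) (right_ne_zero_of_mul hG)] at h
  omega

theorem T_coeff_one_not_dvd {n : ℕ} {C : MvPolynomial (Fin (n + 1)) k}
    (hC : Irreducible C) (hCh : C.IsHomogeneous C.totalDegree) {w : Fin (n + 1) → k}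
    (hw : (T w C).coeff 1 ≠ 0) : ¬ C ∣ (T w C).coeff 1 := by
  apply not_dvd_of_lt hw
  have h1 := (T_coeff_hom hCh w 1).totalDegree hw
  have h2 := totalDegree_irr hC
  omega

theorem T_coeff_not_dvd {n : ℕ} {C R : MvPolynomial (Fin (n + 1)) k} {e : ℕ}
    (hC : Irreducible C) (hCh : C.IsHomogeneous C.totalDegree) (hR : ¬ C ∣ R)
    {w : Fin (n + 1) → k} (hw : (T w C).coeff 1 ≠ 0) : ¬ C ∣ (T w (C ^ e * R)).coeff e := by
  intro h
  have h1 := dvd_sub h (T_coeff_mod w C R e)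
  have h2 : (T w (C ^ e * R)).coeff e -
      ((T w (C ^ e * R)).coeff e - ((T w C).coeff 1) ^ e * R) = ((T w C).coeff 1) ^ e * R := by ring
  rw [h2] at h1
  rcases hC.prime.dvd_or_dvd h1 with h3 | h3
  · exact T_coeff_one_not_dvd hC hCh hw (hC.prime.dvd_of_dvd_pow h3)
  · exact hR h3

/-- unisolvent data -/
structure Unis (S : Set (Fin 4 → k)) (t : ℕ) where
  p : Fin ((t + 3).choose 3) → (Fin 4 → k)
  f : Fin ((t + 3).choose 3) → MvPolynomial (Fin 4) k
  mem : ∀ i, p i ∈ S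
  hom : ∀ i, (f i).IsHomogeneous t
  diag : ∀ i, eval (p i) (f i) = 1
  off : ∀ i j, i ≠ j → eval (p j) (f i) = 0

theorem exists_Unis {S : Set (Fin 4 → k)} {t : ℕ} (hH : HH S t) : Nonempty (Unis S t) := by
  obtain ⟨p, f, h1, h2, h3, h4⟩ := hH.exists_unisolvent
  exact ⟨⟨p, f, h1, h2, h3, h4⟩⟩

theorem Unis.jets {S : Set (Fin 4 → k)} {t : ℕ} (U : Unis S t) (hS0 : ∀ v ∈ S, v ≠ 0) (w : ℕ) :
    Jets U.p (fun _ => w) (w * (t + 1)) := by
  apply Jets.of_sep (fun i => hS0 _ (U.mem i)) (h := fun _ => t * w) (fun i => U.f i ^ w)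
    (fun i => (U.hom i).pow w)
  · intro i
    rw [map_pow, U.diag]
    simp
  · intro i j hij
    rw [map_pow, lord_pow]
    have h1 := (one_le_lord_phi_iff (U.p j) (U.f i)).2 (U.off i j hij)
    calc ((w : ℕ) : ℕ∞) = w * 1 := by simp
      _ ≤ w * lord (phi (U.p j) (U.f i)) := by gcongr
  · intro i; ring

theorem bezout_component [IsAlgClosed k] {S : Set (Fin 4 → k)} (hS0 : ∀ v ∈ S, v ≠ 0) {t : ℕ}
    (U : Unis S t) {d m e : ℕ} {F C R : MvPolynomial (Fin 4) k} (hF : F.IsHomogeneous d)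
    (hord : ∀ v ∈ S, (m : ℕ∞) ≤ lord (phi v F))
    (hC : Irreducible C) (hFR : F = C ^ e * R) (hCR : ¬ C ∣ R)
    (hCh : C.IsHomogeneous C.totalDegree) :
    (∑ i, nord (U.p i) C) * (m - e) ≤ (t + 1) * (C.totalDegree * (d - e)) := by
  obtain ⟨l, hl⟩ := exists_pderiv_ne hC hCh
  have hB := T_coeff_hom hF (Pi.single l 1) e
  have hnd : ¬ C ∣ (T (Pi.single l 1) F).coeff e := by
    rw [hFR]
    exact T_coeff_not_dvd hC hCh hCR (by rw [T_single_coeff_one]; exact hl)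
  have hJ := U.jets hS0 1
  rw [one_mul] at hJ
  have h1 := bezout3 U.p (fun _ => 1) (t + 1) (by omega) (fun _ => le_rfl) hJ hCh hC.prime hB hnd
    (fun i => nord (U.p i) C) (fun _ => m - e)
    (fun i => nord_spec (hS0 _ (U.mem i)) hCh hC.ne_zero)
    (fun i => lord_T_coeff (hS0 _ (U.mem i)) hF (hord _ (U.mem i)) _ _)
  simp only [one_mul] at h1
  rwa [← Finset.sum_mul] at h1

/-- the averaged inequality for one component of small multiplicity -/
theorem comp_ineq [IsAlgClosed k] {S : Set (Fin 4 → k)} (hS0 : ∀ v ∈ S, v ≠ 0) {t : ℕ}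
    (U : Unis S t) {d m e : ℕ} {F C R : MvPolynomial (Fin 4) k} (hF : F.IsHomogeneous d)
    (hord : ∀ v ∈ S, (m : ℕ∞) ≤ lord (phi v F))
    (hC : Irreducible C) (hFR : F = C ^ e * R) (hCR : ¬ C ∣ R)
    (hCh : C.IsHomogeneous C.totalDegree) (hm : 1 ≤ m) (hmd : m ≤ d) (he : 3 * e ≤ m) :
    2 * m * (m - e : ℤ) * (∑ i, nord (U.p i) C : ℕ) +
      (t + 1) * C.totalDegree * ((d - m) * (m - 3 * e)) ≤
      (t + 1) * C.totalDegree * (3 * d - m) * (m - e) := by
  have h1 := bezout_component hS0 U hF hord hC hFR hCR hCh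
  have h2 : ((∑ i, nord (U.p i) C : ℕ) : ℤ) * (m - e) ≤ (t + 1) * (C.totalDegree * (d - e)) := by
    have e1 : ((m - e : ℕ) : ℤ) = m - e := by omega
    have e2 : ((d - e : ℕ) : ℤ) = d - e := by omega
    rw [← e1, ← e2]
    exact_mod_cast h1
  have h3 : (0 : ℤ) ≤ 2 * m := by positivity
  have h4 := mul_le_mul_of_nonneg_left h2 h3
  nlinarith

end Pool.Agent.Lib.P5c592f
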