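import Mathlib
import Pool.Agent.Lib.P5c592f.Unis

set_option autoImplicit false

namespace Pool.Agent.Lib.P5c592f

open MvPolynomial

variable {k : Type*} [Field k] {n : ℕ}

/-- the linear form attached to a functional -/
noncomputable def linForm (c : (Fin (n + 1) → k) →ₗ[k] k) : MvPolynomial (Fin (n + 1)) k :=
  ∑ i, C (c (Pi.single i 1)) * X i

theorem eval_linForm (c : (Fin (n + 1) → k) →ₗ[k] k) (v : Fin (n + 1) → k) :
    eval v (linForm c) = c v := by
  unfold linForm
  simp only [map_sum, map_mul, eval_C, eval_X]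
  conv_rhs => rw [← LinearMap.sum_single_apply (fun _ => k) v, map_sum]
  apply Finset.sum_congr rfl
  intro i _
  have : Pi.single i (v i) = v i • (Pi.single i (1 : k) : Fin (n + 1) → k) := by
    rw [← Pi.single_smul]; simp
  rw [this, map_smul, smul_eq_mul, mul_comm]

theorem linForm_hom (c : (Fin (n + 1) → k) →ₗ[k] k) : (linForm c).IsHomogeneous 1 := by
  apply IsHomogeneous.sum
  intro i _
  exact isHomogeneous_C_mul_X _ _

theorem linForm_ne {c : (Fin (n + 1) → k) →ₗ[k] k} (hc : c ≠ 0) : linForm c ≠ 0 := by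
  intro h
  apply hc
  ext i
  have := eval_linForm c (Pi.single i 1)
  rw [h, map_zero] at this
  simp [← this]

theorem eq_zero_of_indep {ι : Type*} (c : ι → ((Fin (n + 1) → k) →ₗ[k] k)) (T : Finset ι)
    (hT : T.card = n + 1) (hli : LinearIndepOn k c (T : Set ι)) (v : Fin (n + 1) → k)
    (hv : ∀ i ∈ T, c i v = 0) : v = 0 := by
  classical
  have h1 : LinearIndependent k (fun i : T => c i) := hli
  have h2 : Submodule.span k (Set.range (fun i : T => c i)) = ⊤ := by
    apply h1.span_eq_top_of_card_eq_finrank'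
    rw [Fintype.card_coe, hT, Subspace.dual_finrank_eq]
    simp
  have h3 : ∀ φ : (Fin (n + 1) → k) →ₗ[k] k, φ v = 0 := by
    intro φ
    have h4 : φ ∈ Submodule.span k (Set.range (fun i : T => c i)) := by rw [h2]; trivial
    induction h4 using Submodule.span_induction with
    | mem x hx =>
      obtain ⟨i, rfl⟩ := hx
      exact hv i i.2
    | zero => rfl
    | add x y _ _ hx hy => rw [LinearMap.add_apply, hx, hy, add_zero]
    | smul r x _ hx => rw [LinearMap.smul_apply, hx, smul_zero]
  funext i
  exact h3 (LinearMap.proj i)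

theorem comb_lemma {ι : Type*} [DecidableEq ι] [DecidableEq k]
    (c : ι → ((Fin (n + 1) → k) →ₗ[k] k)) : ∀ (a : ℕ) (H : Finset ι) (S : Set (Fin (n + 1) → k)),
    (∀ j ∈ H, c j ≠ 0) → H.card = a + n + 1 →
    (∀ v ∈ S, v ≠ 0 ∧ n ≤ (H.filter (fun j => c j v = 0)).card) → HH S (a + 1) →
    (∀ T ⊆ H, T.card ≤ n + 1 → LinearIndepOn k c (T : Set ι)) ∧
    (∀ v : Fin (n + 1) → k, v ≠ 0 → n ≤ (H.filter (fun j => c j v = 0)).card →
      ∃ u ∈ S, ∃ r : k, v = r • u) := by
  intro a
  induction a with
  | zero =>
    intro H S hne hcard hS hHH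
    rw [zero_add] at hcard hHH
    -- for each hyperplane a point of S off it
    have h1 : ∀ j ∈ H, ∃ u ∈ S, c j u ≠ 0 := by
      intro j hj
      by_contra hcon
      push Not at hcon
      apply linForm_ne (hne j hj)
      apply hHH _ (linForm_hom _)
      intro v hv
      rw [eval_linForm]
      exact hcon v hv
    have h2 : ∀ j ∈ H, ∀ u ∈ S, c j u ≠ 0 → ∀ i ∈ H, i ≠ j → c i u = 0 := by
      intro j hj u hu hju i hi hij
      have h3 := (hS u hu).2
      have h4 : H.filter (fun j => c j u = 0) ⊆ H.erase j := by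
        intro x hx
        rw [Finset.mem_filter] at hx
        rw [Finset.mem_erase]
        refine ⟨?_, hx.1⟩
        rintro rfl
        exact hju hx.2
      have h5 : (H.erase j).card = n := by
        rw [Finset.card_erase_of_mem hj, hcard]; rfl
      have h6 := Finset.eq_of_subset_of_card_le h4 (by omega)
      have h7 : i ∈ H.erase j := Finset.mem_erase.2 ⟨hij, hi⟩
      rw [← h6, Finset.mem_filter] at h7
      exact h7.2
    have hli : LinearIndepOn k c (H : Set ι) := by
      rw [linearIndepOn_finset_iff]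
      intro f hf j hj
      obtain ⟨u, hu, hju⟩ := h1 j hj
      have h3 := congrArg (fun φ : (Fin (n + 1) → k) →ₗ[k] k => φ u) hf
      simp only [LinearMap.sum_apply, LinearMap.smul_apply, LinearMap.zero_apply, smul_eq_mul] at h3
      rw [Finset.sum_eq_single_of_mem j hj] at h3
      · exact (mul_eq_zero.1 h3).resolve_right hju
      · intro i hi hij
        rw [h2 j hj u hu hju i hi hij, mul_zero]
    refine ⟨fun T hT _ => hli.mono (by exact_mod_cast hT), ?_⟩
    intro v hv hcv
    -- some hyperplane does not contain v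
    have h3 : ∃ j ∈ H, c j v ≠ 0 := by
      by_contra hcon
      push Not at hcon
      exact hv (eq_zero_of_indep c H hcard hli v hcon)
    obtain ⟨j, hj, hjv⟩ := h3
    obtain ⟨u, hu, hju⟩ := h1 j hj
    have h4 : H.filter (fun j => c j v = 0) ⊆ H.erase j := by
      intro x hx
      rw [Finset.mem_filter] at hx
      rw [Finset.mem_erase]
      refine ⟨?_, hx.1⟩
      rintro rfl
      exact hjv hx.2
    have h5 : (H.erase j).card = n := by
      rw [Finset.card_erase_of_mem hj, hcard]; rfl
    have h6 := Finset.eq_of_subset_of_card_le h4 (by omega)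
    refine ⟨u, hu, c j v / c j u, ?_⟩
    rw [← sub_eq_zero]
    apply eq_zero_of_indep c H hcard hli
    intro i hi
    rw [map_sub, map_smul, smul_eq_mul]
    by_cases hij : i = j
    · subst hij
      field_simp
      ring
    · have h7 : i ∈ H.erase j := Finset.mem_erase.2 ⟨hij, hi⟩
      rw [← h6, Finset.mem_filter] at h7
      rw [h7.2, h2 j hj u hu hju i hi hij]
      ring
  | succ a ih =>
    intro H S hne hcard hS hHH
    have key : ∀ j ∈ H, (∀ T ⊆ H.erase j, T.card ≤ n + 1 → LinearIndepOn k c (T : Set ι)) ∧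
        (∀ v : Fin (n + 1) → k, v ≠ 0 → n ≤ ((H.erase j).filter (fun i => c i v = 0)).card →
        ∃ u ∈ {v ∈ S | eval v (linForm (c j)) ≠ 0}, ∃ r : k, v = r • u) := by
      intro j hj
      apply ih (H.erase j) {v ∈ S | eval v (linForm (c j)) ≠ 0}
      · intro i hi
        exact hne i (Finset.mem_of_mem_erase hi)
      · rw [Finset.card_erase_of_mem hj, hcard]
        omega
      · rintro v ⟨hv, hvj⟩
        refine ⟨(hS v hv).1, ?_⟩
        have h1 := (hS v hv).2
        have h2 : (H.erase j).filter (fun i => c i v = 0) = H.filter (fun i => c i v = 0) := by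
          ext i
          simp only [Finset.mem_filter, Finset.mem_erase]
          constructor
          · rintro ⟨⟨_, h3⟩, h4⟩
            exact ⟨h3, h4⟩
          · rintro ⟨h3, h4⟩
            refine ⟨⟨?_, h3⟩, h4⟩
            rintro rfl
            rw [eval_linForm] at hvj
            exact hvj h4
        rwa [h2]
      · have := hHH.residual (linForm_hom (c j)) (linForm_ne (hne j hj)) (by omega)
        exact this
    have hgen : ∀ T ⊆ H, T.card ≤ n + 1 → LinearIndepOn k c (T : Set ι) := by
      intro T hT hTc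
      have h1 : ∃ j ∈ H, j ∉ T := by
        by_contra hcon
        push Not at hcon
        have := Finset.card_le_card hcon
        omega
      obtain ⟨j, hj, hjT⟩ := h1
      apply (key j hj).1 T _ hTc
      intro i hi
      rw [Finset.mem_erase]
      refine ⟨?_, hT hi⟩
      rintro rfl
      exact hjT hi
    refine ⟨hgen, ?_⟩
    intro v hv hcv
    have h1 : ∃ j ∈ H, c j v ≠ 0 := by
      by_contra hcon
      push Not at hcon
      obtain ⟨T, hT, hTc⟩ := Finset.exists_subset_card_eq (s := H) (n := n + 1) (by omega)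
      exact hv (eq_zero_of_indep c T hTc (hgen T hT hTc.le) v (fun i hi => hcon i (hT hi)))
    obtain ⟨j, hj, hjv⟩ := h1
    have h2 : (H.erase j).filter (fun i => c i v = 0) = H.filter (fun i => c i v = 0) := by
      ext i
      simp only [Finset.mem_filter, Finset.mem_erase]
      constructor
      · rintro ⟨⟨_, h3⟩, h4⟩
        exact ⟨h3, h4⟩
      · rintro ⟨h3, h4⟩
        refine ⟨⟨?_, h3⟩, h4⟩
        rintro rfl
        exact hjv h4
    obtain ⟨u, hu, r, hr⟩ := (key j hj).2 v hv (by rwa [h2])
    exact ⟨u, hu.1, r, hr⟩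

end Pool.Agent.Lib.P5c592f
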