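import Mathlib
import Pool.Agent.Lib.P5c592f.Chud3

set_option autoImplicit false

namespace Pool.Agent.Lib.P5c592f

open MvPolynomial

variable {k : Type*} [Field k]

/-- integer form of the averaged inequality for a component -/
theorem comp_ineq' [IsAlgClosed k] {S : Set (Fin 4 → k)} (hS0 : ∀ v ∈ S, v ≠ 0) {t : ℕ}
    (U : Unis S t) {d m e : ℕ} {F C R : MvPolynomial (Fin 4) k} (hF : F.IsHomogeneous d)
    (hord : ∀ v ∈ S, (m : ℕ∞) ≤ lord (phi v F))
    (hC : Irreducible C) (hFR : F = C ^ e * R) (hCR : ¬ C ∣ R)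
    (hCh : C.IsHomogeneous C.totalDegree) (hm : 1 ≤ m) (hmd : m ≤ d) (he : 3 * e ≤ m) :
    2 * (m : ℤ) * (∑ i, nord (U.p i) C : ℕ) ≤ (t + 1) * C.totalDegree * (3 * d - m) := by
  have h1 := comp_ineq hS0 U hF hord hC hFR hCR hCh hm hmd he
  have h2 : (0 : ℤ) < m - e := by omega
  have h3 : (0 : ℤ) ≤ (t + 1) * C.totalDegree * ((d - m) * (m - 3 * e)) := by
    have a1 : (0 : ℤ) ≤ (d : ℤ) - m := by omega
    have a2 : (0 : ℤ) ≤ (m : ℤ) - 3 * e := by omega
    positivity
  have h4 : (2 * (m : ℤ) * (∑ i, nord (U.p i) C : ℕ)) * (m - e) ≤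
      ((t + 1) * C.totalDegree * (3 * d - m)) * (m - e) := by nlinarith
  exact le_of_mul_le_mul_right h4 h2

theorem sum_ineq [IsAlgClosed k] {S : Set (Fin 4 → k)} (hS0 : ∀ v ∈ S, v ≠ 0) {t : ℕ}
    (U : Unis S t) {d m : ℕ} {F : MvPolynomial (Fin 4) k} (hF : F.IsHomogeneous d) (h0 : F ≠ 0)
    (hord : ∀ v ∈ S, (m : ℕ∞) ≤ lord (phi v F)) (hm : 1 ≤ m) (hmd : m ≤ d)
    (hsm : ∀ (C R : MvPolynomial (Fin 4) k) (e : ℕ), Irreducible C → F = C ^ e * R → ¬ C ∣ R →
      3 * e ≤ m) (G : MvPolynomial (Fin 4) k) :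
    G ≠ 0 → G ∣ F →
    2 * (m : ℤ) * (∑ i, nord (U.p i) G : ℕ) ≤ (t + 1) * G.totalDegree * (3 * d - m) := by
  induction G using WfDvdMonoid.induction_on_irreducible with
  | zero => intro h; exact absurd rfl h
  | unit u hu =>
    intro _ _
    rw [totalDegree_unit hu, Finset.sum_eq_zero (fun i _ => nord_unit (hS0 _ (U.mem i)) hu)]
    simp
  | mul a i ha hi ih =>
    intro hne hdvd
    have hh := hom_of_dvd hF h0 hdvd
    obtain ⟨e, R, he1, hFR, hCR, hCh, -, -, -⟩ := split_factor hF h0 hi ((Dvd.intro _ rfl).trans hdvd)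
    have h1 := comp_ineq' hS0 U hF hord hi hFR hCR hCh hm hmd (hsm i R e hi hFR hCR)
    have h2 := ih ha ((Dvd.intro_left _ rfl).trans hdvd)
    rw [totalDegree_mul_of_isDomain hi.ne_zero ha,
      Finset.sum_congr rfl (fun j _ => nord_mul (hS0 _ (U.mem j)) hh hne), Finset.sum_add_distrib]
    push_cast at h1 h2 ⊢
    nlinarith

theorem chud3_aux [IsAlgClosed k] : ∀ (d m t : ℕ) (S : Set (Fin 4 → k))
    (F : MvPolynomial (Fin 4) k), (∀ v ∈ S, v ≠ 0) → HH S t → F.IsHomogeneous d → F ≠ 0 →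
    (∀ v ∈ S, (m : ℕ∞) ≤ lord (phi v F)) → m * (t + 3) ≤ 3 * d := by
  intro d
  induction d using Nat.strong_induction_on with
  | _ d ih =>
    intro m t S F hS0 hH hF h0 hord
    rcases Nat.eq_zero_or_pos m with rfl | hm
    · simp
    by_cases hsm : ∀ (C R : MvPolynomial (Fin 4) k) (e : ℕ), Irreducible C → F = C ^ e * R →
      ¬ C ∣ R → 3 * e ≤ m
    · -- all components have small multiplicity
      obtain ⟨U⟩ := exists_Unis hH
      obtain ⟨v0, hv0⟩ := hH.nonempty
      have hmd : m ≤ d := (le_nord (hS0 v0 hv0) hF h0 (hord v0 hv0)).trans (nord_le (hS0 v0 hv0) hF h0)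
      have h1 := sum_ineq hS0 U hF h0 hord hm hmd hsm F h0 dvd_rfl
      rw [hF.totalDegree h0] at h1
      have h2 : ((t + 3).choose 3) * m ≤ ∑ i, nord (U.p i) F := by
        have := Finset.card_nsmul_le_sum (Finset.univ) (fun i => nord (U.p i) F) m
          (fun i _ => le_nord (hS0 _ (U.mem i)) hF h0 (hord _ (U.mem i)))
        simpa using this
      have h3 := six_choose (t + 1)
      have h2' : (((t + 3).choose 3 : ℕ) : ℤ) * m ≤ (∑ i, nord (U.p i) F : ℕ) := by exact_mod_cast h2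
      have e1 : t + 1 + 2 = t + 3 := rfl
      rw [e1] at h3
      have hm0 : (0 : ℤ) < m := by exact_mod_cast hm
      -- m^2 (t+3)(t+2) ≤ 3 d (3 d - m)
      have h4 : (m : ℤ) ^ 2 * ((t + 3) * (t + 2)) ≤ 3 * d * (3 * d - m) := by
        have h5 : (6 * (m : ℤ)) * ((((t + 3).choose 3 : ℕ) : ℤ) * m) ≤
            6 * m * (∑ i, nord (U.p i) F : ℕ) :=
          mul_le_mul_of_nonneg_left h2' (by positivity)
        have h6 : (0 : ℤ) < t + 1 := by positivity
        have h7 : (t + 1 : ℤ) * ((m : ℤ) ^ 2 * ((t + 3) * (t + 2))) ≤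
            (t + 1) * (3 * d * (3 * d - m)) := by
          push_cast at h3
          nlinarith
        exact le_of_mul_le_mul_left h7 h6
      by_contra hlt
      rw [not_le] at hlt
      have h8 : (3 : ℤ) * d < m * (t + 3) := by exact_mod_cast hlt
      have h9 : (m : ℤ) ≤ d := by exact_mod_cast hmd
      have h10 : (0 : ℤ) ≤ t := by positivity
      nlinarith [mul_pos hm0 hm0]
    · push Not at hsm
      obtain ⟨C, R, e, hC, hFR, hCR, he⟩ := hsm
      have he1 : 1 ≤ e := by omega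
      have hdvd : C ∣ F := by
        rw [hFR]
        exact (dvd_pow_self C (by omega)).mul_right R
      have hR0 : R ≠ 0 := by rintro rfl; exact hCR (dvd_zero C)
      have hCh := hom_of_dvd hF h0 hdvd
      have hRh : R.IsHomogeneous R.totalDegree := hom_of_dvd hF h0 (hFR ▸ Dvd.intro_left _ rfl)
      have hd : d = e * C.totalDegree + R.totalDegree := by
        have h3 := (hCh.pow e).mul hRh
        rw [← hFR] at h3
        rw [hF.inj_right h3 h0]
        ring
      have hcases := component_cases hS0 hH hF h0 hord (m := m)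
        (by
          intro S' t' ρ R' hρ hS' hH' hR' hR0' hord'
          exact ih ρ hρ m t' S' R' hS' hH' hR' hR0' hord')
        hC he1 hFR hCh hRh hR0 hd
      have hδ := totalDegree_irr hC
      rcases hcases with ⟨h1, h2⟩ | ⟨h1, h2⟩ | h1
      · obtain ⟨s, hs⟩ := Nat.exists_eq_add_of_le h1
        have e1 : t - C.totalDegree = s := by omega
        rw [e1] at h2
        rw [hs]
        nlinarith
      · nlinarith
      · nlinarith

/-- **Chudnovsky's inequality in `P^3`** for arbitrary sets of points over an algebraically closed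
field. -/
theorem chud3 [IsAlgClosed k] {S : Set (Fin 4 → k)} (hS0 : ∀ v ∈ S, v ≠ 0) {d m t : ℕ}
    (hH : HH S t) {F : MvPolynomial (Fin 4) k} (hF : F.IsHomogeneous d) (h0 : F ≠ 0)
    (hord : ∀ v ∈ S, (m : ℕ∞) ≤ lord (phi v F)) : m * (t + 3) ≤ 3 * d :=
  chud3_aux d m t S F hS0 hH hF h0 hord

end Pool.Agent.Lib.P5c592f
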