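import Mathlib
import Pool.Agent.Lib.P5c592f.Chud3

set_option autoImplicit false

namespace Pool.Agent.Lib.P5c592f

open MvPolynomial

variable {k : Type*} [Field k] {n : ℕ}

theorem exists_point [IsAlgClosed k] {C G : MvPolynomial (Fin (n + 1)) k} (hC : Irreducible C)
    (hG : ¬ C ∣ G) : ∃ q : Fin (n + 1) → k, eval q C = 0 ∧ eval q G ≠ 0 := by
  have hP : (Ideal.span {C}).IsPrime := (Ideal.span_singleton_prime hC.ne_zero).2 hC.prime
  have h1 := IsPrime.vanishingIdeal_zeroLocus (K := k) (k := k) (Ideal.span {C})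
  have h2 : G ∉ vanishingIdeal k (zeroLocus k (Ideal.span {C})) := by
    rw [h1, Ideal.mem_span_singleton]
    exact hG
  rw [mem_vanishingIdeal_iff] at h2
  push Not at h2
  obtain ⟨q, hq, hqG⟩ := h2
  refine ⟨q, ?_, ?_⟩
  · rw [mem_zeroLocus_iff] at hq
    have := hq C (Ideal.mem_span_singleton_self C)
    rwa [MvPolynomial.aeval_eq_eval] at this
  · rwa [MvPolynomial.aeval_eq_eval] at hqG

theorem exists_tangent {C : MvPolynomial (Fin (n + 1)) k} (hC : Irreducible C)
    (hCh : C.IsHomogeneous C.totalDegree) (hδ : 2 ≤ C.totalDegree) {q : Fin (n + 1) → k}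
    {l : Fin (n + 1)} (hl : eval q (pderiv l C) ≠ 0) :
    ∃ w : Fin (n + 1) → k, eval q ((T w C).coeff 1) = 0 ∧ (T w C).coeff 1 ≠ 0 := by
  classical
  set g : Fin (n + 1) → k := fun j => eval q (pderiv j C) with hg
  have hl0 : g l ≠ 0 := hl
  -- the candidate vectors
  have key : ∀ j, (T (Pi.single j 1 - Pi.single l (g j / g l)) C).coeff 1 =
      pderiv j C - MvPolynomial.C (g j / g l) * pderiv l C := by
    intro j
    rw [T_coeff_one]
    simp only [Pi.sub_apply, map_sub, sub_mul, Finset.sum_sub_distrib]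
    congr 1
    · rw [Finset.sum_eq_single j]
      · simp
      · intro b _ hb
        rw [Pi.single_eq_of_ne hb]; simp
      · simp
    · rw [Finset.sum_eq_single l]
      · simp
      · intro b _ hb
        rw [Pi.single_eq_of_ne hb]; simp
      · simp
  by_contra hcon
  push Not at hcon
  have h1 : ∀ j, pderiv j C = MvPolynomial.C (g j / g l) * pderiv l C := by
    intro j
    have h2 := hcon (Pi.single j 1 - Pi.single l (g j / g l)) (by
      rw [key]
      simp only [map_sub, map_mul, eval_C]
      show g j - g j / g l * g l = 0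
      field_simp
      ring)
    rw [key] at h2
    exact sub_eq_zero.1 h2
  have h3 := hCh.sum_X_mul_pderiv
  have h4 : ∑ i, X i * pderiv i C = (∑ i, MvPolynomial.C (g i / g l) * X i) * pderiv l C := by
    rw [Finset.sum_mul]
    apply Finset.sum_congr rfl
    intro i _
    rw [h1 i]
    ring
  rw [h4] at h3
  set L : MvPolynomial (Fin (n + 1)) k := ∑ i, MvPolynomial.C (g i / g l) * X i with hL
  have hLh : L.IsHomogeneous 1 := by
    apply IsHomogeneous.sum
    intro i _
    exact isHomogeneous_C_mul_X _ _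
  have hL0 : L ≠ 0 := by
    intro h
    have h5 := congrArg (eval (Pi.single l (1 : k))) h
    rw [hL] at h5
    simp only [map_sum, map_mul, eval_C, eval_X, map_zero] at h5
    rw [Finset.sum_eq_single l] at h5
    · simp [hl0] at h5
    · intro b _ hb
      rw [Pi.single_eq_of_ne hb]; simp
    · simp
  have hP0 : pderiv l C ≠ 0 := by
    intro h
    apply hl
    rw [h, map_zero]
  have hdvd : C ∣ L * pderiv l C := by
    rw [h3, nsmul_eq_mul]
    exact Dvd.intro_left _ rfl
  rcases hC.prime.dvd_or_dvd hdvd with h5 | h5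
  · exact not_dvd_of_lt hL0 (by rw [hLh.totalDegree hL0]; omega) h5
  · have h6 : ¬ C ∣ pderiv l C := by
      rw [← T_single_coeff_one]
      apply T_coeff_one_not_dvd hC hCh
      rw [T_single_coeff_one]
      exact hP0
    exact h6 h5

theorem eval_T_coeff {C R : MvPolynomial (Fin (n + 1)) k} {q : Fin (n + 1) → k} (e : ℕ)
    (w : Fin (n + 1) → k) (hq : eval q C = 0) :
    eval q ((T w (C ^ e * R)).coeff e) = (eval q ((T w C).coeff 1)) ^ e * eval q R := by
  obtain ⟨D, hD⟩ := T_coeff_mod w C R e
  have h1 := congrArg (eval q) hD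
  rw [map_sub, map_mul (eval q) C D, hq, zero_mul] at h1
  rw [sub_eq_zero.1 h1, map_mul, map_pow]

end Pool.Agent.Lib.P5c592f
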