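import Mathlib
import Pool.Agent.Lib.P5c592f.Main3
import Pool.Agent.Lib.P5c592f.Tang

set_option autoImplicit false

namespace Pool.Agent.Lib.P5c592f

open MvPolynomial

variable {k : Type*} [Field k]

/-- In the equality case all components have multiplicity at most `m/3`. -/
theorem eq_small [IsAlgClosed k] {S : Set (Fin 4 → k)} (hS0 : ∀ v ∈ S, v ≠ 0) {d m t : ℕ}
    (hH : HH S t) (ht : 1 ≤ t) {F : MvPolynomial (Fin 4) k} (hF : F.IsHomogeneous d) (h0 : F ≠ 0)
    (hord : ∀ v ∈ S, (m : ℕ∞) ≤ lord (phi v F)) (heq : 3 * d = m * (t + 3))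
    {C R : MvPolynomial (Fin 4) k} {e : ℕ} (hC : Irreducible C) (hFR : F = C ^ e * R)
    (hCR : ¬ C ∣ R) : 3 * e ≤ m := by
  rcases Nat.eq_zero_or_pos e with rfl | he1
  · omega
  have hdvd : C ∣ F := by
    rw [hFR]
    exact (dvd_pow_self C (by omega)).mul_right R
  have hR0 : R ≠ 0 := by rintro rfl; exact hCR (dvd_zero C)
  have hCh := hom_of_dvd hF h0 hdvd
  have hRh : R.IsHomogeneous R.totalDegree := hom_of_dvd hF h0 (hFR ▸ Dvd.intro_left _ rfl)
  have hd : d = e * C.totalDegree + R.totalDegree := by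
    have h3 := (hCh.pow e).mul hRh
    rw [← hFR] at h3
    rw [hF.inj_right h3 h0]
    ring
  have hcases := component_cases hS0 hH hF h0 hord (m := m)
    (by
      intro S' t' ρ R' hρ hS' hH' hR' hR0' hord'
      exact chud3 hS' hH' hR' hR0' hord')
    hC he1 hFR hCh hRh hR0 hd
  have hδ := totalDegree_irr hC
  rcases hcases with ⟨h1, h2⟩ | ⟨h1, h2⟩ | h1
  · obtain ⟨s, hs⟩ := Nat.exists_eq_add_of_le h1
    have e1 : t - C.totalDegree = s := by omega
    rw [e1] at h2
    rw [heq, hs] at h2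
    by_contra hlt
    rw [not_le] at hlt
    nlinarith
  · by_contra hlt
    rw [not_le] at hlt
    nlinarith
  · by_contra hlt
    rw [not_le] at hlt
    nlinarith

/-- In the equality case every component has multiplicity exactly `m/3` and satisfies the
incidence equality. -/
theorem eq_comp [IsAlgClosed k] {S : Set (Fin 4 → k)} (hS0 : ∀ v ∈ S, v ≠ 0) {d m t : ℕ}
    (hH : HH S t) (ht : 1 ≤ t) (hm : 1 ≤ m) (U : Unis S t)
    {F : MvPolynomial (Fin 4) k} (hF : F.IsHomogeneous d) (h0 : F ≠ 0)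
    (hord : ∀ v ∈ S, (m : ℕ∞) ≤ lord (phi v F)) (heq : 3 * d = m * (t + 3))
    {C R : MvPolynomial (Fin 4) k} {e : ℕ} (hC : Irreducible C) (he1 : 1 ≤ e) (hFR : F = C ^ e * R)
    (hCR : ¬ C ∣ R) :
    m = 3 * e ∧ 2 * (∑ i, nord (U.p i) C) = (t + 1) * (t + 2) * C.totalDegree := by
  have hsm : ∀ (C R : MvPolynomial (Fin 4) k) (e : ℕ), Irreducible C → F = C ^ e * R → ¬ C ∣ R →
      3 * e ≤ m := fun C R e h1 h2 h3 => eq_small hS0 hH ht hF h0 hord heq h1 h2 h3
  have hdvd : C ∣ F := by
    rw [hFR]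
    exact (dvd_pow_self C (by omega)).mul_right R
  have hCh := hom_of_dvd hF h0 hdvd
  have hmd : m < d := by nlinarith
  obtain ⟨P, hP⟩ := hdvd
  have hP0 : P ≠ 0 := by rintro rfl; rw [mul_zero] at hP; exact h0 hP
  have h1 := comp_ineq hS0 U hF hord hC hFR hCR hCh hm hmd.le (hsm C R e hC hFR hCR)
  have h2 := sum_ineq hS0 U hF h0 hord hm hmd.le hsm P hP0 (hP ▸ Dvd.intro_left _ rfl)
  have h3 := comp_ineq' hS0 U hF hord hC hFR hCR hCh hm hmd.le (hsm C R e hC hFR hCR)
  -- lower bound of the total sum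
  have h4 : ((t + 3).choose 3) * m ≤ ∑ i, nord (U.p i) F := by
    have := Finset.card_nsmul_le_sum (Finset.univ) (fun i => nord (U.p i) F) m
      (fun i _ => le_nord (hS0 _ (U.mem i)) hF h0 (hord _ (U.mem i)))
    simpa using this
  have h5 : ∑ i, nord (U.p i) F = ∑ i, nord (U.p i) C + ∑ i, nord (U.p i) P := by
    rw [← Finset.sum_add_distrib]
    apply Finset.sum_congr rfl
    intro i _
    rw [hP]
    exact nord_mul (hS0 _ (U.mem i)) (hP ▸ hF) (hP ▸ h0)
  have h6 : d = C.totalDegree + P.totalDegree := by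
    rw [← hF.totalDegree h0, hP]
    exact totalDegree_mul_of_isDomain hC.ne_zero hP0
  have h7 := six_choose (t + 1)
  have e1 : t + 1 + 2 = t + 3 := rfl
  rw [e1] at h7
  have h4' : (((t + 3).choose 3 : ℕ) : ℤ) * m ≤ (∑ i, nord (U.p i) C : ℕ) + (∑ i, nord (U.p i) P : ℕ) := by
    rw [h5] at h4
    exact_mod_cast h4
  have h6' : (d : ℤ) = C.totalDegree + P.totalDegree := by exact_mod_cast h6
  have heq' : (3 : ℤ) * d = m * (t + 3) := by exact_mod_cast heq
  have hm0 : (0 : ℤ) < m := by exact_mod_cast hm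
  have ht0 : (0 : ℤ) < t := by exact_mod_cast ht
  set c : ℤ := ((∑ i, nord (U.p i) C : ℕ) : ℤ) with hc
  set p : ℤ := ((∑ i, nord (U.p i) P : ℕ) : ℤ) with hp
  -- equality in the component inequality
  have h8 : (t + 1) * C.totalDegree * (3 * d - m : ℤ) ≤ 2 * m * c := by
    have h9 : 6 * (m : ℤ) * ((((t + 3).choose 3 : ℕ) : ℤ) * m) ≤ 6 * m * (c + p) :=
      mul_le_mul_of_nonneg_left h4' (by positivity)
    have h10 : 3 * (t + 1) * d * (3 * d - m : ℤ) = (m : ℤ) * m * ((t + 3) * (t + 2) * (t + 1)) := by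
      have : (3 : ℤ) * (t + 1) * d * (3 * d - m) = (t + 1) * (3 * d) * (3 * d - m) := by ring
      rw [this, heq']
      ring
    push_cast at h7
    rw [h6'] at h10 h2 ⊢
    nlinarith
  have h11 : (3 : ℤ) * d - m = m * (t + 2) := by rw [heq']; ring
  constructor
  · have h12 : (0 : ℤ) < d - m := by
      have : (m : ℤ) < d := by exact_mod_cast hmd
      linarith
    have h13 : (0 : ℤ) ≤ m - 3 * e := by
      have : (3 * e : ℤ) ≤ m := by exact_mod_cast hsm C R e hC hFR hCR
      linarith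
    have h14 : (0 : ℤ) < (t + 1) * C.totalDegree := by
      have := totalDegree_irr hC
      positivity
    have h15 : (0 : ℤ) < m - e := by
      have : (0 : ℤ) < e := by exact_mod_cast he1
      linarith
    have h16 : (t + 1 : ℤ) * C.totalDegree * ((d - m) * (m - 3 * e)) ≤ 0 := by
      have h17 := mul_le_mul_of_nonneg_right h8 h15.le
      nlinarith
    have h18 : (m : ℤ) - 3 * e ≤ 0 := by
      by_contra hlt
      rw [not_le] at hlt
      have : (0 : ℤ) < (t + 1) * C.totalDegree * ((d - m) * (m - 3 * e)) := by positivity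
      linarith
    omega
  · rw [h11] at h3 h8
    have h19 : (m : ℤ) * (2 * c) = m * ((t + 1) * (t + 2) * C.totalDegree) := by
      linarith
    have h20 := mul_left_cancel₀ hm0.ne' h19
    rw [hc] at h20
    exact_mod_cast h20

/-- In the equality case all components are planes. -/
theorem eq_linear [IsAlgClosed k] {S : Set (Fin 4 → k)} (hS0 : ∀ v ∈ S, v ≠ 0) {d m t : ℕ}
    (hH : HH S t) (ht : 1 ≤ t) (hm : 1 ≤ m)
    {F : MvPolynomial (Fin 4) k} (hF : F.IsHomogeneous d) (h0 : F ≠ 0)
    (hord : ∀ v ∈ S, (m : ℕ∞) ≤ lord (phi v F)) (heq : 3 * d = m * (t + 3))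
    {C R : MvPolynomial (Fin 4) k} {e : ℕ} (hC : Irreducible C) (he1 : 1 ≤ e) (hFR : F = C ^ e * R)
    (hCR : ¬ C ∣ R) : m = 3 * e ∧ C.totalDegree = 1 := by
  obtain ⟨U⟩ := exists_Unis hH
  obtain ⟨hme, hsum⟩ := eq_comp hS0 hH ht hm U hF h0 hord heq hC he1 hFR hCR
  refine ⟨hme, ?_⟩
  have hδ1 := totalDegree_irr hC
  by_contra hne
  have hδ : 2 ≤ C.totalDegree := by omega
  have hdvd : C ∣ F := by
    rw [hFR]
    exact (dvd_pow_self C (by omega)).mul_right R
  have hCh := hom_of_dvd hF h0 hdvd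
  obtain ⟨l, hl⟩ := exists_pderiv_ne hC hCh
  have hlC : ¬ C ∣ pderiv l C := by
    rw [← T_single_coeff_one]
    apply T_coeff_one_not_dvd hC hCh
    rwa [T_single_coeff_one]
  obtain ⟨q, hqC, hqG⟩ := exists_point hC (G := pderiv l C * R) (by
    intro h
    rcases hC.prime.dvd_or_dvd h with h1 | h1
    · exact hlC h1
    · exact hCR h1)
  rw [map_mul] at hqG
  have hql : eval q (pderiv l C) ≠ 0 := left_ne_zero_of_mul hqG
  have hqR : eval q R ≠ 0 := right_ne_zero_of_mul hqG
  have hpl : (pderiv l C).IsHomogeneous (C.totalDegree - 1) := by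
    rw [← T_single_coeff_one]
    exact T_coeff_hom hCh _ 1
  have hq0 : q ≠ 0 := by
    rintro rfl
    apply hql
    have : constantCoeff (pderiv l C) = 0 := by
      rw [constantCoeff_eq]
      apply hpl.coeff_eq_zero
      simp
      omega
    rw [← this, MvPolynomial.eval_zero]
  obtain ⟨w, hw0, hw⟩ := exists_tangent hC hCh hδ hql
  -- the two derived forms
  have hde : d = e * (t + 3) := by
    have : 3 * d = 3 * (e * (t + 3)) := by rw [heq, hme]; ring
    omega
  have hB := T_coeff_hom hF w e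
  have hBn : ¬ C ∣ (T w F).coeff e := by
    rw [hFR]
    exact T_coeff_not_dvd hC hCh hCR hw
  have hBq : eval q ((T w F).coeff e) = 0 := by
    rw [hFR, eval_T_coeff e w hqC, hw0, zero_pow (by omega), zero_mul]
  have hHh := T_coeff_hom hF (Pi.single l 1) e
  have hHq : eval q ((T (Pi.single l 1) F).coeff e) ≠ 0 := by
    rw [hFR, eval_T_coeff e _ hqC, T_single_coeff_one]
    exact mul_ne_zero (pow_ne_zero _ hql) hqR
  have hordT : ∀ (w' : Fin 4 → k) (i), ((2 * e : ℕ) : ℕ∞) ≤ lord (phi (U.p i) ((T w' F).coeff e)) := by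
    intro w' i
    have := lord_T_coeff (hS0 _ (U.mem i)) hF (hord _ (U.mem i)) w' e
    have e2 : m - e = 2 * e := by omega
    rwa [e2] at this
  have hJ := (U.jets hS0 (2 * e)).option hq0 hHh hHq (hordT _) (wq := e * t) (by
    have : d - e = e * (t + 2) := by
      rw [hde]
      have : e * (t + 3) = e * (t + 2) + e := by ring
      omega
    rw [this]; ring)
  have hbez := bezout3 _ _ _ (by nlinarith) (fun o => by
      cases o with
      | none => show 1 ≤ e * t; nlinarith
      | some i => show 1 ≤ 2 * e; omega) hJ hCh hC.prime hB hBn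
    (fun o : Option _ => o.elim (nord q C) (fun i => nord (U.p i) C))
    (fun o : Option _ => o.elim 1 (fun _ => 2 * e))
    (fun o => by
      cases o with
      | none => exact nord_spec hq0 hCh hC.ne_zero
      | some i => exact nord_spec (hS0 _ (U.mem i)) hCh hC.ne_zero)
    (fun o => by
      cases o with
      | none =>
        have := (one_le_lord_phi_iff q _).2 hBq
        simpa using this
      | some i => exact hordT w i)
  rw [Fintype.sum_option] at hbez
  simp only [Option.elim_none, Option.elim_some] at hbez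
  have hqn : 1 ≤ nord q C := by
    apply le_nord hq0 hCh hC.ne_zero
    have := (one_le_lord_phi_iff q C).2 hqC
    exact_mod_cast this
  have e3 : ∑ i, 2 * e * (nord (U.p i) C * (2 * e)) = 2 * e * e * (2 * ∑ i, nord (U.p i) C) := by
    rw [Finset.mul_sum, Finset.mul_sum]
    apply Finset.sum_congr rfl
    intro i _
    ring
  have e4 : d - e = e * (t + 2) := by
    rw [hde]
    have : e * (t + 3) = e * (t + 2) + e := by ring
    omega
  rw [e3, hsum, e4] at hbez
  have e5 : 1 ≤ e * t := by nlinarith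
  nlinarith

end Pool.Agent.Lib.P5c592f
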