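import Mathlib
import Pool.Agent.Lib.P5c592f.Comb
import Pool.Agent.Lib.P5c592f.Comp

set_option autoImplicit false

namespace Pool.Agent.Lib.P5c592f

open MvPolynomial

variable {k : Type*} [Field k] {n : ℕ}

theorem linForm_add (a b : (Fin (n + 1) → k) →ₗ[k] k) :
    linForm (a + b) = linForm a + linForm b := by
  unfold linForm
  rw [← Finset.sum_add_distrib]
  apply Finset.sum_congr rfl
  intro i _
  rw [LinearMap.add_apply, map_add]; ring

theorem linForm_smul (r : k) (a : (Fin (n + 1) → k) →ₗ[k] k) :
    linForm (r • a) = r • linForm a := by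
  unfold linForm
  rw [Finset.smul_sum]
  apply Finset.sum_congr rfl
  intro i _
  rw [LinearMap.smul_apply, smul_eq_mul, map_mul, MvPolynomial.smul_eq_C_mul]; ring

theorem linForm_zero : linForm (0 : (Fin (n + 1) → k) →ₗ[k] k) = 0 := by
  unfold linForm
  simp

theorem linForm_proj (j : Fin (n + 1)) :
    linForm (LinearMap.proj j : (Fin (n + 1) → k) →ₗ[k] k) = X j := by
  classical
  unfold linForm
  rw [Finset.sum_eq_single j]
  · simp
  · intro b _ hb
    simp [Pi.single_eq_of_ne hb.symm]
  · simp

theorem exists_functional {C : MvPolynomial (Fin (n + 1)) k} (hC : C.IsHomogeneous 1) :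
    ∃ c : (Fin (n + 1) → k) →ₗ[k] k, C = linForm c := by
  have h : C ∈ homogeneousSubmodule (Fin (n + 1)) k 1 := hC
  rw [homogeneousSubmodule_one_eq_span_X] at h
  clear hC
  induction h using Submodule.span_induction with
  | mem x hx =>
    obtain ⟨i, rfl⟩ := hx
    exact ⟨LinearMap.proj i, (linForm_proj i).symm⟩
  | zero => exact ⟨0, linForm_zero.symm⟩
  | add x y hx' hy' hx hy =>
    obtain ⟨a, ha⟩ := hx
    obtain ⟨b, hb⟩ := hy
    exact ⟨a + b, by rw [linForm_add, ha, hb]⟩
  | smul r x hx' hx =>
    obtain ⟨a, ha⟩ := hx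
    exact ⟨r • a, by rw [linForm_smul, ha]⟩

/-- all irreducible factors are linear and occur exactly `e` times -/
def AllLin (e : ℕ) (G : MvPolynomial (Fin (n + 1)) k) : Prop :=
  ∀ (C R : MvPolynomial (Fin (n + 1)) k) (e' : ℕ), Irreducible C → 1 ≤ e' → G = C ^ e' * R →
    ¬ C ∣ R → e' = e ∧ C.totalDegree = 1

theorem exists_family {e : ℕ} [DecidableEq k] : ∀ (d : ℕ) (G : MvPolynomial (Fin (n + 1)) k),
    G.IsHomogeneous d → G ≠ 0 → AllLin e G →
    ∃ (s : ℕ) (c : Fin s → ((Fin (n + 1) → k) →ₗ[k] k)), (∀ j, c j ≠ 0) ∧ d = e * s ∧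
      ∀ v, v ≠ 0 → nord v G = e * (Finset.univ.filter (fun j => c j v = 0)).card := by
  intro d
  induction d using Nat.strong_induction_on with
  | _ d ih =>
    intro G hG hG0 hlin
    by_cases hu : IsUnit G
    · refine ⟨0, Fin.elim0, fun j => j.elim0, ?_, ?_⟩
      · have h1 := hG.totalDegree hG0
        rw [totalDegree_unit hu] at h1
        omega
      · intro v hv
        rw [nord_unit hv hu]
        simp
    · obtain ⟨C, hC, hdvd⟩ := WfDvdMonoid.exists_irreducible_factor hu hG0
      obtain ⟨e', R, he1, hFR, hCR, hCh, hRh, hR0, hd⟩ := split_factor hG hG0 hC hdvd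
      obtain ⟨rfl, hδ⟩ := hlin C R e' hC he1 hFR hCR
      rw [hδ] at hCh hd
      have hlinR : AllLin e' R := by
        intro C' R' f hC' hf hR' hCR'
        have h1 : ¬ C' ∣ C := by
          intro h
          have h2 : Associated C' C := hC'.associated_of_dvd hC h
          apply hCR
          apply h2.symm.dvd.trans
          rw [hR']
          exact (dvd_pow_self C' (by omega)).mul_right R'
        apply hlin C' (C ^ e' * R') f hC' hf
        · rw [hFR, hR']; ring
        · intro h
          rcases hC'.prime.dvd_or_dvd h with h2 | h2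
          · exact h1 (hC'.prime.dvd_of_dvd_pow h2)
          · exact hCR' h2
      obtain ⟨s, c, hc0, hs, hc⟩ := ih R.totalDegree (by omega) R hRh hR0 hlinR
      obtain ⟨c0, hc0v⟩ := exists_functional hCh
      refine ⟨s + 1, Fin.cons c0 c, ?_, ?_, ?_⟩
      · intro j
        refine Fin.cases ?_ (fun j => ?_) j
        · rintro (rfl : c0 = 0)
          rw [linForm_zero] at hc0v
          exact hC.ne_zero hc0v
        · exact hc0 j
      · rw [hd, hs]; ring
      · intro v hv
        have h1 := nord_pow_mul hv hG hG0 hFR (by rw [hδ]; exact hCh) hC.ne_zero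
        rw [h1, hc v hv]
        have h2 : nord v C = if c0 v = 0 then 1 else 0 := by
          have h3 := nord_le hv hCh hC.ne_zero
          have h4 := one_le_lord_phi_iff v C
          rw [nord_spec hv hCh hC.ne_zero] at h4
          have h7 : eval v C = c0 v := by rw [hc0v, eval_linForm]
          rw [h7] at h4
          split_ifs with h5
          · have : 1 ≤ nord v C := by exact_mod_cast h4.2 h5
            omega
          · by_contra h6
            apply h5
            apply h4.1
            have : 1 ≤ nord v C := by omega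
            exact_mod_cast this
        rw [h2]
        have h3 : (Finset.univ.filter (fun j : Fin (s + 1) => (Fin.cons c0 c : Fin (s + 1) → _) j v = 0)).card =
            (if c0 v = 0 then 1 else 0) + (Finset.univ.filter (fun j => c j v = 0)).card := by
          rw [Fin.card_filter_univ_succ]
          simp only [Fin.cons_zero, Fin.cons_succ]
          split_ifs <;> omega
        rw [h3]
        ring

end Pool.Agent.Lib.P5c592f
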