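import Mathlib
import Pool.Agent.Lib.P5c592f.Lin
import Pool.Agent.Lib.P5c592f.Eq3

set_option autoImplicit false

namespace Pool.Agent.Lib.P5c592f

open MvPolynomial

variable {k : Type*} [Field k]

/-- the conclusion of the equality case in `P^n` -/
def Star (n : ℕ) (S : Set (Fin (n + 1) → k)) (s : ℕ)
    (c : Fin s → ((Fin (n + 1) → k) →ₗ[k] k)) : Prop :=
  (∀ T : Finset (Fin s), T.card ≤ n + 1 → LinearIndepOn k c (T : Set (Fin s))) ∧
  (∀ v ∈ S, n ≤ {j : Fin s | c j v = 0}.ncard) ∧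
  (∀ v : Fin (n + 1) → k, v ≠ 0 → n ≤ {j : Fin s | c j v = 0}.ncard →
    ∃ u ∈ S, ∃ r : k, v = r • u)

theorem star_of_allLin {n : ℕ} {S : Set (Fin (n + 1) → k)} (hS0 : ∀ v ∈ S, v ≠ 0) {d m t e : ℕ}
    (hH : HH S t) (ht : 1 ≤ t) (he : 1 ≤ e) (hme : m = n * e) (hd : n * d = m * (t + n))
    (hn : 1 ≤ n)
    {F : MvPolynomial (Fin (n + 1)) k} (hF : F.IsHomogeneous d) (h0 : F ≠ 0)
    (hord : ∀ v ∈ S, (m : ℕ∞) ≤ lord (phi v F)) (hlin : AllLin e F) :
    ∃ c : Fin (t + n) → ((Fin (n + 1) → k) →ₗ[k] k), Star n S (t + n) c := by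
  classical
  obtain ⟨s, c, hc0, hs, hc⟩ := exists_family d F hF h0 hlin
  have hst : s = t + n := by
    rw [hs, hme] at hd
    have h1 : (n * e) * s = (n * e) * (t + n) := by rw [← hd]; ring
    exact Nat.eq_of_mul_eq_mul_left (by positivity) h1
  subst hst
  have hcard : ∀ v ∈ S, n ≤ (Finset.univ.filter (fun j => c j v = 0)).card := by
    intro v hv
    have h1 := le_nord (hS0 v hv) hF h0 (hord v hv)
    rw [hc v (hS0 v hv), hme, mul_comm n e] at h1
    exact Nat.le_of_mul_le_mul_left h1 he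
  have hnc : ∀ v : Fin (n + 1) → k, {j : Fin (t + n) | c j v = 0}.ncard =
      (Finset.univ.filter (fun j => c j v = 0)).card := by
    intro v
    rw [← Set.ncard_coe_finset]
    congr 1
    ext j
    simp
  obtain ⟨a, rfl⟩ : ∃ a, t = a + 1 := ⟨t - 1, by omega⟩
  have h := comb_lemma c a Finset.univ S (fun j _ => hc0 j) (by simp; omega)
    (fun v hv => ⟨hS0 v hv, hcard v hv⟩) hH
  refine ⟨c, fun T hT => h.1 T (Finset.subset_univ T) hT, ?_, ?_⟩
  · intro v hv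
    rw [hnc]
    exact hcard v hv
  · intro v hv hv2
    rw [hnc] at hv2
    exact h.2 v hv hv2

theorem star3 [IsAlgClosed k] {S : Set (Fin 4 → k)} (hS0 : ∀ v ∈ S, v ≠ 0) {d m t : ℕ}
    (hH : HH S t) (ht : 1 ≤ t) (hm : 1 ≤ m)
    {F : MvPolynomial (Fin 4) k} (hF : F.IsHomogeneous d) (h0 : F ≠ 0)
    (hord : ∀ v ∈ S, (m : ℕ∞) ≤ lord (phi v F)) (heq : 3 * d = m * (t + 3)) :
    ∃ c : Fin (t + 3) → ((Fin 4 → k) →ₗ[k] k), Star 3 S (t + 3) c := by
  -- there is at least one component, so `m` is divisible by `3`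
  have hd1 : 1 ≤ d := by nlinarith
  have hnu : ¬ IsUnit F := by
    intro hu
    have h1 := hF.totalDegree h0
    rw [totalDegree_unit hu] at h1
    omega
  obtain ⟨C, hC, hdvd⟩ := WfDvdMonoid.exists_irreducible_factor hnu h0
  obtain ⟨e, R, he1, hFR, hCR, -, -, -, -⟩ := split_factor hF h0 hC hdvd
  obtain ⟨hme, -⟩ := eq_linear hS0 hH ht hm hF h0 hord heq hC he1 hFR hCR
  apply star_of_allLin hS0 hH ht he1 hme heq (by norm_num) hF h0 hord
  intro C' R' e' hC' he' hF' hCR'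
  obtain ⟨h1, h2⟩ := eq_linear hS0 hH ht hm hF h0 hord heq hC' he' hF' hCR'
  exact ⟨by omega, h2⟩

end Pool.Agent.Lib.P5c592f
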