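import Mathlib
import Pool.Agent.Lib.P5c592f.Bezout2
import Pool.Agent.Lib.P5c592f.Core

set_option autoImplicit false

namespace Pool.Agent.Lib.P5c592f

open MvPolynomial

variable {k : Type*} [Field k]

/-- unisolvent data in the plane -/
structure Unis2 (S : Set (Fin 3 → k)) (t : ℕ) where
  p : Fin ((t + 2).choose 2) → (Fin 3 → k)
  f : Fin ((t + 2).choose 2) → MvPolynomial (Fin 3) k
  mem : ∀ i, p i ∈ S
  hom : ∀ i, (f i).IsHomogeneous t
  diag : ∀ i, eval (p i) (f i) = 1
  off : ∀ i j, i ≠ j → eval (p j) (f i) = 0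

theorem exists_Unis2 {S : Set (Fin 3 → k)} {t : ℕ} (hH : HH S t) : Nonempty (Unis2 S t) := by
  obtain ⟨p, f, h1, h2, h3, h4⟩ := hH.exists_unisolvent
  exact ⟨⟨p, f, h1, h2, h3, h4⟩⟩

theorem Unis2.jets {S : Set (Fin 3 → k)} {t : ℕ} (U : Unis2 S t) (hS0 : ∀ v ∈ S, v ≠ 0) (w j : ℕ) :
    Jets U.p (fun _ => w) (w * (t + 1) + j) := by
  apply Jets.of_sep (fun i => hS0 _ (U.mem i)) (h := fun _ => t * w + j)
    (fun i => U.f i ^ w * X (chart (U.p i)) ^ j)
    (fun i => ((U.hom i).pow w).mul (by simpa using isHomogeneous_X_pow (R := k) (chart (U.p i)) j))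
  · intro i
    rw [map_mul, map_pow, U.diag, map_pow, eval_X, one_pow, one_mul]
    exact pow_ne_zero _ (chart_spec (hS0 _ (U.mem i)))
  · intro i j' hij
    rw [map_mul, map_pow, lord_mul, lord_pow]
    have h1 := (one_le_lord_phi_iff (U.p j') (U.f i)).2 (U.off i j' hij)
    calc ((w : ℕ) : ℕ∞) = w * 1 := by simp
      _ ≤ w * lord (phi (U.p j') (U.f i)) := by gcongr
      _ ≤ _ := le_self_add
  · intro i; ring

theorem plane_comp {S : Set (Fin 3 → k)} (hS0 : ∀ v ∈ S, v ≠ 0) {t : ℕ}
    (U : Unis2 S t) {C : MvPolynomial (Fin 3) k} (hC0 : C ≠ 0)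
    (hCh : C.IsHomogeneous C.totalDegree) :
    ∑ i, nord (U.p i) C ≤ (t + 1) * C.totalDegree := by
  have hJ := U.jets hS0 1 0
  rw [one_mul, add_zero] at hJ
  have h1 := bezout2_one U.p (fun _ => 1) (t + 1) (by omega) (fun _ => le_rfl) hJ hCh hC0
    (fun i => nord (U.p i) C) (fun i => nord_spec (hS0 _ (U.mem i)) hCh hC0)
  simpa using h1

theorem chud2 {S : Set (Fin 3 → k)} (hS0 : ∀ v ∈ S, v ≠ 0) {d m t : ℕ}
    (hH : HH S t) {F : MvPolynomial (Fin 3) k} (hF : F.IsHomogeneous d) (h0 : F ≠ 0)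
    (hord : ∀ v ∈ S, (m : ℕ∞) ≤ lord (phi v F)) : m * (t + 2) ≤ 2 * d := by
  obtain ⟨U⟩ := exists_Unis2 hH
  have hd := hF.totalDegree h0
  have h1 := plane_comp hS0 U h0 (by rw [hd]; exact hF)
  rw [hd] at h1
  have h2 : ((t + 2).choose 2) * m ≤ ∑ i, nord (U.p i) F := by
    have := Finset.card_nsmul_le_sum (Finset.univ) (fun i => nord (U.p i) F) m
      (fun i _ => le_nord (hS0 _ (U.mem i)) hF h0 (hord _ (U.mem i)))
    simpa using this
  have h3 := two_choose (t + 1)
  have e1 : t + 1 + 1 = t + 2 := rfl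
  rw [e1] at h3
  have h4 : (((t + 2).choose 2 : ℕ) : ℤ) * m ≤ (t + 1) * d := by exact_mod_cast h2.trans h1
  have h5 : (t + 1 : ℤ) * (m * (t + 2)) ≤ (t + 1) * (2 * d) := by
    push_cast at h3
    nlinarith
  have h6 := le_of_mul_le_mul_left h5 (by positivity)
  exact_mod_cast h6

theorem eq_linear2 [IsAlgClosed k] {S : Set (Fin 3 → k)} (hS0 : ∀ v ∈ S, v ≠ 0) {d m t : ℕ}
    (hH : HH S t) (ht : 1 ≤ t) (hm : 1 ≤ m)
    {F : MvPolynomial (Fin 3) k} (hF : F.IsHomogeneous d) (h0 : F ≠ 0)
    (hord : ∀ v ∈ S, (m : ℕ∞) ≤ lord (phi v F)) (heq : 2 * d = m * (t + 2))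
    {C R : MvPolynomial (Fin 3) k} {e : ℕ} (hC : Irreducible C) (he1 : 1 ≤ e) (hFR : F = C ^ e * R)
    (hCR : ¬ C ∣ R) : m = 2 * e ∧ C.totalDegree = 1 := by
  obtain ⟨U⟩ := exists_Unis2 hH
  have hδ1 := totalDegree_irr hC
  have hdvd : C ∣ F := by
    rw [hFR]
    exact (dvd_pow_self C (by omega)).mul_right R
  have hR0 : R ≠ 0 := by rintro rfl; exact hCR (dvd_zero C)
  have hCh := hom_of_dvd hF h0 hdvd
  have hRh : R.IsHomogeneous R.totalDegree := hom_of_dvd hF h0 (hFR ▸ Dvd.intro_left _ rfl)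
  have hd : d = e * C.totalDegree + R.totalDegree := by
    have h3 := (hCh.pow e).mul hRh
    rw [← hFR] at h3
    rw [hF.inj_right h3 h0]
    ring
  -- equality in the sum
  have hsum : ∑ i, nord (U.p i) C = (t + 1) * C.totalDegree := by
    obtain ⟨P, hP⟩ := hdvd
    have hP0 : P ≠ 0 := by rintro rfl; rw [mul_zero] at hP; exact h0 hP
    have hPh : P.IsHomogeneous P.totalDegree := hom_of_dvd hF h0 (hP ▸ Dvd.intro_left _ rfl)
    have h1 := plane_comp hS0 U hC.ne_zero hCh
    have h2 := plane_comp hS0 U hP0 hPh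
    have h4 : ((t + 2).choose 2) * m ≤ ∑ i, nord (U.p i) F := by
      have := Finset.card_nsmul_le_sum (Finset.univ) (fun i => nord (U.p i) F) m
        (fun i _ => le_nord (hS0 _ (U.mem i)) hF h0 (hord _ (U.mem i)))
      simpa using this
    have h5 : ∑ i, nord (U.p i) F = ∑ i, nord (U.p i) C + ∑ i, nord (U.p i) P := by
      rw [← Finset.sum_add_distrib]
      apply Finset.sum_congr rfl
      intro i _
      rw [hP]
      exact nord_mul (hS0 _ (U.mem i)) (hP ▸ hF) (hP ▸ h0)
    have h6 : d = C.totalDegree + P.totalDegree := by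
      rw [← hF.totalDegree h0, hP]
      exact totalDegree_mul_of_isDomain hC.ne_zero hP0
    have h7 := two_choose (t + 1)
    have e1 : t + 1 + 1 = t + 2 := rfl
    rw [e1] at h7
    have h8 : (2 : ℕ) * (t + 2).choose 2 = (t + 2) * (t + 1) := by
      have : ((2 * (t + 2).choose 2 : ℕ) : ℤ) = ((t + 2) * (t + 1) : ℕ) := by
        push_cast at h7 ⊢
        linarith
      exact_mod_cast this
    have h9 : (t + 1) * (2 * d) ≤ 2 * (∑ i, nord (U.p i) C + ∑ i, nord (U.p i) P) := by
      rw [← h5, heq]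
      calc (t + 1) * (m * (t + 2)) = ((t + 2) * (t + 1)) * m := by ring
        _ = 2 * ((t + 2).choose 2 * m) := by rw [← h8]; ring
        _ ≤ _ := Nat.mul_le_mul_left 2 h4
    rw [h6] at h9
    nlinarith
  -- a good point on C
  obtain ⟨l, hl⟩ := exists_pderiv_ne hC hCh
  have hlC : ¬ C ∣ pderiv l C := by
    rw [← T_single_coeff_one]
    apply T_coeff_one_not_dvd hC hCh
    rwa [T_single_coeff_one]
  have hX : ∃ i : Fin 3, ¬ C ∣ X i := by
    by_contra hcon
    push Not at hcon
    have a0 := hC.associated_of_dvd (X_prime (R := k) (i := (0 : Fin 3))).irreducible (hcon 0)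
    have a1 := a0.symm.dvd.trans (hcon 1)
    obtain ⟨Y, hY⟩ := a1
    have h2 := congrArg (eval (Pi.single (1 : Fin 3) (1 : k))) hY
    simp at h2
  obtain ⟨i0, hi0⟩ := hX
  obtain ⟨q, hqC, hqG⟩ := exists_point hC (G := X i0 * (pderiv l C * R)) (by
    intro h
    rcases hC.prime.dvd_or_dvd h with h1 | h1
    · exact hi0 h1
    · rcases hC.prime.dvd_or_dvd h1 with h2 | h2
      · exact hlC h2
      · exact hCR h2)
  rw [map_mul, map_mul, eval_X] at hqG
  have hq0 : q ≠ 0 := by
    rintro rfl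
    simp at hqG
  have hql : eval q (pderiv l C) ≠ 0 := left_ne_zero_of_mul (right_ne_zero_of_mul hqG)
  have hqR : eval q R ≠ 0 := right_ne_zero_of_mul (right_ne_zero_of_mul hqG)
  have hqn : 1 ≤ nord q C := by
    apply le_nord hq0 hCh hC.ne_zero
    have := (one_le_lord_phi_iff q C).2 hqC
    exact_mod_cast this
  have hHh := T_coeff_hom hF (Pi.single l 1) e
  have hHq : eval q ((T (Pi.single l 1) F).coeff e) ≠ 0 := by
    rw [hFR, eval_T_coeff e _ hqC, T_single_coeff_one]
    exact mul_ne_zero (pow_ne_zero _ hql) hqR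
  have hordT : ∀ (w' : Fin 3 → k) (i), ((m - e : ℕ) : ℕ∞) ≤ lord (phi (U.p i) ((T w' F).coeff e)) := by
    intro w' i
    exact lord_T_coeff (hS0 _ (U.mem i)) hF (hord _ (U.mem i)) w' e
  -- 2e ≥ m
  have hge : m ≤ 2 * e := by
    by_contra hlt
    rw [not_le] at hlt
    obtain ⟨x, hx⟩ : ∃ x, m = 2 * e + x := ⟨m - 2 * e, by omega⟩
    have hx1 : 1 ≤ x := by omega
    have hme : m - e = e + x := by omega
    have hκ : (d - e) + ((e + x) * (t + 1) - (d - e)) = (e + x) * (t + 1) := by
      have : d - e ≤ (e + x) * (t + 1) := by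
        have h1 : 2 * d = 2 * (e * (t + 2)) + x * (t + 2) := by rw [heq, hx]; ring
        have h2 : (e + x) * (t + 1) = e * (t + 2) - e + x * (t + 1) := by
          have : e * (t + 2) - e = e * (t + 1) := by
            have : e * (t + 2) = e * (t + 1) + e := by ring
            omega
          rw [this]; ring
        have h3 : x * (t + 2) ≤ 2 * (x * (t + 1)) := by nlinarith
        omega
      omega
    have hwq : 1 ≤ (e + x) * (t + 1) - (d - e) := by
      have h1 : 2 * d = 2 * (e * (t + 2)) + x * (t + 2) := by rw [heq, hx]; ring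
      have h2 : (e + x) * (t + 1) + e = e * (t + 2) + x * (t + 1) := by ring
      have h3 : x * (t + 2) + 1 ≤ 2 * (x * (t + 1)) := by nlinarith
      have h4 : e ≤ d := by nlinarith
      omega
    have hJ0 := U.jets hS0 (e + x) 0
    rw [add_zero] at hJ0
    have hJ := hJ0.option hq0 hHh hHq (fun i => by rw [← hme]; exact hordT _ i) hκ
    have hbez := bezout2_one _ _ _ (by nlinarith) (fun o => by
        cases o with
        | none => exact hwq
        | some i => show 1 ≤ e + x; omega) hJ hCh hC.ne_zero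
      (fun o : Option _ => o.elim (nord q C) (fun i => nord (U.p i) C))
      (fun o => by
        cases o with
        | none => exact nord_spec hq0 hCh hC.ne_zero
        | some i => exact nord_spec (hS0 _ (U.mem i)) hCh hC.ne_zero)
    rw [Fintype.sum_option] at hbez
    simp only [Option.elim_none, Option.elim_some] at hbez
    rw [← Finset.mul_sum, hsum] at hbez
    have h5 : 1 ≤ ((e + x) * (t + 1) - (d - e)) * nord q C := Nat.one_le_iff_ne_zero.2
      (Nat.mul_ne_zero (by omega) (by omega))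
    have h6 : (e + x) * (t + 1) * C.totalDegree = (e + x) * ((t + 1) * C.totalDegree) := by ring
    omega
  -- 2e ≤ m
  have hle : 2 * e ≤ m := by
    have hcases := component_cases hS0 hH hF h0 hord (m := m)
      (by
        intro S' t' ρ R' hρ hS' hH' hR' hR0' hord'
        exact chud2 hS' hH' hR' hR0' hord')
      hC he1 hFR hCh hRh hR0 hd
    rcases hcases with ⟨h1, h2⟩ | ⟨h1, h2⟩ | h1
    · obtain ⟨s, hs⟩ := Nat.exists_eq_add_of_le h1
      have e1 : t - C.totalDegree = s := by omega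
      rw [e1] at h2
      rw [heq, hs] at h2
      by_contra hlt
      rw [not_le] at hlt
      nlinarith
    · by_contra hlt
      rw [not_le] at hlt
      nlinarith
    · by_contra hlt
      rw [not_le] at hlt
      nlinarith
  have hme : m = 2 * e := le_antisymm hge hle
  refine ⟨hme, ?_⟩
  by_contra hne
  have hδ : 2 ≤ C.totalDegree := by omega
  obtain ⟨w, hw0, hw⟩ := exists_tangent hC hCh hδ hql
  have hde : d = e * (t + 2) := by
    have : 2 * d = 2 * (e * (t + 2)) := by rw [heq, hme]; ring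
    omega
  have e4 : d - e = e * (t + 1) := by
    rw [hde]
    have : e * (t + 2) = e * (t + 1) + e := by ring
    omega
  have hB := T_coeff_hom hF w e
  have hBn : ¬ C ∣ (T w F).coeff e := by
    rw [hFR]
    exact T_coeff_not_dvd hC hCh hCR hw
  have hBq : eval q ((T w F).coeff e) = 0 := by
    rw [hFR, eval_T_coeff e w hqC, hw0, zero_pow (by omega), zero_mul]
  have hme' : m - e = e := by omega
  rw [hme'] at hordT
  have hJ := (U.jets hS0 e 1).option hq0 hHh hHq (hordT _) (wq := 1) (by rw [e4])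
  have hbez := bezout2 _ _ _ (by omega) (fun o => by
      cases o with
      | none => exact le_rfl
      | some i => exact he1) hJ hCh hC.prime hB hBn
    (fun o : Option _ => o.elim (nord q C) (fun i => nord (U.p i) C))
    (fun o : Option _ => o.elim 1 (fun _ => e))
    (fun o => by
      cases o with
      | none => exact nord_spec hq0 hCh hC.ne_zero
      | some i => exact nord_spec (hS0 _ (U.mem i)) hCh hC.ne_zero)
    (fun o => by
      cases o with
      | none =>
        have := (one_le_lord_phi_iff q _).2 hBq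
        simpa using this
      | some i => exact hordT w i)
  rw [Fintype.sum_option] at hbez
  simp only [Option.elim_none, Option.elim_some] at hbez
  rw [← Finset.sum_mul, hsum, e4] at hbez
  have : C.totalDegree * (e * (t + 1)) = (t + 1) * C.totalDegree * e := by ring
  omega

theorem star2 [IsAlgClosed k] {S : Set (Fin 3 → k)} (hS0 : ∀ v ∈ S, v ≠ 0) {d m t : ℕ}
    (hH : HH S t) (ht : 1 ≤ t) (hm : 1 ≤ m)
    {F : MvPolynomial (Fin 3) k} (hF : F.IsHomogeneous d) (h0 : F ≠ 0)
    (hord : ∀ v ∈ S, (m : ℕ∞) ≤ lord (phi v F)) (heq : 2 * d = m * (t + 2)) :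
    ∃ c : Fin (t + 2) → ((Fin 3 → k) →ₗ[k] k), Star 2 S (t + 2) c := by
  have hd1 : 1 ≤ d := by nlinarith
  have hnu : ¬ IsUnit F := by
    intro hu
    have h1 := hF.totalDegree h0
    rw [totalDegree_unit hu] at h1
    omega
  obtain ⟨C, hC, hdvd⟩ := WfDvdMonoid.exists_irreducible_factor hnu h0
  obtain ⟨e, R, he1, hFR, hCR, -, -, -, -⟩ := split_factor hF h0 hC hdvd
  obtain ⟨hme, -⟩ := eq_linear2 hS0 hH ht hm hF h0 hord heq hC he1 hFR hCR
  apply star_of_allLin hS0 hH ht he1 hme heq (by norm_num) hF h0 hord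
  intro C' R' e' hC' he' hF' hCR'
  obtain ⟨h1, h2⟩ := eq_linear2 hS0 hH ht hm hF h0 hord heq hC' he' hF' hCR'
  exact ⟨by omega, h2⟩

end Pool.Agent.Lib.P5c592f
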