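import Mathlib
import Pool.Agent.Lib.P5c592f.Plane

set_option autoImplicit false

namespace Pool.Agent.Lib.P5c592f

open MvPolynomial

variable {k : Type*} [Field k]

/-- vectors representing a finite set of points -/
def reps {N : ℕ} (S : Finset (Projectivization k (Fin (N + 1) → k))) : Set (Fin (N + 1) → k) :=
  {v | ∃ p ∈ S, v = p.rep}

theorem reps_ne {N : ℕ} {S : Finset (Projectivization k (Fin (N + 1) → k))} :
    ∀ v ∈ reps S, v ≠ 0 := by
  rintro v ⟨p, _, rfl⟩
  exact p.rep_nonzero

/-- The set of degrees of nonzero forms vanishing to order `m` on `S`. -/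
def Degs {N : ℕ} (S : Finset (Projectivization k (Fin (N + 1) → k))) (m : ℕ) : Set ℕ :=
  {d : ℕ | ∃ F : MvPolynomial (Fin (N+1)) k, F ≠ 0 ∧ F.IsHomogeneous d ∧
        ∀ p ∈ S, F ∈ (Ideal.span {G : MvPolynomial (Fin (N+1)) k |
            G.IsHomogeneous 1 ∧ MvPolynomial.eval p.rep G = 0}) ^ m}

theorem mem_Degs {N : ℕ} {S : Finset (Projectivization k (Fin (N + 1) → k))} {m d : ℕ} :
    d ∈ Degs S m ↔ ∃ F : MvPolynomial (Fin (N+1)) k, F ≠ 0 ∧ F.IsHomogeneous d ∧
      ∀ v ∈ reps S, (m : ℕ∞) ≤ lord (phi v F) := by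
  constructor
  · rintro ⟨F, h0, hF, h⟩
    refine ⟨F, h0, hF, ?_⟩
    rintro v ⟨p, hp, rfl⟩
    exact (mem_Iv_pow_iff p.rep_nonzero hF).1 (h p hp)
  · rintro ⟨F, h0, hF, h⟩
    refine ⟨F, h0, hF, ?_⟩
    intro p hp
    exact (mem_Iv_pow_iff p.rep_nonzero hF).2 (h _ ⟨p, hp, rfl⟩)

theorem HH_of_least {N : ℕ} {S : Finset (Projectivization k (Fin (N + 1) → k))} {a1 t : ℕ}
    (h : IsLeast (Degs S 1) a1) (ht : t < a1) : HH (reps S) t := by
  intro G hG hv
  by_contra h0
  have h1 : t ∈ Degs S 1 := by
    rw [mem_Degs]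
    refine ⟨G, h0, hG, ?_⟩
    intro v hv'
    have := (one_le_lord_phi_iff v G).2 (hv v hv')
    exact_mod_cast this
  have := h.2 h1
  omega

/-- conclusion of both questions -/
def Concl {N : ℕ} (S : Finset (Projectivization k (Fin (N + 1) → k))) : Prop :=
  (∃ φ : (Fin (N+1) → k) →ₗ[k] k, φ ≠ 0 ∧ ∀ p ∈ S, φ p.rep = 0) ∨
    (∃ (s : ℕ) (c : Fin s → ((Fin (N+1) → k) →ₗ[k] k)), N ≤ s ∧
      (∀ t : Finset (Fin s), t.card ≤ N + 1 → LinearIndepOn k c (t : Set (Fin s))) ∧
      ∀ p : Projectivization k (Fin (N+1) → k),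
        p ∈ S ↔ N ≤ {j : Fin s | c j p.rep = 0}.ncard)

theorem concl_of_small {N : ℕ} {S : Finset (Projectivization k (Fin (N + 1) → k))} {a1 : ℕ}
    (h : IsLeast (Degs S 1) a1) (ha : a1 ≤ 1) : Concl S := by
  left
  obtain ⟨F, h0, hF, hv⟩ := mem_Degs.1 h.1
  rcases Nat.lt_or_ge 0 a1 with h1 | h1
  · have h2 : a1 = 1 := by omega
    subst h2
    obtain ⟨c, rfl⟩ := exists_functional hF
    refine ⟨c, ?_, ?_⟩
    · rintro rfl
      exact h0 linForm_zero
    · intro p hp
      have := hv _ ⟨p, hp, rfl⟩
      rw [Nat.cast_one, one_le_lord_phi_iff, eval_linForm] at this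
      exact this
  · have h2 : a1 = 0 := by omega
    subst h2
    refine ⟨LinearMap.proj 0, ?_, ?_⟩
    · intro h3
      have := congrArg (fun φ : (Fin (N + 1) → k) →ₗ[k] k => φ (Pi.single 0 1)) h3
      simp at this
    · intro p hp
      exfalso
      have h3 := hv _ ⟨p, hp, rfl⟩
      have h4 := lord_phi_le p.rep_nonzero hF h0
      have h5 := h3.trans h4
      norm_num at h5

theorem concl_of_star {N : ℕ} {S : Finset (Projectivization k (Fin (N + 1) → k))} {s : ℕ}
    (hs : N ≤ s) (c : Fin s → ((Fin (N + 1) → k) →ₗ[k] k)) (h : Star N (reps S) s c) :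
    Concl S := by
  right
  refine ⟨s, c, hs, h.1, ?_⟩
  intro p
  constructor
  · intro hp
    exact h.2.1 _ ⟨p, hp, rfl⟩
  · intro hp
    obtain ⟨u, ⟨p', hp', rfl⟩, r, hr⟩ := h.2.2 _ p.rep_nonzero hp
    have h1 : p = p' := by
      rw [← p.mk_rep, ← p'.mk_rep, Projectivization.mk_eq_mk_iff']
      exact ⟨r, hr.symm⟩
    rwa [h1]

/-- the case of the projective line -/
theorem concl_one {S : Finset (Projectivization k (Fin (1 + 1) → k))} : Concl S := by
  classical
  by_cases hS : S = ∅
  · left
    subst hS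
    refine ⟨LinearMap.proj 0, ?_, by simp⟩
    intro h3
    have := congrArg (fun φ : (Fin (1 + 1) → k) →ₗ[k] k => φ (Pi.single 0 1)) h3
    simp at this
  right
  let e : Fin S.card ≃ S := S.equivFin.symm
  -- the determinant functional
  let c : Fin S.card → ((Fin (1 + 1) → k) →ₗ[k] k) := fun j =>
    ((e j).1.rep 1) • LinearMap.proj 0 - ((e j).1.rep 0) • LinearMap.proj 1
  have hc : ∀ j v, c j v = (e j).1.rep 1 * v 0 - (e j).1.rep 0 * v 1 := fun j v => rfl
  have hzero : ∀ j (p : Projectivization k (Fin (1 + 1) → k)), c j p.rep = 0 ↔ p = (e j).1 := by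
    intro j p
    rw [hc]
    constructor
    · intro h
      rw [← p.mk_rep, ← (e j).1.mk_rep, Projectivization.mk_eq_mk_iff']
      have hq := (e j).1.rep_nonzero
      by_cases h0 : (e j).1.rep 0 = 0
      · have h1 : (e j).1.rep 1 ≠ 0 := by
          intro h1
          apply hq
          funext i
          fin_cases i
          · exact h0
          · exact h1
        have h2 : p.rep 0 = 0 := by
          rw [h0] at h
          simpa [h1] using h
        refine ⟨p.rep 1 / (e j).1.rep 1, ?_⟩
        funext i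
        fin_cases i
        · simp [h0, h2]
        · simp only [Pi.smul_apply, smul_eq_mul]
          show p.rep 1 / (e j).1.rep 1 * (e j).1.rep 1 = p.rep 1
          field_simp
      · refine ⟨p.rep 0 / (e j).1.rep 0, ?_⟩
        funext i
        fin_cases i
        · simp only [Pi.smul_apply, smul_eq_mul]
          show p.rep 0 / (e j).1.rep 0 * (e j).1.rep 0 = p.rep 0
          field_simp
        · simp only [Pi.smul_apply, smul_eq_mul]
          show p.rep 0 / (e j).1.rep 0 * (e j).1.rep 1 = p.rep 1
          field_simp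
          linear_combination h
    · rintro rfl
      ring
  have hinj : ∀ i j, (e i).1 = (e j).1 → i = j := by
    intro i j h
    exact e.injective (Subtype.ext h)
  refine ⟨S.card, c, Finset.card_pos.2 (Finset.nonempty_iff_ne_empty.2 hS), ?_, ?_⟩
  · intro T hT
    rw [linearIndepOn_finset_iff]
    intro f hf j hj
    by_cases hT1 : ∃ i ∈ T, i ≠ j
    · obtain ⟨i, hi, hij⟩ := hT1
      have h3 := congrArg (fun φ : (Fin (1 + 1) → k) →ₗ[k] k => φ (e i).1.rep) hf
      simp only [LinearMap.sum_apply, LinearMap.smul_apply, LinearMap.zero_apply, smul_eq_mul] at h3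
      rw [Finset.sum_eq_single_of_mem j hj] at h3
      · have h4 : c j (e i).1.rep ≠ 0 := by
          rw [Ne, hzero]
          intro h
          exact hij (hinj _ _ h)
        exact (mul_eq_zero.1 h3).resolve_right h4
      · intro l hl hlj
        have h5 : l = i := by
          by_contra hli
          have h6 : ({i, j, l} : Finset (Fin S.card)) ⊆ T := by
            intro x hx
            simp only [Finset.mem_insert, Finset.mem_singleton] at hx
            rcases hx with rfl | rfl | rfl <;> assumption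
          have h7 := Finset.card_le_card h6
          rw [Finset.card_eq_three.2 ⟨i, j, l, hij, fun h => hli h.symm, fun h => hlj h.symm, rfl⟩] at h7
          omega
        rw [h5, (hzero i _).2 rfl, mul_zero]
    · push Not at hT1
      have hTj : T = {j} := Finset.eq_singleton_iff_unique_mem.2 ⟨hj, hT1⟩
      rw [hTj, Finset.sum_singleton] at hf
      have hcj : c j ≠ 0 := by
        intro h0
        have hq := (e j).1.rep_nonzero
        apply hq
        funext i
        fin_cases i
        · have := congrArg (fun φ : (Fin (1 + 1) → k) →ₗ[k] k => φ (Pi.single 1 1)) h0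
          simp only [LinearMap.zero_apply] at this
          rw [hc] at this
          simpa using this
        · have := congrArg (fun φ : (Fin (1 + 1) → k) →ₗ[k] k => φ (Pi.single 0 1)) h0
          simp only [LinearMap.zero_apply] at this
          rw [hc] at this
          simpa using this
      exact (smul_eq_zero.1 hf).resolve_right hcj
  · intro p
    have h1 : {j : Fin S.card | c j p.rep = 0} = {j | p = (e j).1} := by
      ext j
      exact hzero j p
    rw [h1, Nat.one_le_iff_ne_zero, Ne, Set.ncard_eq_zero (Set.toFinite _), ← Ne,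
      ← Set.nonempty_iff_ne_empty]
    constructor
    · intro hp
      refine ⟨e.symm ⟨p, hp⟩, ?_⟩
      simp
    · rintro ⟨j, hj⟩
      have : p = (e j).1 := hj
      rw [this]
      exact (e j).2

end Pool.Agent.Lib.P5c592f
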