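import Mathlib
import Pool.Agent.Lib.P5c592f.Conv

set_option autoImplicit false

namespace Pool.Agent.Lib.P5c592f

open MvPolynomial

variable {k : Type*} [Field k]

/-- Chudnovsky's bound for `N = 1` on the level of forms. -/
theorem chud1 {S : Set (Fin 2 → k)} (hS0 : ∀ v ∈ S, v ≠ 0) {d m t : ℕ}
    (hH : HH S t) {F : MvPolynomial (Fin 2) k} (hF : F.IsHomogeneous d) (h0 : F ≠ 0)
    (hord : ∀ v ∈ S, (m : ℕ∞) ≤ lord (phi v F)) : m * (t + 1) ≤ 1 * d := by
  classical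
  obtain ⟨p, f, h1, h2, h3, h4⟩ := hH.exists_unisolvent
  have hJ : Jets p (fun _ => 1) (t + 1) := by
    apply Jets.of_sep (fun i => hS0 _ (h1 i)) (h := fun _ => t) f h2
    · intro i
      rw [h3]; exact one_ne_zero
    · intro i j hij
      have := (one_le_lord_phi_iff (p j) (f i)).2 (h4 i j hij)
      simpa using this
    · intro i; rfl
  set N : ℕ := d + ∑ i, nord (p i) F with hN
  have hle : ∀ i, nord (p i) F ≤ 1 * N := by
    intro i
    have : nord (p i) F ≤ ∑ i, nord (p i) F :=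
      Finset.single_le_sum (f := fun i => nord (p i) F) (fun _ _ => Nat.zero_le _)
        (Finset.mem_univ i)
    omega
  have hK : d ≤ (t + 1) * N := by
    have : 1 * N ≤ (t + 1) * N := Nat.mul_le_mul_right _ (by omega)
    omega
  have h5 := one_form_ineq (n := 0) p (fun _ => 1 * N) ((t + 1) * N) (hJ N) hF h0 hK
    (fun i => nord (p i) F) (fun i => nord_spec (hS0 _ (h1 i)) hF h0) hle
  simp only [Nat.zero_add, Nat.add_zero, Nat.choose_one_right] at h5
  have h6 : ∑ i, nord (p i) F ≤ d := by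
    have h7 : ∑ i : Fin ((t + 1).choose 1), 1 * N =
        ∑ i, (1 * N - nord (p i) F) + ∑ i, nord (p i) F := by
      rw [← Finset.sum_add_distrib]
      apply Finset.sum_congr rfl
      intro i _
      have := hle i
      omega
    omega
  have h8 : ((t + 1).choose 1) * m ≤ ∑ i, nord (p i) F := by
    have := Finset.card_nsmul_le_sum (Finset.univ) (fun i => nord (p i) F) m
      (fun i _ => le_nord (hS0 _ (h1 i)) hF h0 (hord _ (h1 i)))
    simpa using this
  have h9 : (t + 1).choose 1 = t + 1 := Nat.choose_one_right _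
  have h10 : (t + 1) * m ≤ d := by
    calc (t + 1) * m = (t + 1).choose 1 * m := by rw [h9]
      _ ≤ _ := h8.trans h6
  linarith

/-- Chudnovsky's bound for `N ≤ 3` on the level of forms. -/
theorem chudN [IsAlgClosed k] {N : ℕ} (hN1 : 1 ≤ N) (hN3 : N ≤ 3) {S : Set (Fin (N + 1) → k)}
    (hS0 : ∀ v ∈ S, v ≠ 0) {d m t : ℕ}
    (hH : HH S t) {F : MvPolynomial (Fin (N + 1)) k} (hF : F.IsHomogeneous d) (h0 : F ≠ 0)
    (hord : ∀ v ∈ S, (m : ℕ∞) ≤ lord (phi v F)) : m * (t + N) ≤ N * d := by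
  have hN : N = 1 ∨ N = 2 ∨ N = 3 := by omega
  rcases hN with rfl | rfl | rfl
  · exact chud1 hS0 hH hF h0 hord
  · exact chud2 hS0 hH hF h0 hord
  · exact chud3 hS0 hH hF h0 hord

/-- Chudnovsky's inequality for point sets in `P^N`, `N ≤ 3` -/
theorem chud_ineq [IsAlgClosed k] {N : ℕ} (hN1 : 1 ≤ N) (hN3 : N ≤ 3)
    {S : Finset (Projectivization k (Fin (N + 1) → k))} (hS : S.Nonempty) {a1 d m : ℕ}
    (h1 : IsLeast (Degs S 1) a1) (hd : d ∈ Degs S m) :
    m * (a1 + N - 1) ≤ N * d := by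
  obtain ⟨F, h0, hF, hv⟩ := mem_Degs.1 hd
  have ha1 : 1 ≤ a1 := by
    by_contra hlt
    have h2 : a1 = 0 := by omega
    subst h2
    obtain ⟨G, hG0, hG, hGv⟩ := mem_Degs.1 h1.1
    obtain ⟨p, hp⟩ := hS
    have h3 := hGv _ ⟨p, hp, rfl⟩
    have h4 := lord_phi_le p.rep_nonzero hG hG0
    have h5 := h3.trans h4
    norm_num at h5
  obtain ⟨t, rfl⟩ : ∃ t, a1 = t + 1 := ⟨a1 - 1, by omega⟩
  have h2 := chudN hN1 hN3 reps_ne (HH_of_least h1 (Nat.lt_succ_self t)) hF h0 hv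
  have e1 : t + 1 + N - 1 = t + N := by omega
  rwa [e1]

theorem concl_of_eq [IsAlgClosed k] {N : ℕ} (hN1 : 1 ≤ N) (hN3 : N ≤ 3)
    {S : Finset (Projectivization k (Fin (N + 1) → k))} {a1 d m : ℕ}
    (h1 : IsLeast (Degs S 1) a1) (hm : 1 ≤ m) (hd : d ∈ Degs S m)
    (heq : N * d = m * (a1 + N - 1)) : Concl S := by
  by_cases ha : a1 ≤ 1
  · exact concl_of_small h1 ha
  have hN : N = 1 ∨ N = 2 ∨ N = 3 := by omega
  obtain ⟨t, rfl⟩ : ∃ t, a1 = t + 1 := ⟨a1 - 1, by omega⟩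
  obtain ⟨F, h0, hF, hv⟩ := mem_Degs.1 hd
  have hH := HH_of_least h1 (Nat.lt_succ_self t)
  have e1 : t + 1 + N - 1 = t + N := by omega
  rw [e1] at heq
  rcases hN with rfl | rfl | rfl
  · exact concl_one
  · obtain ⟨c, hc⟩ := star2 reps_ne hH (by omega) hm hF h0 hv heq
    exact concl_of_star (by omega) c hc
  · obtain ⟨c, hc⟩ := star3 reps_ne hH (by omega) hm hF h0 hv heq
    exact concl_of_star (by omega) c hc

end Pool.Agent.Lib.P5c592f
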