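import Mathlib
import Pool.Agent.Lib.P5c592f.Q1

set_option autoImplicit false

namespace Pool.Agent.Lib.P5c592f

open MvPolynomial

variable {k : Type*} [Field k] {n : ℕ}

theorem exists_factorization : ∀ (d : ℕ) (G : MvPolynomial (Fin (n + 1)) k),
    G.IsHomogeneous d → G ≠ 0 →
    ∃ (Φ : Finset (MvPolynomial (Fin (n + 1)) k)) (e : MvPolynomial (Fin (n + 1)) k → ℕ),
      (∀ C ∈ Φ, Irreducible C ∧ 1 ≤ e C ∧ ∃ R, G = C ^ (e C) * R ∧ ¬ C ∣ R) ∧
      d = ∑ C ∈ Φ, e C * C.totalDegree ∧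
      ∀ v, v ≠ 0 → nord v G = ∑ C ∈ Φ, e C * nord v C := by
  classical
  intro d
  induction d using Nat.strong_induction_on with
  | _ d ih =>
    intro G hG hG0
    by_cases hu : IsUnit G
    · refine ⟨∅, fun _ => 0, by simp, ?_, ?_⟩
      · have h1 := hG.totalDegree hG0
        rw [totalDegree_unit hu] at h1
        simp [h1]
      · intro v hv
        rw [nord_unit hv hu]
        simp
    · obtain ⟨C, hC, hdvd⟩ := WfDvdMonoid.exists_irreducible_factor hu hG0
      obtain ⟨e', R, he1, hFR, hCR, hCh, hRh, hR0, hd⟩ := split_factor hG hG0 hC hdvd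
      have hδ := totalDegree_irr hC
      have hlt : R.totalDegree < d := by nlinarith
      obtain ⟨Φ, e, h1, h2, h3⟩ := ih R.totalDegree hlt R hRh hR0
      have hCΦ : C ∉ Φ := by
        intro hmem
        obtain ⟨-, he, R', hR', -⟩ := h1 C hmem
        apply hCR
        rw [hR']
        exact (dvd_pow_self C (by omega)).mul_right R'
      refine ⟨insert C Φ, Function.update e C e', ?_, ?_, ?_⟩
      · intro C' hC'
        rw [Finset.mem_insert] at hC'
        rcases hC' with rfl | hC'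
        · rw [Function.update_self]
          exact ⟨hC, he1, R, hFR, hCR⟩
        · have hne : C' ≠ C := by rintro rfl; exact hCΦ hC'
          rw [Function.update_of_ne hne]
          obtain ⟨hirr, he, R', hR', hnd⟩ := h1 C' hC'
          refine ⟨hirr, he, C ^ e' * R', ?_, ?_⟩
          · rw [hFR]
            conv_lhs => rw [hR']
            ring
          · intro h
            rcases hirr.prime.dvd_or_dvd h with h4 | h4
            · have h5 : C' ∣ C := hirr.prime.dvd_of_dvd_pow h4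
              have h6 : Associated C' C := hirr.associated_of_dvd hC h5
              apply hCR
              apply h6.symm.dvd.trans
              rw [hR']
              exact (dvd_pow_self C' (by omega)).mul_right R'
            · exact hnd h4
      · rw [Finset.sum_insert hCΦ, Function.update_self, hd, h2]
        congr 1
        apply Finset.sum_congr rfl
        intro C' hC'
        have hne : C' ≠ C := by rintro rfl; exact hCΦ hC'
        rw [Function.update_of_ne hne]
      · intro v hv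
        rw [Finset.sum_insert hCΦ, Function.update_self,
          nord_pow_mul hv hG hG0 hFR hCh hC.ne_zero, h3 v hv]
        congr 1
        apply Finset.sum_congr rfl
        intro C' hC'
        have hne : C' ≠ C := by rintro rfl; exact hCΦ hC'
        rw [Function.update_of_ne hne]

theorem prod_finset (Ψ : Finset (MvPolynomial (Fin (n + 1)) k))
    (h : ∀ C ∈ Ψ, C.IsHomogeneous C.totalDegree ∧ C ≠ 0) :
    (∏ C ∈ Ψ, C).IsHomogeneous (∑ C ∈ Ψ, C.totalDegree) ∧ (∏ C ∈ Ψ, C) ≠ 0 ∧
      ∀ v, v ≠ 0 → nord v (∏ C ∈ Ψ, C) = ∑ C ∈ Ψ, nord v C := by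
  classical
  induction Ψ using Finset.induction_on with
  | empty =>
    refine ⟨by simpa using isHomogeneous_one _ _, by simp, ?_⟩
    intro v hv
    simpa using nord_unit hv isUnit_one
  | insert C Ψ hC ih =>
    obtain ⟨h1, h2, h3⟩ := ih (fun C' hC' => h C' (by simp [hC']))
    obtain ⟨h4, h5⟩ := h C (by simp)
    rw [Finset.prod_insert hC, Finset.sum_insert hC]
    refine ⟨h4.mul h1, mul_ne_zero h5 h2, ?_⟩
    intro v hv
    rw [nord_mul hv (h4.mul h1) (mul_ne_zero h5 h2), h3 v hv, Finset.sum_insert hC]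

/-- extracting the reduced form from an almost extremal one -/
theorem from_weights {S : Set (Fin (n + 1) → k)} (hS0 : ∀ v ∈ S, v ≠ 0) {d m t : ℕ} (hn : 1 ≤ n)
    (hm : 1 ≤ m) {F : MvPolynomial (Fin (n + 1)) k} (hF : F.IsHomogeneous d) (h0 : F ≠ 0)
    (hord : ∀ v ∈ S, (m : ℕ∞) ≤ lord (phi v F))
    (Φ : Finset (MvPolynomial (Fin (n + 1)) k)) (e : MvPolynomial (Fin (n + 1)) k → ℕ)
    (hΦ : ∀ C ∈ Φ, Irreducible C ∧ 1 ≤ e C ∧ ∃ R, F = C ^ (e C) * R ∧ ¬ C ∣ R)
    (hdeg : d = ∑ C ∈ Φ, e C * C.totalDegree)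
    (hnord : ∀ v, v ≠ 0 → nord v F = ∑ C ∈ Φ, e C * nord v C)
    (ε η : ℝ) (hε : 0 ≤ ε) (hη : 0 ≤ η) (h1 : (n : ℝ) * d ≤ m * (t + n + ε))
    (h2 : ∀ C ∈ Φ, (n : ℝ) * e C ≤ m * (1 + ε))
    (h3 : ∑ C ∈ Φ, (e C : ℝ) * C.totalDegree * max ((m : ℝ) - n * e C) 0 ≤ η * m ^ 2)
    (h4 : ε + (n + 1) * η * (t + n + 1) < 1) (h5 : n * (n + 1) * η + (n - 1) * ε < 1) :
    ∃ (d0 : ℕ) (F0 : MvPolynomial (Fin (n + 1)) k), d0 ≤ t + n ∧ F0.IsHomogeneous d0 ∧ F0 ≠ 0 ∧
      ∀ v ∈ S, (n : ℕ∞) ≤ lord (phi v F0) := by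
  classical
  have hm0 : (0 : ℝ) < m := by exact_mod_cast hm
  have hn0 : (1 : ℝ) ≤ n := by exact_mod_cast hn
  have hCh : ∀ C ∈ Φ, C.IsHomogeneous C.totalDegree ∧ C ≠ 0 := by
    intro C hC
    obtain ⟨h6, h7, R, hR, -⟩ := hΦ C hC
    refine ⟨hom_of_dvd hF h0 ?_, h6.ne_zero⟩
    rw [hR]
    exact (dvd_pow_self C (by omega)).mul_right R
  set good := Φ.filter (fun C => m < (n + 1) * e C) with hgood
  set bad := Φ.filter (fun C => ¬ m < (n + 1) * e C) with hbad
  have hgΦ : good ⊆ Φ := Finset.filter_subset _ _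
  have hbΦ : bad ⊆ Φ := Finset.filter_subset _ _
  obtain ⟨hP1, hP2, hP3⟩ := prod_finset good (fun C hC => hCh C (hgΦ hC))
  have hterm : ∀ C ∈ Φ, 0 ≤ (e C : ℝ) * C.totalDegree * max ((m : ℝ) - n * e C) 0 := by
    intro C _
    positivity
  -- the bad part has small degree
  have hbadsum : ∑ C ∈ bad, (e C : ℝ) * C.totalDegree ≤ (n + 1) * η * m := by
    have h6 : (m : ℝ) * ∑ C ∈ bad, (e C : ℝ) * C.totalDegree ≤
        (n + 1) * ∑ C ∈ Φ, (e C : ℝ) * C.totalDegree * max ((m : ℝ) - n * e C) 0 := by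
      rw [Finset.mul_sum, Finset.mul_sum]
      calc ∑ C ∈ bad, (m : ℝ) * ((e C : ℝ) * C.totalDegree)
          ≤ ∑ C ∈ bad, ((n : ℝ) + 1) * ((e C : ℝ) * C.totalDegree * max ((m : ℝ) - n * e C) 0) := by
            apply Finset.sum_le_sum
            intro C hC
            have h7 := (Finset.mem_filter.1 hC).2
            have h8 : ((n + 1 : ℕ) : ℝ) * e C ≤ m := by
              exact_mod_cast not_lt.1 h7
            have h9 : (m : ℝ) ≤ (n + 1) * max ((m : ℝ) - n * e C) 0 := by
              have := le_max_left ((m : ℝ) - n * e C) 0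
              push_cast at h8
              nlinarith
            have h10 : (0 : ℝ) ≤ (e C : ℝ) * C.totalDegree := by positivity
            nlinarith
        _ ≤ ∑ C ∈ Φ, ((n : ℝ) + 1) * ((e C : ℝ) * C.totalDegree * max ((m : ℝ) - n * e C) 0) := by
            apply Finset.sum_le_sum_of_subset_of_nonneg hbΦ
            intro C hC _
            have := hterm C hC
            positivity
    have h7 : (m : ℝ) * ∑ C ∈ bad, (e C : ℝ) * C.totalDegree ≤ m * ((n + 1) * η * m) := by
      refine h6.trans ?_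
      have : ((n : ℝ) + 1) * ∑ C ∈ Φ, (e C : ℝ) * C.totalDegree * max ((m : ℝ) - n * e C) 0 ≤
        (n + 1) * (η * m ^ 2) := mul_le_mul_of_nonneg_left h3 (by positivity)
      refine this.trans (le_of_eq (by ring))
    exact le_of_mul_le_mul_left h7 hm0
  -- the good components have multiplicity close to m/n
  have hgoode : ∀ C ∈ good, (m : ℝ) * (1 - (n + 1) * η) ≤ n * e C := by
    intro C hC
    have h6 : (e C : ℝ) * C.totalDegree * max ((m : ℝ) - n * e C) 0 ≤ η * m ^ 2 :=
      (Finset.single_le_sum hterm (hgΦ hC)).trans h3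
    have h7 : (m : ℝ) ≤ (n + 1) * e C := by
      have := (Finset.mem_filter.1 hC).2
      exact_mod_cast this.le
    have h8 : (1 : ℝ) ≤ C.totalDegree := by
      exact_mod_cast totalDegree_irr (hΦ C (hgΦ hC)).1
    set x := max ((m : ℝ) - n * e C) 0 with hx
    have hx0 : 0 ≤ x := le_max_right _ _
    have h9 : (m : ℝ) * x ≤ (n + 1) * ((e C : ℝ) * C.totalDegree * x) := by
      have h10 : (m : ℝ) * x ≤ (n + 1) * e C * x := mul_le_mul_of_nonneg_right h7 hx0
      have h11 : (0 : ℝ) ≤ (n + 1) * e C * x := by positivity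
      nlinarith
    have h12 : (m : ℝ) * x ≤ m * ((n + 1) * η * m) := by
      have : ((n : ℝ) + 1) * ((e C : ℝ) * C.totalDegree * x) ≤ (n + 1) * (η * m ^ 2) :=
        mul_le_mul_of_nonneg_left h6 (by positivity)
      linarith [show ((n : ℝ) + 1) * (η * m ^ 2) = m * ((n + 1) * η * m) by ring]
    have h13 := le_of_mul_le_mul_left h12 hm0
    have h14 := le_max_left ((m : ℝ) - n * e C) 0
    rw [← hx] at h14
    linarith
  refine ⟨∑ C ∈ good, C.totalDegree, ∏ C ∈ good, C, ?_, hP1, hP2, ?_⟩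
  · -- degree bound
    by_contra hlt
    rw [not_le] at hlt
    have h6 : ((t : ℝ) + n + 1) ≤ ((∑ C ∈ good, C.totalDegree : ℕ) : ℝ) := by exact_mod_cast hlt
    have h7 : (m : ℝ) * (1 - (n + 1) * η) * ((∑ C ∈ good, C.totalDegree : ℕ) : ℝ) ≤ n * d := by
      rw [hdeg]
      push_cast
      rw [Finset.mul_sum, Finset.mul_sum]
      calc ∑ C ∈ good, (m : ℝ) * (1 - (n + 1) * η) * C.totalDegree
          ≤ ∑ C ∈ good, (n : ℝ) * (e C * C.totalDegree) := by
            apply Finset.sum_le_sum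
            intro C hC
            have h8 := hgoode C hC
            have h9 : (0 : ℝ) ≤ C.totalDegree := by positivity
            nlinarith
        _ ≤ ∑ C ∈ Φ, (n : ℝ) * (e C * C.totalDegree) := by
            apply Finset.sum_le_sum_of_subset_of_nonneg hgΦ
            intro C _ _
            positivity
    have h8 : (0 : ℝ) ≤ 1 - (n + 1) * η := by
      have h9 : (0 : ℝ) ≤ (n + 1) * η := by positivity
      have h10 : (n + 1) * η * 1 ≤ (n + 1) * η * (t + n + 1) := by
        apply mul_le_mul_of_nonneg_left _ h9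
        have : (0 : ℝ) ≤ t := by positivity
        linarith
      linarith
    have h9 : (m : ℝ) * (1 - (n + 1) * η) * (t + n + 1) ≤
        m * (1 - (n + 1) * η) * ((∑ C ∈ good, C.totalDegree : ℕ) : ℝ) :=
      mul_le_mul_of_nonneg_left h6 (by positivity)
    have h10 : (m : ℝ) * ((1 - (n + 1) * η) * (t + n + 1)) ≤ m * (t + n + ε) := by
      linarith [h9.trans (h7.trans h1)]
    have h11 := le_of_mul_le_mul_left h10 hm0
    nlinarith
  · -- order bound
    intro v hv
    rw [nord_spec (hS0 v hv) hP1 hP2]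
    by_contra hlt
    have hlt' : nord v (∏ C ∈ good, C) < n := by
      by_contra h
      exact hlt (by exact_mod_cast not_lt.1 h)
    rw [hP3 v (hS0 v hv)] at hlt'
    have h6 := le_nord (hS0 v hv) hF h0 (hord v hv)
    rw [hnord v (hS0 v hv), ← Finset.sum_filter_add_sum_filter_not Φ (fun C => m < (n + 1) * e C)]
      at h6
    have h7 : (m : ℝ) ≤ ∑ C ∈ good, (e C : ℝ) * nord v C + ∑ C ∈ bad, (e C : ℝ) * nord v C := by
      exact_mod_cast h6
    have h8 : ∑ C ∈ bad, (e C : ℝ) * nord v C ≤ (n + 1) * η * m := by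
      refine le_trans (Finset.sum_le_sum ?_) hbadsum
      intro C hC
      have h9 := nord_le (hS0 v hv) (hCh C (hbΦ hC)).1 (hCh C (hbΦ hC)).2
      have h10 : (nord v C : ℝ) ≤ C.totalDegree := by exact_mod_cast h9
      exact mul_le_mul_of_nonneg_left h10 (by positivity)
    have h9 : (n : ℝ) * ∑ C ∈ good, (e C : ℝ) * nord v C ≤
        m * (1 + ε) * ((∑ C ∈ good, nord v C : ℕ) : ℝ) := by
      push_cast
      rw [Finset.mul_sum, Finset.mul_sum]
      apply Finset.sum_le_sum
      intro C hC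
      have h10 := h2 C (hgΦ hC)
      have h11 : (0 : ℝ) ≤ nord v C := by positivity
      nlinarith
    have h10 : ((∑ C ∈ good, nord v C : ℕ) : ℝ) ≤ n - 1 := by
      have : (∑ C ∈ good, nord v C) + 1 ≤ n := hlt'
      have h11 : (((∑ C ∈ good, nord v C) + 1 : ℕ) : ℝ) ≤ n := by exact_mod_cast this
      push_cast at h11 ⊢
      linarith
    have h11 : (m : ℝ) * (1 + ε) * ((∑ C ∈ good, nord v C : ℕ) : ℝ) ≤ m * (1 + ε) * (n - 1) :=
      mul_le_mul_of_nonneg_left h10 (by positivity)
    have h12 : (m : ℝ) * n ≤ m * (n * ((n + 1) * η) + (1 + ε) * (n - 1)) := by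
      have h13 : (n : ℝ) * m ≤ n * (∑ C ∈ good, (e C : ℝ) * nord v C) +
          n * (∑ C ∈ bad, (e C : ℝ) * nord v C) := by
        rw [← mul_add]
        exact mul_le_mul_of_nonneg_left h7 (by positivity)
      have h14 : (n : ℝ) * (∑ C ∈ bad, (e C : ℝ) * nord v C) ≤ n * ((n + 1) * η * m) :=
        mul_le_mul_of_nonneg_left h8 (by positivity)
      linarith [h9.trans h11]
    have h13 := le_of_mul_le_mul_left h12 hm0
    linarith

end Pool.Agent.Lib.P5c592f
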