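import Mathlib
import Pool.Agent.Lib.P5c592f.Near

set_option autoImplicit false

namespace Pool.Agent.Lib.P5c592f

open MvPolynomial

variable {k : Type*} [Field k]

/-- multiplicity bound for almost extremal forms; `n` is the dimension -/
theorem near_mult [IsAlgClosed k] {n : ℕ} (hn1 : 1 ≤ n) (hn3 : n ≤ 3)
    {S : Set (Fin (n + 1) → k)} (hS0 : ∀ v ∈ S, v ≠ 0) {d m t : ℕ}
    (hH : HH S t) (ht : 1 ≤ t) {F : MvPolynomial (Fin (n + 1)) k}
    (hF : F.IsHomogeneous d) (h0 : F ≠ 0)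
    (hord : ∀ v ∈ S, (m : ℕ∞) ≤ lord (phi v F)) (ε : ℝ) (hε : 0 ≤ ε)
    (h1 : (n : ℝ) * d ≤ m * (t + n + ε))
    {C R : MvPolynomial (Fin (n + 1)) k} {e : ℕ} (hC : Irreducible C) (he1 : 1 ≤ e)
    (hFR : F = C ^ e * R) (hCR : ¬ C ∣ R) : (n : ℝ) * e ≤ m * (1 + ε) := by
  have hdvd : C ∣ F := by
    rw [hFR]
    exact (dvd_pow_self C (by omega)).mul_right R
  have hR0 : R ≠ 0 := by rintro rfl; exact hCR (dvd_zero C)
  have hCh := hom_of_dvd hF h0 hdvd
  have hRh : R.IsHomogeneous R.totalDegree := hom_of_dvd hF h0 (hFR ▸ Dvd.intro_left _ rfl)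
  have hd : d = e * C.totalDegree + R.totalDegree := by
    have h3 := (hCh.pow e).mul hRh
    rw [← hFR] at h3
    rw [hF.inj_right h3 h0]
    ring
  have hcases := component_cases hS0 hH hF h0 hord (m := m)
    (by
      intro S' t' ρ R' hρ hS' hH' hR' hR0' hord'
      exact chudN hn1 hn3 hS' hH' hR' hR0' hord')
    hC he1 hFR hCh hRh hR0 hd
  have hδ := totalDegree_irr hC
  have hm0 : (0 : ℝ) ≤ m := by positivity
  have ht0 : (1 : ℝ) ≤ t := by exact_mod_cast ht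
  have hδ0 : (1 : ℝ) ≤ C.totalDegree := by exact_mod_cast hδ
  have hn0 : (1 : ℝ) ≤ n := by exact_mod_cast hn1
  rcases hcases with ⟨h2, h3⟩ | ⟨h2, h3⟩ | h2
  · -- n e δ ≤ m (δ + ε)
    have h4 : (m : ℝ) * (t - C.totalDegree + n) + n * (e * C.totalDegree) ≤ n * d := by
      have h5 : ((m * (t - C.totalDegree + n) + n * (e * C.totalDegree) : ℕ) : ℝ) ≤ (n * d : ℕ) := by
        exact_mod_cast h3
      rw [Nat.cast_add, Nat.cast_mul, Nat.cast_add, Nat.cast_sub h2] at h5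
      push_cast at h5
      linarith
    have h5 : (C.totalDegree : ℝ) * (n * e) ≤ C.totalDegree * (m * (1 + ε)) := by
      have : (0 : ℝ) ≤ m * ε := by positivity
      nlinarith
    exact le_of_mul_le_mul_left h5 (by linarith)
  · have h4 : (m : ℝ) * n + n * (e * C.totalDegree) ≤ n * d := by exact_mod_cast h3
    have h6 : (t : ℝ) ≤ C.totalDegree := by exact_mod_cast h2.le
    have h5 : (C.totalDegree : ℝ) * (n * e) ≤ C.totalDegree * (m * (1 + ε)) := by
      have h7 : (0 : ℝ) ≤ m * ε := by positivity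
      have h8 : (m : ℝ) * t ≤ m * C.totalDegree := mul_le_mul_of_nonneg_left h6 hm0
      have h9 : (m : ℝ) * ε * 1 ≤ m * ε * C.totalDegree := mul_le_mul_of_nonneg_left hδ0 h7
      nlinarith
    exact le_of_mul_le_mul_left h5 (by linarith)
  · have h4 : (e : ℝ) * t + m ≤ d := by exact_mod_cast h2
    have h5 : (t : ℝ) * (n * e) ≤ t * (m * (1 + ε)) := by
      have h7 : (0 : ℝ) ≤ m * ε := by positivity
      have h9 : (m : ℝ) * ε * 1 ≤ m * ε * t := mul_le_mul_of_nonneg_left ht0 h7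
      have h10 : (n : ℝ) * (e * t + m) ≤ n * d := mul_le_mul_of_nonneg_left h4 (by linarith)
      nlinarith
    exact le_of_mul_le_mul_left h5 (by linarith)

theorem real_comp3 {A σ M D e ε : ℝ} (hA : 0 ≤ A) (hM : 0 < M) (hMD : M ≤ D) (he0 : 0 ≤ e)
    (heM : e ≤ M / 2) (h2 : 3 * e ≤ M * (1 + ε)) (hε : 0 ≤ ε) (hb : σ * (M - e) ≤ A * (D - e)) :
    A * (D - M) * (max (M - 3 * e) 0 - 2 * ε * M) ≤ M * (A * (3 * D - M) - 2 * M * σ) := by
  set DC := A * (3 * D - M) - 2 * M * σ with hDC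
  have h5 : A * (D - M) * (M - 3 * e) ≤ DC * (M - e) := by
    rw [hDC]
    nlinarith [mul_le_mul_of_nonneg_left hb (by positivity : (0 : ℝ) ≤ 2 * M)]
  have h6 : (0 : ℝ) < M - e := by linarith
  have h7 : (0 : ℝ) ≤ A * (D - M) := mul_nonneg hA (by linarith)
  have h12 : 0 ≤ A * (D - M) * (2 * ε * M) := by positivity
  rcases le_total ((3 : ℝ) * e) M with h8 | h8
  · have h9 : max (M - 3 * e) 0 = M - 3 * e := max_eq_left (by linarith)
    rw [h9]
    have h10 : 0 ≤ DC := by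
      by_contra hlt
      rw [not_le] at hlt
      have : DC * (M - e) < 0 := mul_neg_of_neg_of_pos hlt h6
      have h11 : 0 ≤ A * (D - M) * (M - 3 * e) := mul_nonneg h7 (by linarith)
      linarith
    have h11 : DC * (M - e) ≤ DC * M := mul_le_mul_of_nonneg_left (by linarith) h10
    linarith
  · have h9 : max (M - 3 * e) 0 = 0 := max_eq_right (by linarith)
    rw [h9]
    rcases le_total 0 DC with h10 | h10
    · have h13 : 0 ≤ M * DC := by positivity
      linarith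
    · have h11 : -(A * (D - M) * (ε * M)) ≤ A * (D - M) * (M - 3 * e) := by
        have : -(ε * M) ≤ M - 3 * e := by linarith
        have := mul_le_mul_of_nonneg_left this h7
        linarith
      have h14 : DC * (M - e) ≤ DC * (M / 2) := by
        apply mul_le_mul_of_nonpos_left _ h10
        linarith
      linarith

theorem real_final3 {t M D ε y W SD Z : ℝ} (ht : 1 ≤ t) (hM : 0 < M) (hε : 0 < ε)
    (hεs : ε ≤ 1 / 2) (hy : y = 3 * D - M * (t + 3)) (hy0 : 0 ≤ y) (hyε : y ≤ ε * M)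
    (hZ : 6 * Z = (t + 3) * (t + 2) * (t + 1))
    (hlow : (t + 1) * (D - M) * (W - 2 * ε * M * D) ≤ M * SD)
    (hup : SD ≤ (t + 1) * D * (3 * D - M) - 2 * M * (Z * M)) :
    W ≤ ε * (t + 11) * M ^ 2 := by
  have h7 : (t + 1) * ((M * t + y) * (W - 2 * ε * M * D)) ≤
      (t + 1) * (M * (y * (M * (2 * t + 5) + y))) := by
    have h8 : D - M = (M * t + y) / 3 := by rw [hy]; ring
    have h9 := hlow.trans (mul_le_mul_of_nonneg_left hup hM.le)
    rw [h8] at h9
    have h10 : (3 : ℝ) * ((t + 1) * D * (3 * D - M) - 2 * M * (Z * M)) =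
        (t + 1) * (y * (M * (2 * t + 5)) + y ^ 2) := by
      have h11 : 3 * D = M * (t + 3) + y := by rw [hy]; ring
      calc (3 : ℝ) * ((t + 1) * D * (3 * D - M) - 2 * M * (Z * M))
          = (t + 1) * (3 * D) * (3 * D - M) - M ^ 2 * (6 * Z) := by ring
        _ = (t + 1) * (M * (t + 3) + y) * (M * (t + 3) + y - M) -
            M ^ 2 * ((t + 3) * (t + 2) * (t + 1)) := by rw [h11, hZ]
        _ = _ := by ring
    have h12 : M * (3 * ((t + 1) * D * (3 * D - M) - 2 * M * (Z * M))) =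
        M * ((t + 1) * (y * (M * (2 * t + 5)) + y ^ 2)) := by rw [h10]
    linarith
  have h8 := le_of_mul_le_mul_left h7 (by positivity)
  have h9 : W - 2 * ε * M * D ≤ 8 * ε * M ^ 2 := by
    by_contra hlt
    rw [not_le] at hlt
    have h10 : M * t * (8 * ε * M ^ 2) < M * t * (W - 2 * ε * M * D) :=
      mul_lt_mul_of_pos_left hlt (by positivity)
    have h11 : 0 ≤ W - 2 * ε * M * D := by
      have : 0 ≤ 8 * ε * M ^ 2 := by positivity
      linarith
    have h12 : M * t * (W - 2 * ε * M * D) ≤ (M * t + y) * (W - 2 * ε * M * D) := by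
      have := mul_nonneg hy0 h11
      linarith
    have h13 : y * (M * (2 * t + 5) + y) ≤ (ε * M) * (M * (2 * t + 6)) := by
      apply mul_le_mul hyε _ (by positivity) (by positivity)
      have : ε * M ≤ 1 * M := mul_le_mul_of_nonneg_right (by linarith) hM.le
      linarith
    have h14 : M * (y * (M * (2 * t + 5) + y)) ≤ M * ((ε * M) * (M * (2 * t + 6))) :=
      mul_le_mul_of_nonneg_left h13 hM.le
    have h15 : M * ((ε * M) * (M * (2 * t + 6))) ≤ M * t * (8 * ε * M ^ 2) := by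
      have h16 : (0 : ℝ) ≤ ε * M ^ 3 := by positivity
      have h17 : 2 * t + 6 ≤ 8 * t := by linarith
      have h18 := mul_le_mul_of_nonneg_left h17 h16
      linarith
    linarith
  have h10 : 2 * ε * M * D ≤ 2 * ε * M * (M * (t + 4) / 3) := by
    apply mul_le_mul_of_nonneg_left _ (by positivity)
    have : ε * M ≤ 1 * M := mul_le_mul_of_nonneg_right (by linarith) hM.le
    rw [hy] at hyε
    linarith
  have h11 : (0 : ℝ) ≤ ε * M ^ 2 := by positivity
  have h12 : ε * M ^ 2 * 1 ≤ ε * M ^ 2 * t := mul_le_mul_of_nonneg_left ht h11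
  linarith

theorem near3 [IsAlgClosed k] {S : Set (Fin (3 + 1) → k)} (hS0 : ∀ v ∈ S, v ≠ 0) {d m t : ℕ}
    (hH : HH S t) (ht : 1 ≤ t) (hm : 1 ≤ m) {F : MvPolynomial (Fin (3 + 1)) k}
    (hF : F.IsHomogeneous d) (h0 : F ≠ 0)
    (hord : ∀ v ∈ S, (m : ℕ∞) ≤ lord (phi v F)) (ε : ℝ) (hε : 0 < ε)
    (hεs : ε * (10 * (t + 11) ^ 2) ≤ 1)
    (h1 : (3 : ℝ) * d ≤ m * (t + 3 + ε)) :
    ∃ (d0 : ℕ) (F0 : MvPolynomial (Fin (3 + 1)) k), d0 ≤ t + 3 ∧ F0.IsHomogeneous d0 ∧ F0 ≠ 0 ∧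
      ∀ v ∈ S, ((3 : ℕ) : ℕ∞) ≤ lord (phi v F0) := by
  classical
  obtain ⟨U⟩ := exists_Unis (k := k) (S := S) hH
  obtain ⟨Φ, e, hΦ, hdeg, hnord⟩ := exists_factorization d F hF h0
  have hm0 : (0 : ℝ) < m := by exact_mod_cast hm
  have ht0 : (1 : ℝ) ≤ t := by exact_mod_cast ht
  have hεt1 : ε * (t + 11) ≤ 1 / 100 := by
    have h7 : (0 : ℝ) ≤ ε * (t + 11) := by positivity
    have h8 : ε * (t + 11) * 10 ≤ ε * (t + 11) * (t + 11) :=
      mul_le_mul_of_nonneg_left (by linarith) h7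
    nlinarith
  have hε2 : ε ≤ 1 / 2 := by nlinarith
  have h1' : ((3 : ℕ) : ℝ) * d ≤ m * (t + (3 : ℕ) + ε) := by push_cast; exact h1
  have h2 : ∀ C ∈ Φ, ((3 : ℕ) : ℝ) * e C ≤ m * (1 + ε) := by
    intro C hC
    obtain ⟨hirr, he, R, hR, hnd⟩ := hΦ C hC
    exact near_mult (n := 3) (by norm_num) le_rfl hS0 hH ht hF h0 hord ε hε.le h1' hirr he hR hnd
  have hlow : (m : ℝ) * (t + 3) ≤ 3 * d := by
    have := chud3 hS0 hH hF h0 hord
    exact_mod_cast this
  have hmt : (m : ℝ) * 1 ≤ m * t := mul_le_mul_of_nonneg_left ht0 hm0.le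
  have hmd : (m : ℝ) < d := by linarith
  have hmdN : m < d := by exact_mod_cast hmd
  obtain ⟨σ, hσdef⟩ : ∃ σ : MvPolynomial (Fin (3 + 1)) k → ℕ, ∀ C, σ C = ∑ i, nord (U.p i) C :=
    ⟨_, fun _ => rfl⟩
  have hDC : ∀ C ∈ Φ, ((t + 1) * (C.totalDegree : ℝ)) * ((d : ℝ) - m) *
      (max ((m : ℝ) - 3 * e C) 0 - 2 * ε * m) ≤
        m * (((t + 1) * (C.totalDegree : ℝ)) * (3 * d - m) - 2 * m * (σ C : ℝ)) := by
    intro C hC
    obtain ⟨hirr, he, R, hR, hnd⟩ := hΦ C hC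
    have hdvd : C ∣ F := by
      rw [hR]
      exact (dvd_pow_self C (by omega)).mul_right R
    have hCh := hom_of_dvd hF h0 hdvd
    have heC := h2 C hC
    push_cast at heC
    have hεm : (m : ℝ) * ε ≤ m * (1 / 2) := mul_le_mul_of_nonneg_left hε2 hm0.le
    have heM : (e C : ℝ) ≤ m / 2 := by linarith
    have heMN : e C ≤ m := by
      have : (e C : ℝ) ≤ m := by linarith
      exact_mod_cast this
    have h3 := bezout_component hS0 U hF hord hirr hR hnd hCh
    rw [← hσdef] at h3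
    apply real_comp3 (by positivity) hm0 hmd.le (by positivity) heM heC hε.le
    have e1 : ((m - e C : ℕ) : ℝ) = (m : ℝ) - e C := by rw [Nat.cast_sub heMN]
    have e2 : ((d - e C : ℕ) : ℝ) = (d : ℝ) - e C := by rw [Nat.cast_sub (heMN.trans hmdN.le)]
    have h4 : ((σ C * (m - e C) : ℕ) : ℝ) ≤ (((t + 1) * (C.totalDegree * (d - e C)) : ℕ) : ℝ) := by
      exact_mod_cast h3
    rw [Nat.cast_mul, e1, Nat.cast_mul, Nat.cast_mul, e2] at h4
    push_cast at h4
    linarith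
  -- totals
  have hσ : (σ F : ℝ) = ∑ C ∈ Φ, (e C : ℝ) * σ C := by
    have : σ F = ∑ C ∈ Φ, e C * σ C := by
      rw [hσdef, Finset.sum_congr rfl (fun i _ => hnord (U.p i) (hS0 _ (U.mem i))),
        Finset.sum_comm]
      apply Finset.sum_congr rfl
      intro C _
      rw [hσdef, Finset.mul_sum]
    rw [this]
    push_cast
    rfl
  have hDsum : (d : ℝ) = ∑ C ∈ Φ, (e C : ℝ) * C.totalDegree := by
    rw [hdeg]
    push_cast
    rfl
  have hσlow : (((t + 3).choose 3 : ℕ) : ℝ) * m ≤ σ F := by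
    have h4 : ((t + 3).choose 3) * m ≤ ∑ i, nord (U.p i) F := by
      have := Finset.card_nsmul_le_sum (Finset.univ) (fun i => nord (U.p i) F) m
        (fun i _ => le_nord (hS0 _ (U.mem i)) hF h0 (hord _ (U.mem i)))
      simpa using this
    rw [← hσdef] at h4
    exact_mod_cast h4
  have h6c : (6 : ℝ) * (((t + 3).choose 3 : ℕ) : ℝ) = (t + 3) * (t + 2) * (t + 1) := by
    have h7 := six_choose (t + 1)
    have e1 : t + 1 + 2 = t + 3 := rfl
    rw [e1] at h7
    have h8 : ((6 * ((t + 3).choose 3) : ℕ) : ℤ) = (((t + 3) * (t + 2) * (t + 1) : ℕ) : ℤ) := by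
      push_cast
      rw [h7]
      push_cast
      ring
    have h9 : 6 * ((t + 3).choose 3) = (t + 3) * (t + 2) * (t + 1) := by exact_mod_cast h8
    exact_mod_cast h9
  have hup : ∑ C ∈ Φ, (e C : ℝ) * (((t + 1) * (C.totalDegree : ℝ)) * (3 * d - m) - 2 * m * (σ C : ℝ)) ≤
      (t + 1) * d * (3 * d - m) - 2 * m * ((((t + 3).choose 3 : ℕ) : ℝ) * m) := by
    have h7 : ∑ C ∈ Φ, (e C : ℝ) * (((t + 1) * (C.totalDegree : ℝ)) * (3 * d - m) - 2 * m * (σ C : ℝ)) =
        (t + 1) * (∑ C ∈ Φ, (e C : ℝ) * C.totalDegree) * (3 * d - m) -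
          2 * m * (∑ C ∈ Φ, (e C : ℝ) * σ C) := by
      rw [Finset.mul_sum, Finset.mul_sum, Finset.sum_mul, ← Finset.sum_sub_distrib]
      apply Finset.sum_congr rfl
      intro C _
      ring
    rw [h7, ← hσ, ← hDsum]
    have := mul_le_mul_of_nonneg_left hσlow (by positivity : (0 : ℝ) ≤ 2 * m)
    linarith
  have hlowsum : (t + 1) * ((d : ℝ) - m) * ((∑ C ∈ Φ, (e C : ℝ) * C.totalDegree *
      max ((m : ℝ) - (3 : ℕ) * e C) 0) - 2 * ε * m * d) ≤
      m * ∑ C ∈ Φ, (e C : ℝ) * (((t + 1) * (C.totalDegree : ℝ)) * (3 * d - m) - 2 * m * (σ C : ℝ)) := by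
    have h7 : (t + 1) * ((d : ℝ) - m) * ((∑ C ∈ Φ, (e C : ℝ) * C.totalDegree *
        max ((m : ℝ) - (3 : ℕ) * e C) 0) - 2 * ε * m * ∑ C ∈ Φ, (e C : ℝ) * C.totalDegree) =
        ∑ C ∈ Φ, (e C : ℝ) * (((t + 1) * (C.totalDegree : ℝ)) * ((d : ℝ) - m) *
          (max ((m : ℝ) - 3 * e C) 0 - 2 * ε * m)) := by
      rw [Finset.mul_sum, ← Finset.sum_sub_distrib, Finset.mul_sum]
      apply Finset.sum_congr rfl
      intro C _
      push_cast
      ring
    rw [← hDsum] at h7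
    rw [h7, Finset.mul_sum]
    apply Finset.sum_le_sum
    intro C hC
    have := mul_le_mul_of_nonneg_left (hDC C hC) (by positivity : (0 : ℝ) ≤ e C)
    linarith
  have hWbound : (∑ C ∈ Φ, (e C : ℝ) * C.totalDegree * max ((m : ℝ) - (3 : ℕ) * e C) 0) ≤
      ε * (t + 11) * (m : ℝ) ^ 2 :=
    real_final3 ht0 hm0 hε hε2 rfl (by linarith) (by linarith) h6c hlowsum hup
  have hεt : ε * (t + 11) * (t + 11) ≤ 1 / 10 := by linarith
  have hεt0 : (0 : ℝ) ≤ ε * (t + 11) := by positivity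
  exact from_weights (n := 3) hS0 (by norm_num) hm hF h0 hord Φ e hΦ hdeg hnord ε (ε * (t + 11))
    hε.le hεt0 h1' h2 hWbound
    (by
      push_cast
      nlinarith)
    (by
      push_cast
      nlinarith)

end Pool.Agent.Lib.P5c592f
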