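import Mathlib
import Pool.Agent.Lib.P5c592f.Near3

set_option autoImplicit false

namespace Pool.Agent.Lib.P5c592f

open MvPolynomial

variable {k : Type*} [Field k]

theorem plane_comp2 [IsAlgClosed k] {S : Set (Fin 3 → k)} (hS0 : ∀ v ∈ S, v ≠ 0) {t : ℕ}
    (U : Unis2 S t) {d m e : ℕ} {F C R : MvPolynomial (Fin 3) k} (hF : F.IsHomogeneous d)
    (hord : ∀ v ∈ S, (m : ℕ∞) ≤ lord (phi v F))
    (hC : Irreducible C) (hFR : F = C ^ e * R) (hCR : ¬ C ∣ R)
    (hCh : C.IsHomogeneous C.totalDegree) :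
    (∑ i, nord (U.p i) C) * (m - e) ≤ C.totalDegree * (d - e) := by
  obtain ⟨l, hl⟩ := exists_pderiv_ne hC hCh
  have hB := T_coeff_hom hF (Pi.single l 1) e
  have hnd : ¬ C ∣ (T (Pi.single l 1) F).coeff e := by
    rw [hFR]
    exact T_coeff_not_dvd hC hCh hCR (by rw [T_single_coeff_one]; exact hl)
  have hJ := U.jets hS0 1 0
  have h1 := bezout2 U.p (fun _ => 1) (1 * (t + 1) + 0) (by omega) (fun _ => le_rfl) hJ hCh
    hC.prime hB hnd (fun i => nord (U.p i) C) (fun _ => m - e)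
    (fun i => nord_spec (hS0 _ (U.mem i)) hCh hC.ne_zero)
    (fun i => lord_T_coeff (hS0 _ (U.mem i)) hF (hord _ (U.mem i)) _ _)
  rwa [← Finset.sum_mul] at h1

theorem real_comp2 {t δ σ M D e : ℝ} (hδ : 0 ≤ δ) (hM : 0 < M)
    (he0 : 0 ≤ e) (heM : e < M) (hy0 : 0 ≤ 2 * D - M * (t + 2))
    (hb : σ * (M - e) ≤ δ * (D - e)) (hb2 : σ ≤ (t + 1) * δ) :
    δ * (t * max (M - 2 * e) 0 - (2 * D - M * (t + 2))) ≤ 2 * (M * ((t + 1) * δ - σ)) := by
  set DC := (t + 1) * δ - σ with hDC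
  have h0 : 0 ≤ DC := by rw [hDC]; linarith
  rcases le_total (2 * e) M with h8 | h8
  · have h9 : max (M - 2 * e) 0 = M - 2 * e := max_eq_left (by linarith)
    rw [h9]
    have h5 : δ * (t * (M - 2 * e) - (2 * D - M * (t + 2))) ≤ 2 * (DC * (M - e)) := by
      rw [hDC]
      linarith
    have h11 : DC * (M - e) ≤ DC * M := mul_le_mul_of_nonneg_left (by linarith) h0
    linarith
  · have h9 : max (M - 2 * e) 0 = 0 := max_eq_right (by linarith)
    rw [h9]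
    have h13 : 0 ≤ M * DC := by positivity
    have h14 : 0 ≤ δ * (2 * D - M * (t + 2)) := mul_nonneg hδ hy0
    linarith

theorem near2 [IsAlgClosed k] {S : Set (Fin (2 + 1) → k)} (hS0 : ∀ v ∈ S, v ≠ 0) {d m t : ℕ}
    (hH : HH S t) (ht : 1 ≤ t) (hm : 1 ≤ m) {F : MvPolynomial (Fin (2 + 1)) k}
    (hF : F.IsHomogeneous d) (h0 : F ≠ 0)
    (hord : ∀ v ∈ S, (m : ℕ∞) ≤ lord (phi v F)) (ε : ℝ) (hε : 0 < ε)
    (hεs : ε * (50 * (t + 3)) ≤ 1)
    (h1 : (2 : ℝ) * d ≤ m * (t + 2 + ε)) :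
    ∃ (d0 : ℕ) (F0 : MvPolynomial (Fin (2 + 1)) k), d0 ≤ t + 2 ∧ F0.IsHomogeneous d0 ∧ F0 ≠ 0 ∧
      ∀ v ∈ S, ((2 : ℕ) : ℕ∞) ≤ lord (phi v F0) := by
  classical
  obtain ⟨U⟩ := exists_Unis2 (k := k) (S := S) hH
  obtain ⟨Φ, e, hΦ, hdeg, hnord⟩ := exists_factorization d F hF h0
  have hm0 : (0 : ℝ) < m := by exact_mod_cast hm
  have ht0 : (1 : ℝ) ≤ t := by exact_mod_cast ht
  have hε2 : ε ≤ 1 / 200 := by nlinarith
  have h1' : ((2 : ℕ) : ℝ) * d ≤ m * (t + (2 : ℕ) + ε) := by push_cast; exact h1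
  have h2 : ∀ C ∈ Φ, ((2 : ℕ) : ℝ) * e C ≤ m * (1 + ε) := by
    intro C hC
    obtain ⟨hirr, he, R, hR, hnd⟩ := hΦ C hC
    exact near_mult (n := 2) (by norm_num) (by norm_num) hS0 hH ht hF h0 hord ε hε.le h1' hirr he hR hnd
  have hlow : (m : ℝ) * (t + 2) ≤ 2 * d := by
    have := chud2 hS0 hH hF h0 hord
    exact_mod_cast this
  have hmt : (m : ℝ) * 1 ≤ m * t := mul_le_mul_of_nonneg_left ht0 hm0.le
  have hmd : (m : ℝ) < d := by linarith
  have hmdN : m < d := by exact_mod_cast hmd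
  obtain ⟨σ, hσdef⟩ : ∃ σ : MvPolynomial (Fin (2 + 1)) k → ℕ, ∀ C, σ C = ∑ i, nord (U.p i) C :=
    ⟨_, fun _ => rfl⟩
  have hDC : ∀ C ∈ Φ, (C.totalDegree : ℝ) *
      (t * max ((m : ℝ) - 2 * e C) 0 - (2 * d - m * (t + 2))) ≤
        2 * (m * ((t + 1) * (C.totalDegree : ℝ) - (σ C : ℝ))) := by
    intro C hC
    obtain ⟨hirr, he, R, hR, hnd⟩ := hΦ C hC
    have hdvd : C ∣ F := by
      rw [hR]
      exact (dvd_pow_self C (by omega)).mul_right R
    have hCh := hom_of_dvd hF h0 hdvd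
    have heC := h2 C hC
    push_cast at heC
    have hεm : (m : ℝ) * ε ≤ m * (1 / 200) := mul_le_mul_of_nonneg_left hε2 hm0.le
    have heM : (e C : ℝ) < m := by linarith
    have heMN : e C ≤ m := by
      exact_mod_cast heM.le
    have h3 := plane_comp2 hS0 U hF hord hirr hR hnd hCh
    have h3' := plane_comp hS0 U hirr.ne_zero hCh
    rw [← hσdef] at h3 h3'
    apply real_comp2 (by positivity) hm0 (by positivity) heM (by linarith)
    · have e1 : ((m - e C : ℕ) : ℝ) = (m : ℝ) - e C := by rw [Nat.cast_sub heMN]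
      have e2 : ((d - e C : ℕ) : ℝ) = (d : ℝ) - e C := by rw [Nat.cast_sub (heMN.trans hmdN.le)]
      have h4 : ((σ C * (m - e C) : ℕ) : ℝ) ≤ ((C.totalDegree * (d - e C) : ℕ) : ℝ) := by
        exact_mod_cast h3
      rw [Nat.cast_mul, e1, Nat.cast_mul, e2] at h4
      exact h4
    · exact_mod_cast h3'
  -- totals
  have hσ : (σ F : ℝ) = ∑ C ∈ Φ, (e C : ℝ) * σ C := by
    have : σ F = ∑ C ∈ Φ, e C * σ C := by
      rw [hσdef, Finset.sum_congr rfl (fun i _ => hnord (U.p i) (hS0 _ (U.mem i))),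
        Finset.sum_comm]
      apply Finset.sum_congr rfl
      intro C _
      rw [hσdef, Finset.mul_sum]
    rw [this]
    push_cast
    rfl
  have hDsum : (d : ℝ) = ∑ C ∈ Φ, (e C : ℝ) * C.totalDegree := by
    rw [hdeg]
    push_cast
    rfl
  have hσlow : (((t + 2).choose 2 : ℕ) : ℝ) * m ≤ σ F := by
    have h4 : ((t + 2).choose 2) * m ≤ ∑ i, nord (U.p i) F := by
      have := Finset.card_nsmul_le_sum (Finset.univ) (fun i => nord (U.p i) F) m
        (fun i _ => le_nord (hS0 _ (U.mem i)) hF h0 (hord _ (U.mem i)))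
      simpa using this
    rw [← hσdef] at h4
    exact_mod_cast h4
  have h2c : (2 : ℝ) * (((t + 2).choose 2 : ℕ) : ℝ) = (t + 2) * (t + 1) := by
    have h7 := two_choose (t + 1)
    have e1 : t + 1 + 1 = t + 2 := rfl
    rw [e1] at h7
    have h8 : ((2 * ((t + 2).choose 2) : ℕ) : ℤ) = (((t + 2) * (t + 1) : ℕ) : ℤ) := by
      push_cast
      rw [h7]
      push_cast
      ring
    have h9 : 2 * ((t + 2).choose 2) = (t + 2) * (t + 1) := by exact_mod_cast h8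
    exact_mod_cast h9
  have hup : 2 * ∑ C ∈ Φ, (e C : ℝ) * ((t + 1) * (C.totalDegree : ℝ) - (σ C : ℝ)) ≤
      (t + 1) * (2 * d - m * (t + 2)) := by
    have h7 : ∑ C ∈ Φ, (e C : ℝ) * ((t + 1) * (C.totalDegree : ℝ) - (σ C : ℝ)) =
        (t + 1) * (∑ C ∈ Φ, (e C : ℝ) * C.totalDegree) - (∑ C ∈ Φ, (e C : ℝ) * σ C) := by
      rw [Finset.mul_sum, ← Finset.sum_sub_distrib]
      apply Finset.sum_congr rfl
      intro C _
      ring
    rw [h7, ← hσ, ← hDsum]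
    have h8 : (m : ℝ) * ((t + 2) * (t + 1)) ≤ 2 * σ F := by
      rw [← h2c]
      linarith
    linarith
  have hlowsum : t * (∑ C ∈ Φ, (e C : ℝ) * C.totalDegree * max ((m : ℝ) - (2 : ℕ) * e C) 0) -
      (2 * d - m * (t + 2)) * d ≤
      m * (2 * ∑ C ∈ Φ, (e C : ℝ) * ((t + 1) * (C.totalDegree : ℝ) - (σ C : ℝ))) := by
    have h7 : t * (∑ C ∈ Φ, (e C : ℝ) * C.totalDegree * max ((m : ℝ) - (2 : ℕ) * e C) 0) -
        (2 * d - m * (t + 2)) * (∑ C ∈ Φ, (e C : ℝ) * C.totalDegree) =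
        ∑ C ∈ Φ, (e C : ℝ) * ((C.totalDegree : ℝ) *
          (t * max ((m : ℝ) - 2 * e C) 0 - (2 * d - m * (t + 2)))) := by
      rw [Finset.mul_sum, Finset.mul_sum, ← Finset.sum_sub_distrib]
      apply Finset.sum_congr rfl
      intro C _
      push_cast
      ring
    rw [← hDsum] at h7
    rw [h7, Finset.mul_sum, Finset.mul_sum]
    apply Finset.sum_le_sum
    intro C hC
    have := mul_le_mul_of_nonneg_left (hDC C hC) (by positivity : (0 : ℝ) ≤ e C)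
    linarith
  have hWbound : (∑ C ∈ Φ, (e C : ℝ) * C.totalDegree * max ((m : ℝ) - (2 : ℕ) * e C) 0) ≤
      4 * ε * (m : ℝ) ^ 2 := by
    set W := (∑ C ∈ Φ, (e C : ℝ) * C.totalDegree * max ((m : ℝ) - (2 : ℕ) * e C) 0) with hW
    set y : ℝ := 2 * d - m * (t + 2) with hy
    have hyε : y ≤ ε * m := by rw [hy]; linarith
    have hy0 : 0 ≤ y := by rw [hy]; linarith
    have h7 : t * W ≤ y * d + m * ((t + 1) * y) := by
      have := mul_le_mul_of_nonneg_left hup hm0.le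
      linarith
    have hd2 : (d : ℝ) ≤ m * (t + 3) / 2 := by
      have : (m : ℝ) * ε ≤ m * 1 := mul_le_mul_of_nonneg_left (by linarith) hm0.le
      linarith
    have h8 : y * d + m * ((t + 1) * y) ≤ (ε * m) * (m * (t + 3) / 2) + m * ((t + 1) * (ε * m)) := by
      have a1 : y * d ≤ (ε * m) * (m * (t + 3) / 2) :=
        mul_le_mul hyε hd2 (by positivity) (by positivity)
      have a2 : (t + 1) * y ≤ (t + 1) * (ε * m) := mul_le_mul_of_nonneg_left hyε (by positivity)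
      have a3 := mul_le_mul_of_nonneg_left a2 hm0.le
      linarith
    have h9 : (t : ℝ) * W ≤ t * (4 * ε * (m : ℝ) ^ 2) := by
      have h10 : (0 : ℝ) ≤ ε * (m : ℝ) ^ 2 := by positivity
      have h11 : ε * (m : ℝ) ^ 2 * 1 ≤ ε * (m : ℝ) ^ 2 * t := mul_le_mul_of_nonneg_left ht0 h10
      linarith
    exact le_of_mul_le_mul_left h9 (by linarith)
  exact from_weights (n := 2) hS0 (by norm_num) hm hF h0 hord Φ e hΦ hdeg hnord ε (4 * ε)
    hε.le (by positivity) h1' h2 hWbound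
    (by
      push_cast
      nlinarith)
    (by
      push_cast
      nlinarith)

end Pool.Agent.Lib.P5c592f
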