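import Mathlib
import Pool.Agent.Lib.P5c592f.Near2

set_option autoImplicit false

namespace Pool.Agent.Lib.P5c592f

open MvPolynomial

variable {k : Type*} [Field k]

theorem concl_of_near [IsAlgClosed k] {N : ℕ} (hN1 : 1 ≤ N) (hN3 : N ≤ 3)
    {S : Finset (Projectivization k (Fin (N + 1) → k))} {a1 : ℕ}
    (h1 : IsLeast (Degs S 1) a1)
    (hnear : ∀ ε : ℝ, 0 < ε → ∃ m d : ℕ, 1 ≤ m ∧ d ∈ Degs S m ∧
      (N : ℝ) * d ≤ m * (a1 + N - 1 + ε)) : Concl S := by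
  by_cases ha : a1 ≤ 1
  · exact concl_of_small h1 ha
  have hN : N = 1 ∨ N = 2 ∨ N = 3 := by omega
  obtain ⟨t, rfl⟩ : ∃ t, a1 = t + 1 := ⟨a1 - 1, by omega⟩
  have hH := HH_of_least h1 (Nat.lt_succ_self t)
  have ht : 1 ≤ t := by omega
  have key : (∃ (d0 : ℕ) (F0 : MvPolynomial (Fin (N + 1)) k), d0 ≤ t + N ∧
      F0.IsHomogeneous d0 ∧ F0 ≠ 0 ∧ ∀ v ∈ reps S, (N : ℕ∞) ≤ lord (phi v F0)) → Concl S := by
    rintro ⟨d0, F0, hd0, hF0, h0, hv⟩
    have h2 := chudN hN1 hN3 reps_ne hH hF0 h0 hv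
    have h3 : d0 = t + N := le_antisymm hd0 (Nat.le_of_mul_le_mul_left h2 hN1)
    apply concl_of_eq hN1 hN3 h1 hN1 (m := N) (d := d0) (mem_Degs.2 ⟨F0, h0, hF0, hv⟩)
    rw [h3]
    congr 1
    omega
  rcases hN with rfl | rfl | rfl
  · exact concl_one
  · apply key
    have hpos : (0 : ℝ) < 1 / (50 * (t + 3)) := by positivity
    obtain ⟨m, d, hm, hd, hle⟩ := hnear _ hpos
    obtain ⟨F, h0, hF, hv⟩ := mem_Degs.1 hd
    apply near2 reps_ne hH ht hm hF h0 hv (1 / (50 * (t + 3))) hpos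
    · rw [one_div, inv_mul_cancel₀]
      positivity
    · push_cast at hle
      linarith
  · apply key
    have hpos : (0 : ℝ) < 1 / (10 * (t + 11) ^ 2) := by positivity
    obtain ⟨m, d, hm, hd, hle⟩ := hnear _ hpos
    obtain ⟨F, h0, hF, hv⟩ := mem_Degs.1 hd
    apply near3 reps_ne hH ht hm hF h0 hv (1 / (10 * (t + 11) ^ 2)) hpos
    · rw [one_div, inv_mul_cancel₀]
      positivity
    · push_cast at hle
      linarith

end Pool.Agent.Lib.P5c592f
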